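import Pool.Agent.Lib_helper90.DC.Defs

/-! Part A: graphs of odd girth `3t` whose `t`-th power has a clique of size `≥ c d^t`. -/

set_option autoImplicit false
set_option linter.unusedSectionVars false

namespace Pool.Agent.H90.DC.Dense

open SimpleGraph Pool.Agent.H90.DC

/-- vertices: cluster points `C`, hubs `W`, connector points `L`. -/
inductive Vx (q m : ℕ) : Type
  | C (k : Fin q) (x : Fin (m + 1) → Fin q) : Vx q m
  | W (k : Fin q) (x : Fin (m + 1) → Fin q) : Vx q m
  | L (k j : Fin q) (i : Fin (m + 1)) (x : Fin m → Fin q) : Vx q m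

variable {q m : ℕ}

def toSum : Vx q m → (Bool × Fin q × (Fin (m + 1) → Fin q)) ⊕
    (Fin q × Fin q × Fin (m + 1) × (Fin m → Fin q))
  | Vx.C k x => Sum.inl (false, k, x)
  | Vx.W k x => Sum.inl (true, k, x)
  | Vx.L k j i x => Sum.inr (k, j, i, x)

theorem toSum_injective : Function.Injective (toSum (q := q) (m := m)) := by
  intro a b h
  cases a <;> cases b <;> simp_all [toSum]

instance : Finite (Vx q m) := Finite.of_injective _ (toSum_injective (q := q) (m := m))

noncomputable instance : Fintype (Vx q m) := Fintype.ofFinite _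

/-- the adjacency relation (to be symmetrised). -/
def R : Vx q m → Vx q m → Prop
  | Vx.C k x, Vx.W k' y => k = k' ∧ ∃ i, ∀ i', i' ≠ i → x i' = y i'
  | Vx.C k x, Vx.L k' j i y => k' ≠ j ∧ y = Fin.init x ∧ ((k = k' ∧ i = 0) ∨ (k = j ∧ i = Fin.last m))
  | Vx.L k j i x, Vx.L k' j' i' y => k = k' ∧ j = j' ∧ k ≠ j ∧
      ∃ s : Fin m, i = s.castSucc ∧ i' = s.succ ∧ ∀ s', s' ≠ s → x s' = y s'
  | _, _ => False

def G (q m : ℕ) : SimpleGraph (Vx q m) := SimpleGraph.fromRel R

theorem adj_of_R {a b : Vx q m} (hne : a ≠ b) (h : R a b) : (G q m).Adj a b := by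
  rw [G, SimpleGraph.fromRel_adj]; exact ⟨hne, Or.inl h⟩

/-! ### odd girth -/

theorem walk_lip {V : Type*} {G : SimpleGraph V} (f : V → ℕ)
    (h : ∀ a b, G.Adj a b → f a ≤ f b + 1) {u v : V} (p : G.Walk u v) : f u ≤ f v + p.length := by
  induction p with
  | nil => simp
  | cons hab p ih =>
    have := h _ _ hab
    rw [Walk.length_cons]; omega

theorem walk_odd {V : Type*} {G : SimpleGraph V} (f : V → ℕ) (s : ℕ)
    (h : ∀ a b, G.Adj a b → f a ≤ f b + 1 ∧ (f a = f b → s ≤ f a)) {u v : V} (p : G.Walk u v)
    (hodd : Odd (p.length + f u + f v)) : 2 * s + 1 ≤ p.length + f u + f v := by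
  induction p with
  | nil =>
    exfalso
    rw [Walk.length_nil] at hodd
    obtain ⟨k, hk⟩ := hodd
    omega
  | @cons u w v hab p ih =>
    rw [Walk.length_cons] at hodd ⊢
    have h1 := h _ _ hab
    have h2 := h _ _ hab.symm
    by_cases he : f u = f w
    · have h3 := h1.2 he
      have h4 := walk_lip f (fun a b hab => (h a b hab).1) p
      omega
    · have h5 : Odd (p.length + f w + f v) := by
        rcases hodd with ⟨k, hk⟩
        have : f u = f w + 1 ∨ f w = f u + 1 := by omega
        rcases this with h' | h'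
        · exact ⟨k - 1, by omega⟩
        · exact ⟨k, by omega⟩
      have := ih h5
      omega

theorem closed_odd {V : Type*} {G : SimpleGraph V} (f : V → ℕ) (s : ℕ)
    (h : ∀ a b, G.Adj a b → f a ≤ f b + 1 ∧ (f a = f b → s ≤ f a)) {v : V} (p : G.Walk v v)
    (hodd : Odd p.length) {u : V} (hu : u ∈ p.support) (hfu : f u = 0) : 2 * s + 1 ≤ p.length := by
  classical
  have hlen : (p.takeUntil u hu).length + (p.dropUntil u hu).length = p.length := by
    rw [← Walk.length_append, Walk.take_spec]
  have hc := walk_odd f s h ((p.dropUntil u hu).append (p.takeUntil u hu)) (by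
    rw [Walk.length_append, hfu]
    have e : (p.dropUntil u hu).length + (p.takeUntil u hu).length = p.length := by omega
    rw [e]
    simpa using hodd)
  rw [Walk.length_append, hfu] at hc
  omega

/-- the potential around cluster `k0`. -/
def pot (k0 : Fin q) : Vx q m → ℕ
  | Vx.C k _ => if k = k0 then 0 else m + 2
  | Vx.W k _ => if k = k0 then 1 else m + 3
  | Vx.L k j i _ => if k = k0 then i.val + 1 else if j = k0 then m + 1 - i.val else
      m + 2 + min (i.val + 1) (m + 1 - i.val)

theorem pot_R (k0 : Fin q) (hm : Odd m) (a b : Vx q m) (h : R a b) :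
    (pot k0 a ≤ pot k0 b + 1 ∧ pot k0 b ≤ pot k0 a + 1) ∧
      (pot k0 a = pot k0 b → m + 2 + (m + 1) / 2 ≤ pot k0 a) := by
  obtain ⟨m', hm'⟩ := hm
  cases a with
  | C k x =>
    cases b with
    | C k' y => exact absurd h (by simp [R])
    | W k' y =>
      obtain ⟨rfl, _⟩ := h
      simp only [pot]
      split_ifs <;> first
          | omega
          | exact ⟨⟨by omega, by omega⟩, fun h => h.elim⟩
    | L k' j i y =>
      obtain ⟨hkj, _, h2⟩ := h
      rcases h2 with ⟨rfl, rfl⟩ | ⟨rfl, rfl⟩
      · simp only [pot, Fin.val_zero]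
        split_ifs <;> first
          | omega
          | exact ⟨⟨by omega, by omega⟩, fun h => h.elim⟩
      · simp only [pot, Fin.val_last]
        by_cases h1 : k' = k0
        · have h3 : k ≠ k0 := fun h => hkj (h1.trans h.symm)
          simp only [h1, h3, if_true, if_false]
          omega
        · simp only [h1, if_false]
          split_ifs <;> omega
  | W k x => cases b <;> exact absurd h (by simp [R])
  | L k j i x =>
    cases b with
    | C k' y => exact absurd h (by simp [R])
    | W k' y => exact absurd h (by simp [R])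
    | L k' j' i' y =>
      obtain ⟨rfl, rfl, _, s, rfl, rfl, _⟩ := h
      have hs := s.isLt
      simp only [pot, Fin.val_castSucc, Fin.val_succ]
      split_ifs <;> omega

theorem pot_adj (k0 : Fin q) (hm : Odd m) (a b : Vx q m) (h : (G q m).Adj a b) :
    pot k0 a ≤ pot k0 b + 1 ∧ (pot k0 a = pot k0 b → m + 2 + (m + 1) / 2 ≤ pot k0 a) := by
  rw [G, SimpleGraph.fromRel_adj] at h
  rcases h.2 with h | h
  · have := pot_R k0 hm a b h
    exact ⟨this.1.1, this.2⟩
  · have := pot_R k0 hm b a h
    refine ⟨this.1.2, fun he => ?_⟩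
    rw [he]
    exact this.2 he.symm

def IsC : Vx q m → Prop
  | Vx.C _ _ => True
  | _ => False

def lev : Vx q m → ℕ
  | Vx.L _ _ i _ => i.val
  | _ => 0

theorem lev_adj (a b : Vx q m) (h : (G q m).Adj a b) (ha : ¬ IsC a) (hb : ¬ IsC b) :
    lev a = lev b + 1 ∨ lev b = lev a + 1 := by
  rw [G, SimpleGraph.fromRel_adj] at h
  rcases h.2 with h | h
  · cases a with
    | C k x => exact absurd trivial ha
    | W k x => cases b <;> exact absurd h (by simp [R])
    | L k j i x =>
      cases b with
      | C k' y => exact absurd h (by simp [R])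
      | W k' y => exact absurd h (by simp [R])
      | L k' j' i' y =>
        obtain ⟨rfl, rfl, _, s, rfl, rfl, _⟩ := h
        right
        simp [lev]
  · cases b with
    | C k x => exact absurd trivial hb
    | W k x => cases a <;> exact absurd h (by simp [R])
    | L k j i x =>
      cases a with
      | C k' y => exact absurd h (by simp [R])
      | W k' y => exact absurd h (by simp [R])
      | L k' j' i' y =>
        obtain ⟨rfl, rfl, _, s, rfl, rfl, _⟩ := h
        left
        simp [lev]

theorem walk_noC_even {u v : Vx q m} (p : (G q m).Walk u v) (h : ∀ w ∈ p.support, ¬ IsC w) :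
    Even (p.length + lev u + lev v) := by
  induction p with
  | nil => rw [Walk.length_nil]; exact ⟨_, by rw [zero_add]⟩
  | @cons u w v hab p ih =>
    have h1 := ih (fun z hz => h z (by rw [Walk.support_cons]; exact List.mem_cons_of_mem _ hz))
    have h2 := lev_adj u w hab (h u (by simp)) (h w (by
      rw [Walk.support_cons]; exact List.mem_cons_of_mem _ (Walk.start_mem_support p)))
    rw [Walk.length_cons]
    obtain ⟨k, hk⟩ := h1
    rcases h2 with h2 | h2
    · exact ⟨k + 1, by omega⟩
    · exact ⟨k, by omega⟩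

theorem no_short_odd (hm : Odd m) {v : Vx q m} (p : (G q m).Walk v v) (hodd : Odd p.length) :
    3 * (m + 2) ≤ p.length := by
  by_cases h : ∃ u ∈ p.support, IsC u
  · obtain ⟨u, hu, hC⟩ := h
    cases u with
    | C k x =>
      have := closed_odd (pot k) (m + 2 + (m + 1) / 2) (fun a b hab => pot_adj k hm a b hab) p hodd
        hu (by simp [pot])
      obtain ⟨m', hm'⟩ := hm
      omega
    | W k x => exact absurd hC (by simp [IsC])
    | L k j i x => exact absurd hC (by simp [IsC])
  · push Not at h
    have := walk_noC_even p h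
    obtain ⟨a, ha⟩ := this
    obtain ⟨b, hb⟩ := hodd
    omega

/-! ### degrees -/

theorem ncard_le_of_range {α β : Type*} [Fintype α] (F : α → β) (S : Set β)
    (h : S ⊆ Set.range F) : S.ncard ≤ Fintype.card α := by
  classical
  have h1 : S ⊆ ((Finset.univ.image F : Finset β) : Set β) := by
    intro x hx
    obtain ⟨a, rfl⟩ := h hx
    simp
  calc S.ncard ≤ ((Finset.univ.image F : Finset β) : Set β).ncard :=
        Set.ncard_le_ncard h1 (Finset.finite_toSet _)
    _ = (Finset.univ.image F).card := Set.ncard_coe_finset _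
    _ ≤ Fintype.card α := Finset.card_image_le

theorem eq_update_of_agree {n : ℕ} {x y : Fin n → Fin q} {i : Fin n}
    (h : ∀ i', i' ≠ i → x i' = y i') : Function.update x i (y i) = y := by
  funext j
  by_cases hj : j = i
  · subst hj; simp
  · rw [Function.update_of_ne hj]; exact h j hj

theorem eq_snoc_of_init {x : Fin (m + 1) → Fin q} {y : Fin m → Fin q} (h : y = Fin.init x) :
    (Fin.snoc y (x (Fin.last m)) : Fin (m + 1) → Fin q) = x := by
  subst h
  exact Fin.snoc_init_self x

theorem degree_bound (v : Vx q m) : ((G q m).neighborSet v).ncard ≤ (m + 5) * q := by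
  cases v with
  | C k x =>
    refine le_trans (ncard_le_of_range (α := (Fin (m + 1) × Fin q) ⊕ (Fin q ⊕ Fin q))
      (fun s => match s with
        | Sum.inl (i, a) => Vx.W k (Function.update x i a)
        | Sum.inr (Sum.inl j) => Vx.L k j 0 (Fin.init x)
        | Sum.inr (Sum.inr j) => Vx.L j k (Fin.last m) (Fin.init x)) _ ?_) ?_
    · intro b hb
      rw [SimpleGraph.mem_neighborSet, G, SimpleGraph.fromRel_adj] at hb
      rcases hb.2 with h | h
      · cases b with
        | C k' y => exact absurd h (by simp [R])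
        | W k' y =>
          obtain ⟨rfl, i, hi⟩ := h
          exact ⟨Sum.inl (i, y i), by simp [eq_update_of_agree hi]⟩
        | L k' j i y =>
          obtain ⟨_, rfl, h2⟩ := h
          rcases h2 with ⟨rfl, rfl⟩ | ⟨rfl, rfl⟩
          · exact ⟨Sum.inr (Sum.inl j), rfl⟩
          · exact ⟨Sum.inr (Sum.inr k'), rfl⟩
      · cases b <;> exact absurd h (by simp [R])
    · simp only [Fintype.card_sum, Fintype.card_prod, Fintype.card_fin]
      nlinarith
  | W k x =>
    refine le_trans (ncard_le_of_range (α := (Fin (m + 1) × Fin q))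
      (fun s => Vx.C k (Function.update x s.1 s.2)) _ ?_) ?_
    · intro b hb
      rw [SimpleGraph.mem_neighborSet, G, SimpleGraph.fromRel_adj] at hb
      rcases hb.2 with h | h
      · cases b <;> exact absurd h (by simp [R])
      · cases b with
        | C k' y =>
          obtain ⟨rfl, i, hi⟩ := h
          exact ⟨(i, y i), by simp [eq_update_of_agree (fun i' hi' => (hi i' hi').symm)]⟩
        | W k' y => exact absurd h (by simp [R])
        | L k' j i y => exact absurd h (by simp [R])
    · simp only [Fintype.card_prod, Fintype.card_fin]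
      nlinarith
  | L k j i x =>
    refine le_trans (ncard_le_of_range (α := (Fin q ⊕ Fin q) ⊕ (Fin q ⊕ Fin q))
      (fun s => match s with
        | Sum.inl (Sum.inl a) => Vx.C k (Fin.snoc x a)
        | Sum.inl (Sum.inr a) => Vx.C j (Fin.snoc x a)
        | Sum.inr (Sum.inl a) => if h : i.val < m then
            Vx.L k j (Fin.succ ⟨i.val, h⟩) (Function.update x ⟨i.val, h⟩ a) else Vx.L k j i x
        | Sum.inr (Sum.inr a) => if h : i.val - 1 < m then
            Vx.L k j (Fin.castSucc ⟨i.val - 1, h⟩) (Function.update x ⟨i.val - 1, h⟩ a)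
            else Vx.L k j i x) _ ?_) ?_
    · intro b hb
      rw [SimpleGraph.mem_neighborSet, G, SimpleGraph.fromRel_adj] at hb
      rcases hb.2 with h | h
      · cases b with
        | C k' y => exact absurd h (by simp [R])
        | W k' y => exact absurd h (by simp [R])
        | L k' j' i' y =>
          obtain ⟨rfl, rfl, _, s, rfl, rfl, hs⟩ := h
          refine ⟨Sum.inr (Sum.inl (y s)), ?_⟩
          have h1 : (s.castSucc).val < m := by simp
          simp only [h1, dif_pos]
          have h2 : (⟨(s.castSucc).val, h1⟩ : Fin m) = s := by ext; simp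
          rw [h2, eq_update_of_agree hs]
      · cases b with
        | C k' y =>
          obtain ⟨_, h1, h2⟩ := h
          rcases h2 with ⟨rfl, _⟩ | ⟨rfl, _⟩
          · exact ⟨Sum.inl (Sum.inl (y (Fin.last m))), by simp only [eq_snoc_of_init h1]⟩
          · exact ⟨Sum.inl (Sum.inr (y (Fin.last m))), by simp only [eq_snoc_of_init h1]⟩
        | W k' y => exact absurd h (by simp [R])
        | L k' j' i' y =>
          obtain ⟨rfl, rfl, _, s, rfl, rfl, hs⟩ := h
          refine ⟨Sum.inr (Sum.inr (y s)), ?_⟩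
          have h1 : (s.succ).val - 1 < m := by simp
          simp only [h1, dif_pos]
          have h2 : (⟨(s.succ).val - 1, h1⟩ : Fin m) = s := by ext; simp
          rw [h2, eq_update_of_agree (fun i' hi' => (hs i' hi').symm)]
    · simp only [Fintype.card_sum, Fintype.card_fin]
      nlinarith

/-! ### distances -/

/-- interpolation between `x` and `y`. -/
def mix {n : ℕ} (x y : Fin n → Fin q) (i : ℕ) : Fin n → Fin q := fun j => if j.val < i then y j else x j

theorem mix_zero {n : ℕ} (x y : Fin n → Fin q) : mix x y 0 = x := by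
  funext j; simp [mix]

theorem mix_last {n : ℕ} (x y : Fin n → Fin q) : mix x y n = y := by
  funext j; simp [mix]

theorem mix_agree {n : ℕ} (x y : Fin n → Fin q) (i : Fin n) :
    ∀ i', i' ≠ i → mix x y i.val i' = mix x y (i.val + 1) i' := by
  intro i' hi'
  have : i'.val ≠ i.val := fun h => hi' (Fin.ext h)
  unfold mix
  by_cases h : i'.val < i.val
  · rw [if_pos h, if_pos (by omega)]
  · rw [if_neg h, if_neg (by omega)]

theorem same_cluster (k : Fin q) (x y : Fin (m + 1) → Fin q) :
    ∀ i, i ≤ m + 1 → ∃ p : (G q m).Walk (Vx.C k x)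
      (if Even i then Vx.C k (mix x y i) else Vx.W k (mix x y i)), p.length = i := by
  intro i
  induction i with
  | zero =>
    intro _
    have h0 : (if Even 0 then Vx.C k (mix x y 0) else Vx.W k (mix x y 0) : Vx q m) = Vx.C k x := by
      simp [mix_zero]
    rw [h0]
    exact ⟨Walk.nil, rfl⟩
  | succ i ih =>
    intro hi
    obtain ⟨p, hp⟩ := ih (by omega)
    have hag := mix_agree x y (⟨i, by omega⟩ : Fin (m + 1))
    have hadj : (G q m).Adj (if Even i then Vx.C k (mix x y i) else Vx.W k (mix x y i))
        (if Even (i + 1) then Vx.C k (mix x y (i + 1)) else Vx.W k (mix x y (i + 1))) := by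
      by_cases he : Even i
      · have he' : ¬ Even (i + 1) := by
          rw [Nat.even_add_one]; exact not_not.2 he
        rw [if_pos he, if_neg he']
        apply adj_of_R (by simp)
        exact ⟨rfl, _, hag⟩
      · have he' : Even (i + 1) := by
          rw [Nat.even_add_one]; exact he
        rw [if_neg he, if_pos he']
        apply SimpleGraph.Adj.symm
        apply adj_of_R (by simp)
        exact ⟨rfl, _, fun i' hi' => (hag i' hi').symm⟩
    refine ⟨p.append (Walk.cons hadj Walk.nil), ?_⟩
    rw [Walk.length_append, hp]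
    simp

theorem diff_cluster (k j : Fin q) (hkj : k ≠ j) (x y : Fin (m + 1) → Fin q) :
    ∀ i, (hi : i ≤ m) → ∃ p : (G q m).Walk (Vx.C k x)
      (Vx.L k j ⟨i, by omega⟩ (mix (Fin.init x) (Fin.init y) i)), p.length = i + 1 := by
  intro i
  induction i with
  | zero =>
    intro _
    have hadj : (G q m).Adj (Vx.C k x) (Vx.L k j ⟨0, by omega⟩ (mix (Fin.init x) (Fin.init y) 0)) := by
      apply adj_of_R (by simp)
      refine ⟨hkj, ?_, Or.inl ⟨rfl, rfl⟩⟩
      rw [mix_zero]
    exact ⟨Walk.cons hadj Walk.nil, rfl⟩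
  | succ i ih =>
    intro hi
    obtain ⟨p, hp⟩ := ih (by omega)
    have hadj : (G q m).Adj (Vx.L k j ⟨i, by omega⟩ (mix (Fin.init x) (Fin.init y) i))
        (Vx.L k j ⟨i + 1, by omega⟩ (mix (Fin.init x) (Fin.init y) (i + 1))) := by
      apply adj_of_R
      · intro h
        injection h with h1 h2 h3 h4
        have := congrArg Fin.val h3
        simp at this
      · refine ⟨rfl, rfl, hkj, ⟨i, by omega⟩, rfl, rfl, ?_⟩
        exact mix_agree (Fin.init x) (Fin.init y) (⟨i, by omega⟩ : Fin m)
    refine ⟨p.append (Walk.cons hadj Walk.nil), ?_⟩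
    rw [Walk.length_append, hp]
    simp

theorem clique (hm : Odd m) (k j : Fin q) (x y : Fin (m + 1) → Fin q)
    (hne : (k, x) ≠ (j, y)) : (Pw (G q m) (m + 2)).Adj (Vx.C k x) (Vx.C j y) := by
  rw [pw_adj]
  refine ⟨?_, ?_⟩
  · intro h
    injection h with h1 h2
    exact hne (by rw [h1, h2])
  · by_cases hkj : k = j
    · subst hkj
      have hex := same_cluster k x y (m + 1) le_rfl
      have he : Even (m + 1) := hm.add_one
      have h0 : (if Even (m + 1) then Vx.C k (mix x y (m + 1)) else Vx.W k (mix x y (m + 1)) : Vx q m) =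
          Vx.C k y := by
        rw [if_pos he, mix_last]
      rw [h0] at hex
      obtain ⟨p, hp⟩ := hex
      exact ⟨p, by omega⟩
    · obtain ⟨p, hp⟩ := diff_cluster k j hkj x y m le_rfl
      have hadj : (G q m).Adj (Vx.L k j ⟨m, by omega⟩ (mix (Fin.init x) (Fin.init y) m)) (Vx.C j y) := by
        apply SimpleGraph.Adj.symm
        apply adj_of_R (by simp)
        refine ⟨hkj, ?_, Or.inr ⟨rfl, rfl⟩⟩
        rw [mix_last]
      refine ⟨p.append (Walk.cons hadj Walk.nil), ?_⟩
      rw [Walk.length_append, hp]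
      simp

theorem not_colorable (hm : Odd m) (k : ℕ) (hk : k < q ^ (m + 2)) :
    ¬ (Pw (G q m) (m + 2)).Colorable k := by
  rintro ⟨c⟩
  have hinj : Function.Injective (fun p : Fin q × (Fin (m + 1) → Fin q) => c (Vx.C p.1 p.2)) := by
    rintro ⟨k1, x⟩ ⟨k2, y⟩ h
    by_contra hne
    exact c.valid (clique hm k1 k2 x y hne) h
  have := Fintype.card_le_of_injective _ hinj
  simp only [Fintype.card_prod, Fintype.card_fin, Fintype.card_pi, Finset.prod_const,
    Finset.card_univ] at this
  have h2 : q * q ^ (m + 1) = q ^ (m + 2) := by ring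
  omega

/-- Part A. -/
theorem partA (t ℓ : ℕ) (ht : Odd t) (ht3 : 3 ≤ t) (hℓ : Odd ℓ) (hlt : ℓ < 3 * t) :
    ∃ c : ℝ, 0 < c ∧ ∃ D : ℕ, ∀ d : ℕ, D ≤ d → LowerGood t ℓ d (c * (d : ℝ) ^ t) := by
  obtain ⟨m, rfl⟩ : ∃ m, t = m + 2 := ⟨t - 2, by omega⟩
  have hm : Odd m := by
    obtain ⟨k, hk⟩ := ht
    exact ⟨k - 1, by omega⟩
  refine ⟨(1 / (2 * (m + 5) : ℝ)) ^ (m + 2), by positivity, 2 * (m + 5), ?_⟩
  intro d hd
  set q := d / (m + 5) with hq
  have hqd : (m + 5) * q ≤ d := Nat.mul_div_le d (m + 5)
  have hq2 : (d : ℝ) / (2 * (m + 5)) ≤ (q : ℝ) := by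
    have h1 : d < (m + 5) * (q + 1) := by
      rw [hq]; exact Nat.lt_mul_div_succ d (by omega)
    have h2 : 1 ≤ q := by
      rw [hq, Nat.le_div_iff_mul_le (by omega)]; omega
    have h1' : (d : ℝ) < ((m : ℝ) + 5) * ((q : ℝ) + 1) := by exact_mod_cast h1
    have h2' : (1 : ℝ) ≤ (q : ℝ) := by exact_mod_cast h2
    rw [div_le_iff₀ (by positivity)]
    have hm0 : (0 : ℝ) ≤ m := by positivity
    nlinarith
  apply lowerGood_of_fintype (G q m)
  · intro v
    exact le_trans (degree_bound v) hqd
  · rintro ⟨v, p, _, hl⟩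
    have := no_short_odd hm p (by rw [hl]; exact hℓ)
    omega
  · intro k hk
    apply not_colorable hm
    have h3 : (k : ℝ) < (q : ℝ) ^ (m + 2) := by
      refine lt_of_lt_of_le hk ?_
      rw [← mul_pow]
      apply pow_le_pow_left₀ (by positivity)
      calc 1 / (2 * ((m : ℝ) + 5)) * (d : ℝ) = (d : ℝ) / (2 * (m + 5)) := by ring
        _ ≤ q := hq2
    exact_mod_cast h3

end Pool.Agent.H90.DC.Dense
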