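import Pool.Agent.Lib_helper90.DC.Base4
import Pool.Agent.Lib_helper7.DC.PartD

/-! Part D: lower bound `Ω(d^t / log d)` without `C_ℓ`. -/

namespace Pool.Agent.H90.DC

/-- Part D: random lower bound. -/
theorem partD (t ℓ : ℕ) (ht : Odd t) (hodd : Odd ℓ) :
    ∃ c : ℝ, 0 < c ∧ ∃ D : ℕ, ∀ d : ℕ, D ≤ d →
      LowerGood t ℓ d (c * (d : ℝ) ^ t / Real.log (d : ℝ)) :=
  Pool.Agent.Lib_helper7.DC.partD_of_base (fun g => base g) t ℓ ht hodd

end Pool.Agent.H90.DC
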