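import Pool.Agent.Lib_helper90.DC.Sparse2

/-! Rosenfeld counting: locally sparse graphs have chromatic number `O(Δ / log)`. -/

set_option autoImplicit false
set_option linter.unusedSectionVars false

namespace Pool.Agent.H90.DC.Sparse

open SimpleGraph Finset
open scoped Classical

variable {V : Type*} [Fintype V] (H : SimpleGraph V) {q : ℕ} [NeZero q]

theorem good_sum {S : Finset V} {v : V} {L : ℝ} (hL : 4 ≤ L) (Δ : ℝ)
    (hΔ : ((Nb H S v).card : ℝ) ≤ Δ) :
    (q / 2 * Real.exp (-(8 * Δ / q))) *
      (((Col H q S).filter (fun c => ((Bd H S v L c).card : ℝ) ≤ q / 2)).card : ℝ) ≤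
    ∑ c ∈ (Col H q S).filter (fun c => ((Bd H S v L c).card : ℝ) ≤ q / 2),
      ((av H q c S v).card : ℝ) := by
  set G := (Col H q S).filter (fun c => ((Bd H S v L c).card : ℝ) ≤ q / 2) with hG
  have hmaps : ∀ c ∈ G, kap H S v L c ∈ G.image (kap H S v L) := fun c hc => mem_image_of_mem _ hc
  rw [← Finset.sum_fiberwise_of_maps_to hmaps (fun c => ((av H q c S v).card : ℝ))]
  rw [Finset.card_eq_sum_card_fiberwise hmaps]
  push_cast
  rw [Finset.mul_sum]
  apply Finset.sum_le_sum
  intro k hk
  rw [mem_image] at hk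
  obtain ⟨c0, hc0, rfl⟩ := hk
  have hfe : G.filter (fun c => kap H S v L c = kap H S v L c0) =
      (Col H q S).filter (fun c => kap H S v L c = kap H S v L c0) := by
    ext c
    simp only [hG, mem_filter]
    constructor
    · rintro ⟨⟨h1, _⟩, h3⟩
      exact ⟨h1, h3⟩
    · rintro ⟨h1, h3⟩
      refine ⟨⟨h1, ?_⟩, h3⟩
      have h4 := ((kap_eq_iff H).1 h3).1
      have h5 : Bd H S v L c = Bd H S v L c0 := by
        unfold Bd; rw [h4]
      rw [h5]
      exact (mem_filter.1 hc0).2
  rw [hfe]
  exact class_sum H hL Δ hΔ (mem_filter.1 hc0).2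

theorem bad_sum {S : Finset V} {v : V} {L β E : ℝ} (hL : 0 < L) (hβ : 0 < β)
    (ih : ∀ u ∈ S, β * ((Col H q (S.erase u)).card : ℝ) ≤ ((Col H q S).card : ℝ))
    (hE : ∑ u ∈ Nb H S v, (((Nb H S v).filter (fun w => H.Adj u w)).card : ℝ) ≤ E) :
    ∑ c ∈ Col H q S, ((Bd H S v L c).card : ℝ) ≤
      (((Nb H S v).card : ℝ) * (L / β) + 2 * E / L) * ((Col H q S).card : ℝ) := by
  set N := Nb H S v with hN
  have hNS : N ⊆ S := Finset.filter_subset _ _
  -- bad by degree
  set BD := N.filter (fun u => L / 2 < ((N.filter (fun w => H.Adj u w)).card : ℝ)) with hBD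
  have h1 : ∀ c : V → Fin q, ((Bd H S v L c).card : ℝ) ≤
      ∑ u ∈ N, (if ((av H q c (S \ N) u).card : ℝ) ≤ L then (1 : ℝ) else 0) + (BD.card : ℝ) := by
    intro c
    have h2 : Bd H S v L c ⊆ N.filter (fun u => ((av H q c (S \ N) u).card : ℝ) ≤ L) ∪ BD := by
      intro u hu
      unfold Bd Gd at hu
      rw [mem_sdiff, mem_filter] at hu
      rw [mem_union, mem_filter, hBD, mem_filter]
      by_cases h : ((av H q c (S \ N) u).card : ℝ) ≤ L
      · exact Or.inl ⟨hu.1, h⟩
      · right
        refine ⟨hu.1, ?_⟩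
        by_contra h'
        push Not at h h'
        exact hu.2 ⟨hu.1, h, h'⟩
    have h3 := (Finset.card_le_card h2).trans (Finset.card_union_le _ _)
    have h4 : (((N.filter (fun u => ((av H q c (S \ N) u).card : ℝ) ≤ L)).card : ℕ) : ℝ) =
        ∑ u ∈ N, (if ((av H q c (S \ N) u).card : ℝ) ≤ L then (1 : ℝ) else 0) := by
      rw [Finset.card_filter]; push_cast; rfl
    rw [← h4]
    exact_mod_cast h3
  have h5 : ((BD.card : ℕ) : ℝ) ≤ 2 * E / L := by
    have h6 : (BD.card : ℝ) * (L / 2) ≤ E := by
      calc (BD.card : ℝ) * (L / 2) = ∑ u ∈ BD, L / 2 := by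
            rw [Finset.sum_const, nsmul_eq_mul]
        _ ≤ ∑ u ∈ BD, ((N.filter (fun w => H.Adj u w)).card : ℝ) := by
            apply Finset.sum_le_sum
            intro u hu
            exact (mem_filter.1 hu).2.le
        _ ≤ ∑ u ∈ N, ((N.filter (fun w => H.Adj u w)).card : ℝ) := by
            apply Finset.sum_le_sum_of_subset_of_nonneg (Finset.filter_subset _ _)
            intro _ _ _; positivity
        _ ≤ E := hE
    rw [le_div_iff₀ hL]
    linarith
  calc ∑ c ∈ Col H q S, ((Bd H S v L c).card : ℝ)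
      ≤ ∑ c ∈ Col H q S,
        (∑ u ∈ N, (if ((av H q c (S \ N) u).card : ℝ) ≤ L then (1 : ℝ) else 0) + (BD.card : ℝ)) :=
        Finset.sum_le_sum (fun c _ => h1 c)
    _ = ∑ u ∈ N, ∑ c ∈ Col H q S, (if ((av H q c (S \ N) u).card : ℝ) ≤ L then (1 : ℝ) else 0) +
        (BD.card : ℝ) * ((Col H q S).card : ℝ) := by
        rw [Finset.sum_add_distrib, Finset.sum_comm, Finset.sum_const, nsmul_eq_mul]
        ring
    _ ≤ ∑ u ∈ N, (L / β) * ((Col H q S).card : ℝ) + (2 * E / L) * ((Col H q S).card : ℝ) := by
        apply add_le_add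
        · apply Finset.sum_le_sum
          intro u hu
          have huS := hNS hu
          have h6 : ∑ c ∈ Col H q S, (if ((av H q c (S \ N) u).card : ℝ) ≤ L then (1 : ℝ) else 0) ≤
              (((Col H q S).filter (fun c => ((av H q c (S.erase u) u).card : ℝ) ≤ L)).card : ℝ) := by
            rw [Finset.card_filter]
            push_cast
            apply Finset.sum_le_sum
            intro c _
            have h7 : av H q c (S.erase u) u ⊆ av H q c (S \ N) u := by
              apply av_anti
              intro w hw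
              rw [mem_erase]
              refine ⟨?_, (mem_sdiff.1 hw).1⟩
              rintro rfl
              exact (mem_sdiff.1 hw).2 hu
            have h8 : ((av H q c (S.erase u) u).card : ℝ) ≤ ((av H q c (S \ N) u).card : ℝ) := by
              exact_mod_cast Finset.card_le_card h7
            split_ifs with ha hb hb
            · exact le_rfl
            · exact absurd (le_trans h8 ha) hb
            · norm_num
            · exact le_rfl
          refine le_trans h6 ?_
          refine le_trans (card_small_av H huS L hL.le) ?_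
          have h9 := ih u huS
          rw [div_mul_eq_mul_div, le_div_iff₀ hβ]
          calc L * ((Col H q (S.erase u)).card : ℝ) * β
              = L * (β * ((Col H q (S.erase u)).card : ℝ)) := by ring
            _ ≤ L * ((Col H q S).card : ℝ) := mul_le_mul_of_nonneg_left h9 hL.le
        · exact mul_le_mul_of_nonneg_right h5 (by positivity)
    _ = _ := by
        rw [Finset.sum_const, nsmul_eq_mul]
        ring

theorem sparse_step (Δ E L : ℝ) (hL : 4 ≤ L)
    (hΔ : ∀ v, ((univ.filter (fun u => H.Adj v u)).card : ℝ) ≤ Δ)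
    (hE : ∀ v, ∑ u ∈ univ.filter (fun u => H.Adj v u),
      ((univ.filter (fun w => H.Adj v w ∧ H.Adj u w)).card : ℝ) ≤ E)
    (hnum : Δ * (L / (q / 4 * Real.exp (-(8 * Δ / q)))) + 2 * E / L ≤ q / 4) :
    ∀ n : ℕ, ∀ S : Finset V, S.card = n → ∀ v, v ∉ S →
      (q / 4 * Real.exp (-(8 * Δ / q))) * ((Col H q S).card : ℝ) ≤
        ((Col H q (insert v S)).card : ℝ) := by
  set β := (q / 4 * Real.exp (-(8 * Δ / q))) with hβdef
  have hqpos : (0 : ℝ) < q := by
    have : 0 < q := Nat.pos_of_ne_zero (NeZero.ne q)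
    exact_mod_cast this
  have hβ : 0 < β := by positivity
  have hLpos : 0 < L := by linarith
  intro n
  induction n using Nat.strong_induction_on with
  | _ n IH =>
  intro S hS v hv
  have ih : ∀ u ∈ S, β * ((Col H q (S.erase u)).card : ℝ) ≤ ((Col H q S).card : ℝ) := by
    intro u hu
    have h1 : (S.erase u).card < n := by
      rw [← hS]; exact Finset.card_erase_lt_of_mem hu
    have h2 := IH _ h1 (S.erase u) rfl u (Finset.notMem_erase u S)
    rwa [Finset.insert_erase hu] at h2
  have hNsub : Nb H S v ⊆ univ.filter (fun u => H.Adj v u) := by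
    intro u hu
    exact mem_filter.2 ⟨mem_univ _, (mem_filter.1 hu).2⟩
  have hNΔ : ((Nb H S v).card : ℝ) ≤ Δ := by
    refine le_trans ?_ (hΔ v)
    exact_mod_cast Finset.card_le_card hNsub
  have hEN : ∑ u ∈ Nb H S v, (((Nb H S v).filter (fun w => H.Adj u w)).card : ℝ) ≤ E := by
    refine le_trans ?_ (hE v)
    calc ∑ u ∈ Nb H S v, (((Nb H S v).filter (fun w => H.Adj u w)).card : ℝ)
        ≤ ∑ u ∈ Nb H S v, ((univ.filter (fun w => H.Adj v w ∧ H.Adj u w)).card : ℝ) := by
          apply Finset.sum_le_sum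
          intro u _
          have : (Nb H S v).filter (fun w => H.Adj u w) ⊆
              univ.filter (fun w => H.Adj v w ∧ H.Adj u w) := by
            intro w hw
            rw [mem_filter] at hw
            exact mem_filter.2 ⟨mem_univ _, (mem_filter.1 hw.1).2, hw.2⟩
          exact_mod_cast Finset.card_le_card this
      _ ≤ _ := by
          apply Finset.sum_le_sum_of_subset_of_nonneg hNsub
          intro _ _ _; positivity
  have hbad := bad_sum H hLpos hβ ih hEN
  have hbad2 : ∑ c ∈ Col H q S, ((Bd H S v L c).card : ℝ) ≤ (q / 4) * ((Col H q S).card : ℝ) := by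
    refine le_trans hbad ?_
    apply mul_le_mul_of_nonneg_right _ (by positivity)
    refine le_trans ?_ hnum
    have : 0 ≤ L / β := by positivity
    have := mul_le_mul_of_nonneg_right hNΔ this
    linarith
  -- Markov
  set G := (Col H q S).filter (fun c => ((Bd H S v L c).card : ℝ) ≤ q / 2) with hG
  set G' := (Col H q S).filter (fun c => ¬ ((Bd H S v L c).card : ℝ) ≤ q / 2) with hG'
  have hcardsum : (G.card : ℝ) + (G'.card : ℝ) = ((Col H q S).card : ℝ) := by
    have := Finset.card_filter_add_card_filter_not (s := Col H q S)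
      (fun c => ((Bd H S v L c).card : ℝ) ≤ q / 2)
    exact_mod_cast this
  have hmark : (G'.card : ℝ) * (q / 2) ≤ (q / 4) * ((Col H q S).card : ℝ) := by
    refine le_trans ?_ hbad2
    calc (G'.card : ℝ) * (q / 2) = ∑ c ∈ G', (q : ℝ) / 2 := by
          rw [Finset.sum_const, nsmul_eq_mul]
      _ ≤ ∑ c ∈ G', ((Bd H S v L c).card : ℝ) := by
          apply Finset.sum_le_sum
          intro c hc
          have := (mem_filter.1 hc).2
          push Not at this
          exact this.le
      _ ≤ _ := by
          apply Finset.sum_le_sum_of_subset_of_nonneg (Finset.filter_subset _ _)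
          intro _ _ _; positivity
  have hGhalf : ((Col H q S).card : ℝ) / 2 ≤ (G.card : ℝ) := by
    have h1 : (G'.card : ℝ) ≤ ((Col H q S).card : ℝ) / 2 := by
      have h2 : (G'.card : ℝ) * (q / 2) ≤ ((Col H q S).card : ℝ) / 2 * (q / 2) := by
        calc _ ≤ _ := hmark
          _ = _ := by ring
      exact le_of_mul_le_mul_right h2 (by positivity)
    linarith
  have hgs := good_sum H (q := q) hL Δ hNΔ
  rw [card_Col_insert H hv]
  push_cast
  calc β * ((Col H q S).card : ℝ)
      = (q / 2 * Real.exp (-(8 * Δ / q))) * (((Col H q S).card : ℝ) / 2) := by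
        rw [hβdef]; ring
    _ ≤ (q / 2 * Real.exp (-(8 * Δ / q))) * (G.card : ℝ) := by
        apply mul_le_mul_of_nonneg_left hGhalf
        positivity
    _ ≤ _ := hgs
    _ ≤ _ := by
        apply Finset.sum_le_sum_of_subset_of_nonneg (Finset.filter_subset _ _)
        intro _ _ _; positivity

/-- **Locally sparse graphs** (in the spirit of Johansson, Alon–Krivelevich–Sudakov): if every
degree is at most `Δ`, every neighbourhood spans at most `E` (ordered) edges, and the numeric
condition holds, then `H` is `q`-colourable. -/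
theorem sparse_colorable {V : Type*} [Fintype V] (H : SimpleGraph V) (q : ℕ) (hq : 0 < q)
    (Δ E L : ℝ) (hL : 4 ≤ L)
    (hΔ : ∀ v, ((univ.filter (fun u => H.Adj v u)).card : ℝ) ≤ Δ)
    (hE : ∀ v, ∑ u ∈ univ.filter (fun u => H.Adj v u),
      ((univ.filter (fun w => H.Adj v w ∧ H.Adj u w)).card : ℝ) ≤ E)
    (hnum : Δ * (L / (q / 4 * Real.exp (-(8 * Δ / q)))) + 2 * E / L ≤ q / 4) :
    H.Colorable q := by
  have : NeZero q := ⟨hq.ne'⟩
  have hstep := sparse_step H (q := q) Δ E L hL hΔ hE hnum
  have hβ : 0 < (q / 4 * Real.exp (-(8 * Δ / q)) : ℝ) := by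
    have : (0 : ℝ) < q := by exact_mod_cast hq
    positivity
  have hpos : ∀ S : Finset V, 0 < (Col H q S).card := by
    intro S
    induction S using Finset.induction_on with
    | empty =>
      apply Finset.card_pos.2
      refine ⟨fun _ => 0, ?_⟩
      rw [mem_Col]
      simp
    | insert v S hv ih =>
      have h1 := hstep S.card S rfl v hv
      have h2 : (0 : ℝ) < ((Col H q S).card : ℝ) := by exact_mod_cast ih
      have h3 : (0 : ℝ) < ((Col H q (insert v S)).card : ℝ) := lt_of_lt_of_le (mul_pos hβ h2) h1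
      exact_mod_cast h3
  obtain ⟨c, hc⟩ := Finset.card_pos.1 (hpos univ)
  rw [mem_Col] at hc
  exact ⟨SimpleGraph.Coloring.mk c (fun {a b} hab => hc.2 a (mem_univ _) b (mem_univ _) hab)⟩

end Pool.Agent.H90.DC.Sparse
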