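import Pool.Agent.Lib_helper90.DC.Local2
import Pool.Agent.Lib_helper90.DC.Sparse3

/-! Part C: `χ(G^t) = O(d^t / log d)` if `G` has no `C_ℓ`, `ℓ ≥ 3t` odd. -/

set_option autoImplicit false
set_option linter.unusedSectionVars false

namespace Pool.Agent.H90.DC

open SimpleGraph Finset Filter
open scoped Classical

theorem numeric (a K x X q Lg y E Δ : ℝ) (ha : 1 ≤ a) (hK : 1 ≤ K) (hx : x = y ^ 2)
    (hXx : x ≤ X) (hLg : 1 ≤ Lg) (hy : 4096 * K * a * Lg ^ 3 ≤ y) (hexp : Real.exp (-(Lg / 2)) = 1 / y)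
    (hq1 : 32 * a * X / (2 * Lg) ≤ q)
    (hE : E * x = K * X ^ 2) (hΔ : Δ = a * X) :
    ∃ L : ℝ, 4 ≤ L ∧ Δ * (L / (q / 4 * Real.exp (-(8 * Δ / q)))) + 2 * E / L ≤ q / 4 := by
  have hKa : 1 ≤ K * a := by nlinarith
  have hL3 : 1 ≤ Lg ^ 3 := one_le_pow₀ hLg
  have hypos : 0 < y := by nlinarith
  have hy1 : 1 ≤ y := by nlinarith
  have hxpos : 0 < x := by rw [hx]; positivity
  have hXpos : 0 < X := by linarith
  have hLpos : 0 < Lg := by linarith
  have hapos : 0 < a := by linarith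
  have hqpos : 0 < q := lt_of_lt_of_le (by positivity) hq1
  have hΔpos : 0 < Δ := by rw [hΔ]; positivity
  have hq2 : 16 * a * X ≤ q * Lg := by
    rw [div_le_iff₀ (by positivity)] at hq1
    linarith
  have hexp2 : 1 / y ≤ Real.exp (-(8 * Δ / q)) := by
    rw [← hexp]
    apply Real.exp_le_exp.2
    have : 8 * Δ / q ≤ Lg / 2 := by
      rw [div_le_iff₀ hqpos, hΔ]; linarith
    linarith
  set β := q / 4 * Real.exp (-(8 * Δ / q)) with hβ
  have hβpos : 0 < β := by positivity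
  have hβ1 : q / (4 * y) ≤ β := by
    calc q / (4 * y) = q / 4 * (1 / y) := by field_simp
      _ ≤ β := mul_le_mul_of_nonneg_left hexp2 (by positivity)
  have hβy : q ≤ 4 * y * β := by
    rw [div_le_iff₀ (by positivity)] at hβ1; linarith
  refine ⟨β * q / (8 * Δ), ?_, ?_⟩
  · rw [le_div_iff₀ (by positivity)]
    -- 32 Δ ≤ β q
    -- β q ≥ q²/(4y)
    have h1 : q * q ≤ 4 * y * (β * q) := by nlinarith
    have h2 : (16 * a * X) ^ 2 ≤ q * q * Lg ^ 2 := by
      calc (16 * a * X) ^ 2 ≤ (q * Lg) ^ 2 := pow_le_pow_left₀ (by positivity) hq2 2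
        _ = q * q * Lg ^ 2 := by ring
    have h3 : (16 * a * X) ^ 2 ≤ 4 * y * (β * q) * Lg ^ 2 :=
      le_trans h2 (mul_le_mul_of_nonneg_right h1 (by positivity))
    -- want 4*(8*a*X) ≤ β*q
    have h4 : y * Lg ^ 2 ≤ X * a := by
      have h5 : Lg ^ 2 ≤ Lg ^ 3 := pow_le_pow_right₀ hLg (by norm_num)
      have h6 : Lg ^ 2 ≤ y := by
        have h7 : Lg ^ 3 ≤ K * a * Lg ^ 3 := by
          have := mul_le_mul_of_nonneg_right hKa (by positivity : (0:ℝ) ≤ Lg ^ 3)
          linarith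
        nlinarith
      calc y * Lg ^ 2 ≤ y * y := mul_le_mul_of_nonneg_left h6 hypos.le
        _ = x := by rw [hx]; ring
        _ ≤ X := hXx
        _ ≤ X * a := by nlinarith
    have h8 : (16 * a * X) ^ 2 ≤ 4 * (β * q) * (X * a) := by
      calc (16 * a * X) ^ 2 ≤ 4 * y * (β * q) * Lg ^ 2 := h3
        _ = 4 * (β * q) * (y * Lg ^ 2) := by ring
        _ ≤ 4 * (β * q) * (X * a) := mul_le_mul_of_nonneg_left h4 (by positivity)
    have h9 : 64 * (a * X) ≤ β * q := by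
      have h10 : (a * X) * (64 * (a * X)) ≤ (a * X) * (β * q) := by nlinarith
      exact le_of_mul_le_mul_left h10 (by positivity)
    rw [hΔ]
    nlinarith [mul_pos hapos hXpos]
  · have h1 : Δ * ((β * q / (8 * Δ)) / β) = q / 8 := by
      field_simp
    rw [h1]
    have h2 : 2 * E / (β * q / (8 * Δ)) ≤ q / 8 := by
      rw [div_le_iff₀ (by positivity)]
      have h3 : q / 8 * (β * q / (8 * Δ)) = β * q ^ 2 / (64 * Δ) := by
        field_simp
        ring
      rw [h3, le_div_iff₀ (by positivity)]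
      -- 128 E Δ ≤ β q²
      have h4 : (16 * a * X) ^ 3 ≤ q ^ 3 * Lg ^ 3 := by
        calc (16 * a * X) ^ 3 ≤ (q * Lg) ^ 3 := pow_le_pow_left₀ (by positivity) hq2 3
          _ = q ^ 3 * Lg ^ 3 := by ring
      have h5 : q ^ 3 ≤ 4 * y * (β * q ^ 2) := by
        calc q ^ 3 = q * q ^ 2 := by ring
          _ ≤ 4 * y * β * q ^ 2 := mul_le_mul_of_nonneg_right hβy (by positivity)
          _ = _ := by ring
      have h6 : (16 * a * X) ^ 3 ≤ 4 * (β * q ^ 2) * (y * Lg ^ 3) := by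
        calc (16 * a * X) ^ 3 ≤ q ^ 3 * Lg ^ 3 := h4
          _ ≤ 4 * y * (β * q ^ 2) * Lg ^ 3 := mul_le_mul_of_nonneg_right h5 (by positivity)
          _ = _ := by ring
      have h7 : 4096 * K * a * (y * Lg ^ 3) ≤ x := by
        calc 4096 * K * a * (y * Lg ^ 3) = y * (4096 * K * a * Lg ^ 3) := by ring
          _ ≤ y * y := mul_le_mul_of_nonneg_left hy hypos.le
          _ = x := by rw [hx]; ring
      -- (16aX)^3 * 4096 K a ≤ 4 (β q²) x
      have h8 : (16 * a * X) ^ 3 * (4096 * K * a) ≤ 4 * (β * q ^ 2) * x := by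
        calc (16 * a * X) ^ 3 * (4096 * K * a) ≤ 4 * (β * q ^ 2) * (y * Lg ^ 3) * (4096 * K * a) :=
              mul_le_mul_of_nonneg_right h6 (by positivity)
          _ = 4 * (β * q ^ 2) * (4096 * K * a * (y * Lg ^ 3)) := by ring
          _ ≤ 4 * (β * q ^ 2) * x := mul_le_mul_of_nonneg_left h7 (by positivity)
      -- E Δ x = K a X^3
      have h9 : 2 * E * (64 * Δ) * x = 128 * (K * a * X ^ 3) := by
        rw [hΔ]
        calc 2 * E * (64 * (a * X)) * x = 128 * a * X * (E * x) := by ring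
          _ = 128 * a * X * (K * X ^ 2) := by rw [hE]
          _ = _ := by ring
      have h10 : 2 * E * (64 * Δ) * x ≤ β * q ^ 2 * x := by
        rw [h9]
        have h11 : 128 * (K * a * X ^ 3) ≤ 4096 * 1024 * (K * a * X ^ 3) * 1 := by
          have : 0 < K * a * X ^ 3 := by positivity
          nlinarith
        have h12 : 4096 * 1024 * (K * a * X ^ 3) * 1 ≤ 4096 * 1024 * (K * a * X ^ 3) * a ^ 3 := by
          apply mul_le_mul_of_nonneg_left _ (by positivity)
          exact one_le_pow₀ ha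
        have h13 : 4096 * 1024 * (K * a * X ^ 3) * a ^ 3 * 4 = (16 * a * X) ^ 3 * (4096 * K * a) := by
          ring
        linarith
      exact le_of_mul_le_mul_right h10 hxpos
    linarith

/-- eventually `M (log x)^3 ≤ √x`. -/
theorem eventually_log (M : ℝ) (hM : 0 < M) : ∃ D : ℕ, ∀ d : ℕ, D ≤ d →
    1 ≤ Real.log d ∧ M * Real.log d ^ 3 ≤ Real.sqrt d := by
  have h1 : (fun x : ℝ => Real.log x ^ (3 : ℝ)) =o[atTop] fun x => x ^ (1 / 2 : ℝ) :=
    isLittleO_log_rpow_rpow_atTop 3 (by norm_num)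
  have h2 := h1.bound (c := 1 / M) (by positivity)
  have h3 : ∀ᶠ x : ℝ in atTop, 1 ≤ Real.log x := Real.tendsto_log_atTop.eventually_ge_atTop 1
  have h4 : ∀ᶠ d : ℕ in atTop, 1 ≤ Real.log d ∧ M * Real.log d ^ 3 ≤ Real.sqrt d := by
    have h5 := (tendsto_natCast_atTop_atTop (R := ℝ)).eventually (h2.and h3)
    filter_upwards [h5] with d hd
    obtain ⟨h6, h7⟩ := hd
    refine ⟨h7, ?_⟩
    rw [Real.norm_eq_abs, Real.norm_eq_abs, ← Real.sqrt_eq_rpow,
      abs_of_nonneg (Real.sqrt_nonneg _)] at h6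
    have h8 : Real.log d ^ (3 : ℝ) = Real.log d ^ (3 : ℕ) := by
      rw [← Real.rpow_natCast]; norm_num
    rw [h8, abs_of_nonneg (by positivity)] at h6
    rw [one_div, inv_mul_eq_div, le_div_iff₀ hM] at h6
    linarith
  exact eventually_atTop.1 h4

/-- Part C. -/
theorem partC (s h : ℕ) :
    ∃ C : ℝ, 0 < C ∧ ∃ D : ℕ, ∀ d : ℕ, D ≤ d →
      UpperGood (s + 1) (3 * (s + 1) + 2 * h) d (C * (d : ℝ) ^ (s + 1) / Real.log (d : ℝ)) := by
  set a : ℝ := (s : ℝ) + 2 with ha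
  set K : ℝ := (((3 + 2 * s) * ((s + 1) * (s + 2)) +
    3 ^ (3 * s) * (2 * ((s + 2 + 2 * h) * (s + 2))) : ℕ) : ℝ) with hK
  have ha1 : 1 ≤ a := by rw [ha]; have : (0:ℝ) ≤ s := by positivity
                         linarith
  have hK1 : 1 ≤ K := by
    rw [hK]
    have : 1 ≤ (3 + 2 * s) * ((s + 1) * (s + 2)) + 3 ^ (3 * s) * (2 * ((s + 2 + 2 * h) * (s + 2))) := by
      have : 0 < (3 + 2 * s) * ((s + 1) * (s + 2)) := by positivity
      omega
    exact_mod_cast this
  obtain ⟨D, hD⟩ := eventually_log (4096 * K * a) (by positivity)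
  refine ⟨32 * a, by positivity, max D 1, ?_⟩
  intro d hd n G hG hcyc
  have hd1 : 1 ≤ d := le_trans (le_max_right _ _) hd
  obtain ⟨hLg, hy⟩ := hD d (le_trans (le_max_left _ _) hd)
  have hdpos : (0 : ℝ) < d := by exact_mod_cast hd1
  set X : ℝ := (d : ℝ) ^ (s + 1) with hX
  have hXd : (d : ℝ) ≤ X := by
    rw [hX, pow_succ]
    have : (1 : ℝ) ≤ (d : ℝ) ^ s := one_le_pow₀ (by exact_mod_cast hd1)
    nlinarith
  set q : ℕ := ⌊32 * a * X / Real.log (d : ℝ)⌋₊ with hq
  have hLpos : 0 < Real.log (d : ℝ) := by linarith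
  have hsq : Real.sqrt d ^ 2 = d := Real.sq_sqrt hdpos.le
  have hsqpos : 0 < Real.sqrt d := Real.sqrt_pos.2 hdpos
  have hlogle : Real.log (d : ℝ) ≤ d := by
    have := Real.log_le_sub_one_of_pos hdpos
    linarith
  have hq1 : 32 * a * X / (2 * Real.log d) ≤ (q : ℝ) := by
    have h1 := Nat.lt_floor_add_one (32 * a * X / Real.log (d : ℝ))
    have h2 : 32 * a * X / (2 * Real.log d) = (32 * a * X / Real.log d) / 2 := by
      field_simp
    have h3 : 2 ≤ 32 * a * X / Real.log d := by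
      rw [le_div_iff₀ hLpos]
      nlinarith
    rw [h2]
    have : (32 * a * X / Real.log d) < (q : ℝ) + 1 := h1
    linarith
  have hexp : Real.exp (-(Real.log d / 2)) = 1 / Real.sqrt d := by
    rw [Real.exp_neg, one_div]
    congr 1
    rw [Real.sqrt_eq_rpow, Real.rpow_def_of_pos hdpos]
    congr 1
    ring
  obtain ⟨L, hL4, hnum⟩ := numeric a K d X q (Real.log d) (Real.sqrt d)
    (K * (d : ℝ) ^ (2 * s + 1)) (a * X) ha1 hK1 hsq.symm hXd hLg hy hexp hq1
    (by rw [hX]; ring) rfl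
  have hqpos : 0 < q := by
    have : (0 : ℝ) < q := lt_of_lt_of_le (by positivity) hq1
    exact_mod_cast this
  show (Pw G (s + 1)).Colorable q
  apply Sparse.sparse_colorable (Pw G (s + 1)) q hqpos (a * X) (K * (d : ℝ) ^ (2 * s + 1)) L hL4
  · intro v
    have h1 := pw_nbr_card_lt hd1 hG (s + 1) v
    have h2 : ((univ.filter (fun u => (Pw G (s + 1)).Adj v u)).card : ℝ) ≤
        (((s + 1 + 1) * d ^ (s + 1) : ℕ) : ℝ) := by exact_mod_cast h1.le
    refine le_trans h2 ?_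
    rw [hX, ha]
    push_cast
    apply le_of_eq
    ring
  · intro v
    have h1 := local_sparse hd1 hG hcyc v
    have h2 : ((∑ u ∈ univ.filter (fun u => (Pw G (s + 1)).Adj v u),
      (univ.filter (fun w => (Pw G (s + 1)).Adj v w ∧ (Pw G (s + 1)).Adj u w)).card : ℕ) : ℝ) ≤
      ((((3 + 2 * s) * ((s + 1) * (s + 2)) + 3 ^ (3 * s) * (2 * ((s + 2 + 2 * h) * (s + 2)))) *
      d ^ (2 * s + 1) : ℕ) : ℝ) := by exact_mod_cast h1
    rw [Nat.cast_sum, Nat.cast_mul] at h2
    rw [hK]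
    refine le_trans (le_of_eq ?_) (le_trans h2 (le_of_eq ?_))
    · apply Finset.sum_congr
      · ext; simp
      · intro u _; congr!
    · push_cast; ring
  · exact hnum

end Pool.Agent.H90.DC
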