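import Pool.Agent.Lib_helper90.DC.Defs

/-! minimal odd closed walks are injective. -/

set_option autoImplicit false

namespace Pool.Agent.H90.DC

open SimpleGraph Finset
open scoped Classical

variable {V : Type*} {G : SimpleGraph V}

/-- If there is an odd closed walk of length `< g`, there is an injective cyclic sequence of odd
length `m`, `3 ≤ m < g`. -/
theorem exists_cyc_of_odd {g : ℕ} (h : ∃ v, ∃ p : G.Walk v v, Odd p.length ∧ p.length < g) :
    ∃ m, 3 ≤ m ∧ m < g ∧ ∃ f : ℕ → V, (∀ i, i < m → G.Adj (f i) (f (i + 1))) ∧ f m = f 0 ∧
      ∀ i j, i < m → j < m → f i = f j → i = j := by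
  have hex : ∃ m, ∃ v, ∃ p : G.Walk v v, Odd p.length ∧ p.length = m := by
    obtain ⟨v, p, hp, _⟩ := h
    exact ⟨_, v, p, hp, rfl⟩
  set m := Nat.find hex with hm
  obtain ⟨v, p, hodd, hlen⟩ := Nat.find_spec hex
  have hmin : ∀ w, ∀ q : G.Walk w w, Odd q.length → m ≤ q.length := by
    intro w q hq
    exact Nat.find_min' hex ⟨w, q, hq, rfl⟩
  have hmg : m < g := by
    obtain ⟨w, q, hq, hqg⟩ := h
    exact lt_of_le_of_lt (hmin w q hq) hqg
  rw [← hm] at hlen
  have hm3 : 3 ≤ m := by
    obtain ⟨k, hk⟩ := hodd
    rcases Nat.eq_zero_or_pos k with h0 | h0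
    · exfalso
      have h1 : p.length = 1 := by omega
      have h2 := p.adj_getVert_succ (i := 0) (by omega)
      rw [Walk.getVert_zero] at h2
      have h3 : p.getVert (0 + 1) = v := by
        have := Walk.getVert_length p
        rw [h1] at this
        exact this
      rw [h3] at h2
      exact G.loopless.irrefl v h2
    · omega
  refine ⟨m, hm3, hmg, p.getVert, ?_, ?_, ?_⟩
  · intro i hi
    exact p.adj_getVert_succ (by omega)
  · rw [← hlen, Walk.getVert_length, Walk.getVert_zero]
  · have key : ∀ i j, i < j → j < m → p.getVert i ≠ p.getVert j := by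
      intro i j hij hj heq
      -- inner closed walk
      have e1 : (p.drop i).getVert (j - i) = p.getVert i := by
        rw [Walk.drop_getVert, heq]; congr 1; omega
      let c := ((p.drop i).take (j - i)).copy rfl e1
      have hc : c.length = j - i := by
        rw [Walk.length_copy, Walk.take_length, Walk.drop_length]
        omega
      let o := (p.take i).append ((p.drop j).copy heq.symm rfl)
      have ho : o.length = i + (m - j) := by
        rw [Walk.length_append, Walk.length_copy, Walk.take_length, Walk.drop_length]
        omega
      obtain ⟨k, hk⟩ := hodd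
      rcases Nat.even_or_odd (j - i) with he | ho'
      · have h1 : Odd o.length := by
          rw [ho]
          obtain ⟨r, hr⟩ := he
          exact ⟨k - r, by omega⟩
        have := hmin _ o h1
        omega
      · have h1 : Odd c.length := by rw [hc]; exact ho'
        have := hmin _ c h1
        omega
    intro i j hi hj heq
    rcases lt_trichotomy i j with h1 | h1 | h1
    · exact absurd heq (key i j h1 hj)
    · exact h1
    · exact absurd heq.symm (key j i h1 hi)

end Pool.Agent.H90.DC
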