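import Pool.Agent.Lib_helper90.DC.Base1

/-! Counting in the random graph model: labels `ω : Fin N × Fin N → Fin M`. -/

set_option autoImplicit false
set_option linter.unusedSectionVars false

namespace Pool.Agent.H90.DC

open SimpleGraph Finset
open scoped Classical

theorem count_mem {E : Type*} [Fintype E] [DecidableEq E] {M : ℕ} (hM : 0 < M) (T : Finset E) (A : Finset (Fin M)) :
    ((univ.filter (fun ω : E → Fin M => ∀ e ∈ T, ω e ∈ A)).card : ℝ) =
      ((A.card : ℝ) / M) ^ T.card * (M : ℝ) ^ Fintype.card E := by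
  have h1 : univ.filter (fun ω : E → Fin M => ∀ e ∈ T, ω e ∈ A) =
      Fintype.piFinset (fun e => if e ∈ T then A else univ) := by
    ext ω
    rw [mem_filter, Fintype.mem_piFinset]
    constructor
    · rintro ⟨_, h⟩ e
      split_ifs with he
      · exact h e he
      · exact mem_univ _
    · intro h
      refine ⟨mem_univ _, fun e he => ?_⟩
      have := h e
      rwa [if_pos he] at this
  rw [h1, Fintype.card_piFinset]
  have h2 : ∀ e : E, (if e ∈ T then A else (univ : Finset (Fin M))).card =
      if e ∈ T then A.card else M := by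
    intro e; split_ifs <;> simp
  simp only [h2]
  rw [Finset.prod_ite]
  simp only [prod_const]
  have h3 : (univ.filter (fun e => e ∈ T)).card = T.card := by
    congr 1; ext; simp
  have h4 : (univ.filter (fun e => e ∉ T)).card = Fintype.card E - T.card := by
    have := Finset.card_filter_add_card_filter_not (s := (univ : Finset E)) (fun e => e ∈ T)
    rw [Finset.card_univ, h3] at this
    omega
  rw [h3, h4]
  have h5 : T.card ≤ Fintype.card E := Finset.card_le_univ T
  have hM' : (M : ℝ) ≠ 0 := by exact_mod_cast hM.ne'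
  push_cast
  rw [div_pow, div_mul_eq_mul_div, eq_div_iff (pow_ne_zero _ hM'), mul_assoc, ← pow_add]
  congr 2
  omega

variable {N M : ℕ} [NeZero M]

/-- the graph of a labelling. -/
def Gr (ω : Fin N × Fin N → Fin M) : SimpleGraph (Fin N) :=
  SimpleGraph.fromRel (fun u v => ω (u, v) = 0)

theorem Gr_adj (ω : Fin N × Fin N → Fin M) (u v : Fin N) :
    (Gr ω).Adj u v ↔ u ≠ v ∧ (ω (u, v) = 0 ∨ ω (v, u) = 0) := by
  unfold Gr; rw [SimpleGraph.fromRel_adj]

theorem Mpos : 0 < M := Nat.pos_of_ne_zero (NeZero.ne M)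

theorem card_labels : Fintype.card (Fin N × Fin N → Fin M) = M ^ Fintype.card (Fin N × Fin N) := by
  rw [Fintype.card_fun, Fintype.card_fin]

theorem count_zero (T : Finset (Fin N × Fin N)) :
    ((univ.filter (fun ω : Fin N × Fin N → Fin M => ∀ e ∈ T, ω e = 0)).card : ℝ) =
      (1 / (M : ℝ)) ^ T.card * (M : ℝ) ^ Fintype.card (Fin N × Fin N) := by
  have := count_mem (M := M) Mpos T {0}
  simpa using this

theorem count_nonzero (T : Finset (Fin N × Fin N)) :
    ((univ.filter (fun ω : Fin N × Fin N → Fin M => ∀ e ∈ T, ω e ≠ 0)).card : ℝ) ≤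
      Real.exp (-(T.card / (M : ℝ))) * (M : ℝ) ^ Fintype.card (Fin N × Fin N) := by
  have h := count_mem (M := M) Mpos T (univ.erase 0)
  have hM : (0 : ℝ) < M := by exact_mod_cast (Mpos : 0 < M)
  have e1 : (univ.filter (fun ω : Fin N × Fin N → Fin M => ∀ e ∈ T, ω e ≠ 0)) =
      univ.filter (fun ω : Fin N × Fin N → Fin M => ∀ e ∈ T, ω e ∈ univ.erase 0) := by
    apply Finset.filter_congr
    intro ω _
    simp
  rw [e1, h]
  apply mul_le_mul_of_nonneg_right _ (by positivity)
  have h2 : (((univ : Finset (Fin M)).erase 0).card : ℝ) / M = 1 - 1 / M := by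
    rw [Finset.card_erase_of_mem (mem_univ _), Finset.card_univ, Fintype.card_fin,
      Nat.cast_sub (Mpos : 0 < M)]
    field_simp
    simp
  rw [h2]
  have h3 : 0 ≤ 1 - 1 / (M : ℝ) := by
    have : (1 : ℝ) ≤ M := by exact_mod_cast (Mpos : 0 < M)
    rw [sub_nonneg, div_le_one hM]; exact this
  have h4 : 1 - 1 / (M : ℝ) ≤ Real.exp (-(1 / M)) := Real.one_sub_le_exp_neg _
  calc (1 - 1 / (M : ℝ)) ^ T.card ≤ Real.exp (-(1 / M)) ^ T.card := pow_le_pow_left₀ h3 h4 _
    _ = Real.exp (-(T.card / (M : ℝ))) := by
        rw [← Real.exp_nat_mul]; congr 1; ring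

/-- expected number of independent sets of size `s`. -/
theorem count_indep (s : ℕ) :
    (∑ ω : Fin N × Fin N → Fin M,
      ((((univ : Finset (Fin N)).powersetCard s).filter
        (fun S => ∀ u ∈ S, ∀ v ∈ S, ¬ (Gr ω).Adj u v)).card : ℝ)) ≤
    (N.choose s : ℝ) * Real.exp (-((s * s - s : ℝ) / M)) * (M : ℝ) ^ Fintype.card (Fin N × Fin N) := by
  have h1 : ∑ ω : Fin N × Fin N → Fin M,
      (((univ : Finset (Fin N)).powersetCard s).filter
        (fun S => ∀ u ∈ S, ∀ v ∈ S, ¬ (Gr ω).Adj u v)).card =
      ∑ S ∈ (univ : Finset (Fin N)).powersetCard s,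
        (univ.filter (fun ω : Fin N × Fin N → Fin M => ∀ u ∈ S, ∀ v ∈ S, ¬ (Gr ω).Adj u v)).card := by
    simp only [Finset.card_filter]
    exact Finset.sum_comm
  have h1' : (∑ ω : Fin N × Fin N → Fin M,
      ((((univ : Finset (Fin N)).powersetCard s).filter
        (fun S => ∀ u ∈ S, ∀ v ∈ S, ¬ (Gr ω).Adj u v)).card : ℝ)) =
      ∑ S ∈ (univ : Finset (Fin N)).powersetCard s,
        ((univ.filter (fun ω : Fin N × Fin N → Fin M =>
          ∀ u ∈ S, ∀ v ∈ S, ¬ (Gr ω).Adj u v)).card : ℝ) := by exact_mod_cast h1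
  rw [h1']
  calc _ ≤ ∑ S ∈ (univ : Finset (Fin N)).powersetCard s,
        Real.exp (-((s * s - s : ℝ) / M)) * (M : ℝ) ^ Fintype.card (Fin N × Fin N) := by
        apply Finset.sum_le_sum
        intro S hS
        rw [mem_powersetCard] at hS
        set T : Finset (Fin N × Fin N) := S.offDiag with hT
        have hTc : (T.card : ℝ) = s * s - s := by
          rw [hT, Finset.offDiag_card, hS.2, Nat.cast_sub (Nat.le_mul_self s)]
          push_cast; ring
        have h2 := count_nonzero (N := N) (M := M) T
        rw [hTc] at h2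
        refine le_trans ?_ h2
        have h3 : univ.filter (fun ω : Fin N × Fin N → Fin M =>
          ∀ u ∈ S, ∀ v ∈ S, ¬ (Gr ω).Adj u v) ⊆
          univ.filter (fun ω : Fin N × Fin N → Fin M => ∀ e ∈ T, ω e ≠ 0) := by
          intro ω hω
          rw [mem_filter] at hω ⊢
          refine ⟨mem_univ _, ?_⟩
          intro e he h0
          rw [hT, mem_offDiag] at he
          apply hω.2 e.1 he.1 e.2 he.2.1
          rw [Gr_adj]
          exact ⟨he.2.2, Or.inl h0⟩
        exact_mod_cast Finset.card_le_card h3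
    _ = _ := by
        rw [Finset.sum_const, Finset.card_powersetCard, Finset.card_univ, Fintype.card_fin,
          nsmul_eq_mul]
        ring

/-- expected number of vertices with out-degree at least `k`. -/
theorem count_out (k : ℕ) :
    (∑ ω : Fin N × Fin N → Fin M,
      ((univ.filter (fun v : Fin N => k ≤ (univ.filter (fun u => ω (v, u) = 0)).card)).card : ℝ)) ≤
    (N : ℝ) * ((N : ℝ) ^ k / (k.factorial : ℝ) * (1 / (M : ℝ)) ^ k) *
      (M : ℝ) ^ Fintype.card (Fin N × Fin N) := by
  have h1 : ∑ ω : Fin N × Fin N → Fin M,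
      (univ.filter (fun v : Fin N => k ≤ (univ.filter (fun u => ω (v, u) = 0)).card)).card =
      ∑ v : Fin N, (univ.filter (fun ω : Fin N × Fin N → Fin M =>
        k ≤ (univ.filter (fun u => ω (v, u) = 0)).card)).card := by
    simp only [Finset.card_filter]
    exact Finset.sum_comm
  have h1' : (∑ ω : Fin N × Fin N → Fin M,
      ((univ.filter (fun v : Fin N => k ≤ (univ.filter (fun u => ω (v, u) = 0)).card)).card : ℝ)) =
      ∑ v : Fin N, ((univ.filter (fun ω : Fin N × Fin N → Fin M =>
        k ≤ (univ.filter (fun u => ω (v, u) = 0)).card)).card : ℝ) := by exact_mod_cast h1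
  rw [h1']
  calc _ ≤ ∑ v : Fin N, ((N : ℝ) ^ k / (k.factorial : ℝ) * (1 / (M : ℝ)) ^ k) *
      (M : ℝ) ^ Fintype.card (Fin N × Fin N) := by
        apply Finset.sum_le_sum
        intro v _
        have h2 : univ.filter (fun ω : Fin N × Fin N → Fin M =>
            k ≤ (univ.filter (fun u => ω (v, u) = 0)).card) ⊆
            ((univ : Finset (Fin N)).powersetCard k).biUnion (fun U =>
              univ.filter (fun ω : Fin N × Fin N → Fin M => ∀ e ∈ U.image (fun u => (v, u)), ω e = 0)) := by
          intro ω hω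
          rw [mem_filter] at hω
          obtain ⟨U, hU, hUc⟩ := Finset.exists_subset_card_eq hω.2
          rw [mem_biUnion]
          refine ⟨U, ?_, ?_⟩
          · rw [mem_powersetCard]; exact ⟨Finset.subset_univ _, hUc⟩
          · rw [mem_filter]
            refine ⟨mem_univ _, ?_⟩
            intro e he
            rw [mem_image] at he
            obtain ⟨u, hu, rfl⟩ := he
            exact (mem_filter.1 (hU hu)).2
        have h3 : ((univ.filter (fun ω : Fin N × Fin N → Fin M =>
            k ≤ (univ.filter (fun u => ω (v, u) = 0)).card)).card : ℝ) ≤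
            ∑ U ∈ (univ : Finset (Fin N)).powersetCard k,
              ((univ.filter (fun ω : Fin N × Fin N → Fin M =>
                ∀ e ∈ U.image (fun u => (v, u)), ω e = 0)).card : ℝ) := by
          exact_mod_cast (Finset.card_le_card h2).trans Finset.card_biUnion_le
        refine le_trans h3 ?_
        have h4 : ∀ U ∈ (univ : Finset (Fin N)).powersetCard k,
            ((univ.filter (fun ω : Fin N × Fin N → Fin M =>
                ∀ e ∈ U.image (fun u => (v, u)), ω e = 0)).card : ℝ) =
            (1 / (M : ℝ)) ^ k * (M : ℝ) ^ Fintype.card (Fin N × Fin N) := by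
          intro U hU
          rw [count_zero, Finset.card_image_of_injective, (mem_powersetCard.1 hU).2]
          intro a b hab
          simpa using hab
        rw [Finset.sum_congr rfl h4, Finset.sum_const, Finset.card_powersetCard, Finset.card_univ,
          Fintype.card_fin, nsmul_eq_mul]
        rw [mul_assoc ((N : ℝ) ^ k / (k.factorial : ℝ))]
        apply mul_le_mul_of_nonneg_right _ (by positivity)
        exact Nat.choose_le_pow_div k N
    _ = _ := by
        rw [Finset.sum_const, Finset.card_univ, Fintype.card_fin, nsmul_eq_mul]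
        ring

/-- expected number of vertices with in-degree at least `k`. -/
theorem count_in (k : ℕ) :
    (∑ ω : Fin N × Fin N → Fin M,
      ((univ.filter (fun v : Fin N => k ≤ (univ.filter (fun u => ω (u, v) = 0)).card)).card : ℝ)) ≤
    (N : ℝ) * ((N : ℝ) ^ k / (k.factorial : ℝ) * (1 / (M : ℝ)) ^ k) *
      (M : ℝ) ^ Fintype.card (Fin N × Fin N) := by
  refine le_trans (le_of_eq ?_) (count_out (N := N) (M := M) k)
  let Ψ : (Fin N × Fin N → Fin M) ≃ (Fin N × Fin N → Fin M) :=
    (Equiv.prodComm (Fin N) (Fin N)).arrowCongr (Equiv.refl _)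
  apply Fintype.sum_equiv Ψ
  intro ω
  rfl

end Pool.Agent.H90.DC
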