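import Pool.Agent.Lib_helper90.DC.Base2

/-! The base graph: sparse, large odd girth, small independence number. -/

set_option autoImplicit false
set_option linter.unusedSectionVars false

namespace Pool.Agent.H90.DC

open SimpleGraph Finset
open scoped Classical

variable {N M : ℕ} [NeZero M]

theorem sum_deg (k : ℕ) (hk : 0 < k) :
    (∑ ω : Fin N × Fin N → Fin M,
      ((univ.filter (fun v : Fin N => k ≤ (univ.filter (fun u => ω (v, u) = 0)).card)).card : ℝ)) ≤
    (N : ℝ) * ((N : ℝ) / M) / k * (M : ℝ) ^ Fintype.card (Fin N × Fin N) := by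
  have hk' : (0 : ℝ) < k := by exact_mod_cast hk
  have h1 : ∀ ω : Fin N × Fin N → Fin M,
      ((univ.filter (fun v : Fin N => k ≤ (univ.filter (fun u => ω (v, u) = 0)).card)).card : ℝ) ≤
      (∑ v : Fin N, ∑ u : Fin N, (if ω (v, u) = 0 then (1 : ℝ) else 0)) / k := by
    intro ω
    rw [le_div_iff₀ hk']
    have h2 : (univ.filter (fun v : Fin N => k ≤ (univ.filter (fun u => ω (v, u) = 0)).card)).card * k ≤
        ∑ v : Fin N, (univ.filter (fun u => ω (v, u) = 0)).card := by
      calc _ = ∑ v ∈ univ.filter (fun v : Fin N => k ≤ (univ.filter (fun u => ω (v, u) = 0)).card), k := by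
            rw [Finset.sum_const, smul_eq_mul]
        _ ≤ ∑ v ∈ univ.filter (fun v : Fin N => k ≤ (univ.filter (fun u => ω (v, u) = 0)).card),
            (univ.filter (fun u => ω (v, u) = 0)).card :=
            Finset.sum_le_sum (fun v hv => (mem_filter.1 hv).2)
        _ ≤ _ := Finset.sum_le_sum_of_subset (Finset.filter_subset _ _)
    have h3 : (((univ.filter (fun v : Fin N =>
        k ≤ (univ.filter (fun u => ω (v, u) = 0)).card)).card * k : ℕ) : ℝ) ≤
        ((∑ v : Fin N, (univ.filter (fun u => ω (v, u) = 0)).card : ℕ) : ℝ) := by exact_mod_cast h2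
    push_cast at h3
    refine le_trans h3 (le_of_eq ?_)
    apply Finset.sum_congr rfl
    intro v _
    rw [Finset.card_filter]
    push_cast
    rfl
  calc _ ≤ ∑ ω : Fin N × Fin N → Fin M,
        (∑ v : Fin N, ∑ u : Fin N, (if ω (v, u) = 0 then (1 : ℝ) else 0)) / k :=
        Finset.sum_le_sum (fun ω _ => h1 ω)
    _ = (∑ v : Fin N, ∑ u : Fin N, ∑ ω : Fin N × Fin N → Fin M,
          (if ω (v, u) = 0 then (1 : ℝ) else 0)) / k := by
        rw [← Finset.sum_div, Finset.sum_comm]
        congr 1
        apply Finset.sum_congr rfl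
        intro v _
        rw [Finset.sum_comm]
    _ = (∑ v : Fin N, ∑ u : Fin N, (1 / (M : ℝ)) * (M : ℝ) ^ Fintype.card (Fin N × Fin N)) / k := by
        congr 1
        apply Finset.sum_congr rfl
        intro v _
        apply Finset.sum_congr rfl
        intro u _
        have h4 := count_zero (N := N) (M := M) {(v, u)}
        rw [Finset.card_singleton, pow_one, Finset.card_filter] at h4
        push_cast at h4
        rw [← h4]
        apply Finset.sum_congr rfl
        intro ω _
        simp
    _ = _ := by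
        simp only [Finset.sum_const, Finset.card_univ, Fintype.card_fin, nsmul_eq_mul]
        ring

theorem sum_deg' (k : ℕ) (hk : 0 < k) :
    (∑ ω : Fin N × Fin N → Fin M,
      ((univ.filter (fun v : Fin N => k ≤ (univ.filter (fun u => ω (u, v) = 0)).card)).card : ℝ)) ≤
    (N : ℝ) * ((N : ℝ) / M) / k * (M : ℝ) ^ Fintype.card (Fin N × Fin N) := by
  refine le_trans (le_of_eq ?_) (sum_deg (N := N) (M := M) k hk)
  let Ψ : (Fin N × Fin N → Fin M) ≃ (Fin N × Fin N → Fin M) :=
    (Equiv.prodComm (Fin N) (Fin N)).arrowCongr (Equiv.refl _)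
  apply Fintype.sum_equiv Ψ
  intro ω
  rfl

/-- cyclic successor. -/
def nx {m : ℕ} (i : Fin m) : Fin m :=
  if h : i.val + 1 < m then ⟨i.val + 1, h⟩ else ⟨0, by have := i.isLt; omega⟩

theorem nx_nx_ne {m : ℕ} (hm : 3 ≤ m) (i : Fin m) : nx (nx i) ≠ i := by
  intro h
  have h1 := congrArg Fin.val h
  have hi := i.isLt
  unfold nx at h1
  by_cases h2 : i.val + 1 < m
  · rw [dif_pos h2] at h1
    by_cases h3 : i.val + 1 + 1 < m
    · rw [dif_pos (show (⟨i.val + 1, h2⟩ : Fin m).val + 1 < m from h3)] at h1
      simp only at h1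
      omega
    · rw [dif_neg (show ¬ (⟨i.val + 1, h2⟩ : Fin m).val + 1 < m from h3)] at h1
      simp only at h1
      omega
  · rw [dif_neg h2] at h1
    rw [dif_pos (show (⟨0, by omega⟩ : Fin m).val + 1 < m by simp; omega)] at h1
    simp only at h1
    omega

/-- the labelled pair of the `i`-th edge. -/
def edg {m : ℕ} (f : Fin m → Fin N) (δ : Fin m → Bool) (i : Fin m) : Fin N × Fin N :=
  if δ i then (f i, f (nx i)) else (f (nx i), f i)

theorem edg_inj {m : ℕ} (hm : 3 ≤ m) (f : Fin m → Fin N) (hf : Function.Injective f)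
    (δ : Fin m → Bool) : Function.Injective (edg f δ) := by
  intro i j h
  unfold edg at h
  by_cases hi : δ i <;> by_cases hj : δ j
  · rw [if_pos hi, if_pos hj, Prod.mk.injEq] at h
    exact hf h.1
  · rw [if_pos hi, if_neg hj, Prod.mk.injEq] at h
    have h1 := hf h.1
    have h2 := hf h.2
    rw [← h2] at h1
    exact absurd h1.symm (nx_nx_ne hm i)
  · rw [if_neg hi, if_pos hj, Prod.mk.injEq] at h
    have h1 := hf h.1
    have h2 := hf h.2
    rw [← h1] at h2
    exact absurd h2.symm (nx_nx_ne hm i)
  · rw [if_neg hi, if_neg hj, Prod.mk.injEq] at h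
    exact hf h.2

/-- cyclic sequences present in `ω`. -/
noncomputable def cycs (ω : Fin N × Fin N → Fin M) (m : ℕ) : Finset ((Fin m → Fin N) × (Fin m → Bool)) :=
  univ.filter (fun p => Function.Injective p.1 ∧ ∀ e ∈ univ.image (edg p.1 p.2), ω e = 0)

theorem sum_cycs (m : ℕ) (hm : 3 ≤ m) :
    (∑ ω : Fin N × Fin N → Fin M, ((cycs ω m).card : ℝ)) ≤
      (2 * ((N : ℝ) / M)) ^ m * (M : ℝ) ^ Fintype.card (Fin N × Fin N) := by
  have h1 : ∀ ω : Fin N × Fin N → Fin M, ((cycs ω m).card : ℝ) =
      ∑ p : (Fin m → Fin N) × (Fin m → Bool),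
        (if Function.Injective p.1 ∧ ∀ e ∈ univ.image (edg p.1 p.2), ω e = 0 then (1 : ℝ) else 0) := by
    intro ω
    unfold cycs
    rw [Finset.card_filter]
    push_cast
    rfl
  simp only [h1]
  rw [Finset.sum_comm]
  calc _ ≤ ∑ p : (Fin m → Fin N) × (Fin m → Bool),
        (1 / (M : ℝ)) ^ m * (M : ℝ) ^ Fintype.card (Fin N × Fin N) := by
        apply Finset.sum_le_sum
        intro p _
        by_cases hp : Function.Injective p.1
        · have h2 := count_zero (N := N) (M := M) (univ.image (edg p.1 p.2))
          rw [Finset.card_image_of_injective _ (edg_inj hm p.1 hp p.2), Finset.card_univ,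
            Fintype.card_fin, Finset.card_filter] at h2
          push_cast at h2
          rw [← h2]
          apply Finset.sum_le_sum
          intro ω _
          split_ifs with ha hb hb
          · exact le_rfl
          · exact absurd ha.2 hb
          · norm_num
          · exact le_rfl
        · have : ∀ ω : Fin N × Fin N → Fin M, (if Function.Injective p.1 ∧
            ∀ e ∈ univ.image (edg p.1 p.2), ω e = 0 then (1 : ℝ) else 0) = 0 := by
            intro ω
            rw [if_neg (fun h => hp h.1)]
          simp only [this, Finset.sum_const_zero]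
          positivity
    _ = _ := by
        rw [Finset.sum_const, Finset.card_univ, Fintype.card_prod, Fintype.card_fun,
          Fintype.card_fun, Fintype.card_fin, Fintype.card_fin, Fintype.card_bool, nsmul_eq_mul]
        push_cast
        rw [mul_pow, div_pow, div_pow, one_pow]
        ring

end Pool.Agent.H90.DC
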