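import Pool.Agent.Lib_helper90.DC.Base3

/-! The base graph: sparse, large odd girth, small independence number. -/

set_option autoImplicit false
set_option linter.unusedSectionVars false

namespace Pool.Agent.H90.DC

open SimpleGraph Finset
open scoped Classical

theorem choose_bound (N s : ℕ) (lam : ℝ) (h : Real.exp 1 * N ≤ lam * s) :
    (N.choose s : ℝ) ≤ lam ^ s := by
  rcases Nat.eq_zero_or_pos s with hs | hs
  · subst hs; simp
  have hs' : (0 : ℝ) < s := by exact_mod_cast hs
  have h1 : (N.choose s : ℝ) ≤ (N : ℝ) ^ s / (s.factorial : ℝ) := Nat.choose_le_pow_div s N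
  have h2 : (s : ℝ) ^ s / (s.factorial : ℝ) ≤ Real.exp s :=
    Real.pow_div_factorial_le_exp (s : ℝ) hs'.le s
  have h3 : (N : ℝ) ^ s / (s.factorial : ℝ) = ((N : ℝ) / s) ^ s * ((s : ℝ) ^ s / (s.factorial : ℝ)) := by
    rw [div_pow]
    field_simp
  have h4 : Real.exp (s : ℝ) = Real.exp 1 ^ s := by
    rw [← Real.exp_nat_mul]; simp
  calc (N.choose s : ℝ) ≤ ((N : ℝ) / s) ^ s * ((s : ℝ) ^ s / (s.factorial : ℝ)) := by
        rw [← h3]; exact h1
    _ ≤ ((N : ℝ) / s) ^ s * Real.exp 1 ^ s := by
        apply mul_le_mul_of_nonneg_left _ (by positivity)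
        rw [← h4]; exact h2
    _ = ((N : ℝ) / s * Real.exp 1) ^ s := by rw [mul_pow]
    _ ≤ lam ^ s := by
        apply pow_le_pow_left₀ (by positivity)
        rw [div_mul_eq_mul_div, div_le_iff₀ hs']
        linarith

/-- The base graph. -/
theorem base (g : ℕ) : ∃ C : ℝ, 0 < C ∧ ∃ D : ℕ, ∀ b : ℕ, D ≤ b →
    ∃ N : ℕ, 0 < N ∧ ∃ H : SimpleGraph (Fin N),
      (∀ v, (H.neighborSet v).ncard ≤ b) ∧
      (∀ v, ∀ p : H.Walk v v, Odd p.length → g ≤ p.length) ∧
      (∀ S : Finset (Fin N), (∀ u ∈ S, ∀ v ∈ S, ¬ H.Adj u v) →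
        (S.card : ℝ) ≤ C * N * Real.log b / b) := by
  refine ⟨768, by norm_num, 32 * 3, ?_⟩
  intro b hb
  set l : ℕ := b / 32 with hl
  have hl3 : 3 ≤ l := by omega
  have hlb : 32 * l ≤ b := by omega
  have hlb2 : b ≤ 64 * l := by omega
  have hlR : (3 : ℝ) ≤ l := by exact_mod_cast hl3
  have hlpos : (0 : ℝ) < l := by linarith
  have hlog1 : 1 ≤ Real.log l := by
    rw [Real.le_log_iff_exp_le hlpos]
    have := Real.exp_one_lt_d9
    linarith
  set M : ℕ := 8 * g * (2 * l) ^ g + 1 with hM
  have : NeZero M := ⟨by omega⟩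
  have hMpos : (0 : ℝ) < M := by rw [hM]; positivity
  have hM1 : (1 : ℝ) ≤ M := by rw [hM]; push_cast; have : (0:ℝ) ≤ 8 * g * (2 * l) ^ g := by positivity
                               linarith
  set N : ℕ := l * M with hN
  have hNM : (N : ℝ) / M = l := by rw [hN]; push_cast; field_simp
  have hNpos : (0 : ℝ) < N := by rw [hN]; push_cast; positivity
  set s : ℕ := ⌈4 * M * Real.log l⌉₊ + 1 with hs
  have hs1 : 4 * M * Real.log l ≤ (s : ℝ) - 1 := by
    rw [hs]; push_cast
    have := Nat.le_ceil (4 * M * Real.log l)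
    linarith
  have hs2 : (s : ℝ) ≤ 6 * M * Real.log l := by
    rw [hs]; push_cast
    have h1 := Nat.ceil_lt_add_one (show 0 ≤ 4 * (M : ℝ) * Real.log l by positivity)
    have h2 : 1 ≤ M * Real.log l := by nlinarith
    linarith
  have hspos : (1 : ℝ) ≤ s := by rw [hs]; push_cast; have : (0:ℝ) ≤ (⌈4 * M * Real.log l⌉₊ : ℝ) := by positivity
                                 linarith
  set Ω : ℝ := (M : ℝ) ^ Fintype.card (Fin N × Fin N) with hΩ
  have hΩpos : 0 < Ω := by rw [hΩ]; positivity
  -- expectations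
  have hk : 0 < 16 * l := by omega
  have E1 := sum_deg (N := N) (M := M) (16 * l) hk
  have E2 := sum_deg' (N := N) (M := M) (16 * l) hk
  have hE12 : (N : ℝ) * ((N : ℝ) / M) / (16 * l : ℕ) = N / 16 := by
    rw [hNM]; push_cast; field_simp
  rw [hE12] at E1 E2
  have E3 : (∑ ω : Fin N × Fin N → Fin M, ∑ m ∈ Finset.Ico 3 g, ((cycs ω m).card : ℝ)) ≤
      (N / 8) * Ω := by
    rw [Finset.sum_comm]
    calc _ ≤ ∑ m ∈ Finset.Ico 3 g, (2 * (l : ℝ)) ^ g * Ω := by
          apply Finset.sum_le_sum
          intro m hm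
          rw [Finset.mem_Ico] at hm
          have := sum_cycs (N := N) (M := M) m hm.1
          rw [hNM] at this
          refine le_trans this ?_
          apply mul_le_mul_of_nonneg_right _ hΩpos.le
          exact pow_le_pow_right₀ (by linarith) (by omega)
      _ = ((Finset.Ico 3 g).card : ℝ) * ((2 * (l : ℝ)) ^ g * Ω) := by
          rw [Finset.sum_const, nsmul_eq_mul]
      _ ≤ (g : ℝ) * ((2 * (l : ℝ)) ^ g * Ω) := by
          apply mul_le_mul_of_nonneg_right _ (by positivity)
          rw [Nat.card_Ico]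
          exact_mod_cast Nat.sub_le _ _
      _ ≤ (N / 8) * Ω := by
          rw [← mul_assoc]
          apply mul_le_mul_of_nonneg_right _ hΩpos.le
          rw [hN, hM]
          push_cast
          have h1 : (0 : ℝ) ≤ g * (2 * l) ^ g := by positivity
          nlinarith
  have E4 : (∑ ω : Fin N × Fin N → Fin M,
      ((((univ : Finset (Fin N)).powersetCard s).filter
        (fun S => ∀ u ∈ S, ∀ v ∈ S, ¬ (Gr ω).Adj u v)).card : ℝ)) ≤ (1 / 4) * Ω := by
    refine le_trans (count_indep (N := N) (M := M) s) ?_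
    apply mul_le_mul_of_nonneg_right _ hΩpos.le
    have h1 : (N.choose s : ℝ) ≤ (l : ℝ) ^ s := by
      apply choose_bound
      have h2 : Real.exp 1 ≤ 3 := by
        have := Real.exp_one_lt_d9; linarith
      have h3 : 3 * (M : ℝ) ≤ s := by nlinarith
      calc Real.exp 1 * N ≤ 3 * N := mul_le_mul_of_nonneg_right h2 hNpos.le
        _ = l * (3 * M) := by rw [hN]; push_cast; ring
        _ ≤ l * s := mul_le_mul_of_nonneg_left h3 hlpos.le
    have h4 : (l : ℝ) ^ s = Real.exp (s * Real.log l) := by
      rw [← Real.log_pow, Real.exp_log (by positivity)]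
    calc (N.choose s : ℝ) * Real.exp (-((s * s - s : ℝ) / M))
        ≤ Real.exp (s * Real.log l) * Real.exp (-((s * s - s : ℝ) / M)) := by
          rw [← h4]
          exact mul_le_mul_of_nonneg_right h1 (Real.exp_pos _).le
      _ = Real.exp (s * Real.log l - (s * s - s : ℝ) / M) := by
          rw [← Real.exp_add]; congr 1; try ring
      _ ≤ Real.exp (-3) := by
          apply Real.exp_le_exp.2
          have h5 : 4 * Real.log l * s ≤ (s * s - s : ℝ) / M := by
            rw [le_div_iff₀ hMpos]
            nlinarith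
          have h6 : 1 ≤ s * Real.log l := by nlinarith
          nlinarith
      _ ≤ 1 / 4 := by
          have h7 : (4 : ℝ) ≤ Real.exp 3 := by
            have := Real.add_one_le_exp (3 : ℝ)
            linarith
          rw [Real.exp_neg, one_div]
          exact inv_anti₀ (by norm_num) h7
  -- existence of a good ω
  have hex : ∃ ω : Fin N × Fin N → Fin M,
      ((univ.filter (fun v : Fin N => 16 * l ≤ (univ.filter (fun u => ω (v, u) = 0)).card)).card : ℝ) +
      ((univ.filter (fun v : Fin N => 16 * l ≤ (univ.filter (fun u => ω (u, v) = 0)).card)).card : ℝ) +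
      (∑ m ∈ Finset.Ico 3 g, ((cycs ω m).card : ℝ)) +
      (N / 2) * ((((univ : Finset (Fin N)).powersetCard s).filter
        (fun S => ∀ u ∈ S, ∀ v ∈ S, ¬ (Gr ω).Adj u v)).card : ℝ) < N / 2 := by
    by_contra hcon
    push Not at hcon
    have h1 : ∑ ω : Fin N × Fin N → Fin M, ((N : ℝ) / 2) ≤ _ :=
      Finset.sum_le_sum (fun ω _ => hcon ω)
    rw [Finset.sum_add_distrib, Finset.sum_add_distrib, Finset.sum_add_distrib,
      ← Finset.mul_sum, Finset.sum_const, Finset.card_univ, card_labels, nsmul_eq_mul] at h1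
    push_cast at h1
    have h2 : (N : ℝ) / 2 * ∑ ω : Fin N × Fin N → Fin M,
      ((((univ : Finset (Fin N)).powersetCard s).filter
        (fun S => ∀ u ∈ S, ∀ v ∈ S, ¬ (Gr ω).Adj u v)).card : ℝ) ≤ (N / 2) * ((1 / 4) * Ω) :=
      mul_le_mul_of_nonneg_left E4 (by positivity)
    have h3 : 0 < (N : ℝ) * Ω := by positivity
    rw [← hΩ] at h1
    linarith
  obtain ⟨ω, hω⟩ := hex
  set X1 := univ.filter (fun v : Fin N => 16 * l ≤ (univ.filter (fun u => ω (v, u) = 0)).card) with hX1
  set X2 := univ.filter (fun v : Fin N => 16 * l ≤ (univ.filter (fun u => ω (u, v) = 0)).card) with hX2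
  set Z := ((univ : Finset (Fin N)).powersetCard s).filter
        (fun S => ∀ u ∈ S, ∀ v ∈ S, ¬ (Gr ω).Adj u v) with hZ
  have hZ0 : Z = ∅ := by
    by_contra hne
    have h1 : 1 ≤ Z.card := Finset.card_pos.2 (Finset.nonempty_iff_ne_empty.2 hne)
    have h2 : (1 : ℝ) ≤ (Z.card : ℝ) := by exact_mod_cast h1
    have h3 : (0 : ℝ) ≤ (X1.card : ℝ) := Nat.cast_nonneg _
    have h4 : (0 : ℝ) ≤ (X2.card : ℝ) := Nat.cast_nonneg _
    have h5 : (0 : ℝ) ≤ ∑ m ∈ Finset.Ico 3 g, ((cycs ω m).card : ℝ) :=
      Finset.sum_nonneg (fun _ _ => Nat.cast_nonneg _)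
    have h6 : (N : ℝ) / 2 * 1 ≤ N / 2 * (Z.card : ℝ) :=
      mul_le_mul_of_nonneg_left h2 (by linarith)
    linarith
  set X3 : Finset (Fin N) := (Finset.Ico 3 g).attach.biUnion (fun m =>
    (cycs ω m.1).image (fun p => p.1 ⟨0, by have := (Finset.mem_Ico.1 m.2).1; omega⟩)) with hX3
  have hX3card : (X3.card : ℝ) ≤ ∑ m ∈ Finset.Ico 3 g, ((cycs ω m).card : ℝ) := by
    have h1 : X3.card ≤ ∑ m ∈ (Finset.Ico 3 g).attach, (cycs ω m.1).card := by
      refine le_trans Finset.card_biUnion_le ?_
      exact Finset.sum_le_sum (fun m _ => Finset.card_image_le)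
    rw [Finset.sum_attach (Finset.Ico 3 g) (fun m => (cycs ω m).card)] at h1
    exact_mod_cast h1
  set R : Finset (Fin N) := univ \ (X1 ∪ (X2 ∪ X3)) with hR
  have hRcard : (N : ℝ) / 2 ≤ (R.card : ℝ) := by
    have h1 : R.card + (X1 ∪ (X2 ∪ X3)).card = N := by
      have := Finset.card_sdiff_add_card_eq_card (Finset.subset_univ (X1 ∪ (X2 ∪ X3)))
      rw [Finset.card_univ, Fintype.card_fin] at this
      exact this
    have h2 : (X1 ∪ (X2 ∪ X3)).card ≤ X1.card + (X2.card + X3.card) :=
      le_trans (Finset.card_union_le _ _) (Nat.add_le_add_left (Finset.card_union_le _ _) _)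
    have h1' : (R.card : ℝ) + ((X1 ∪ (X2 ∪ X3)).card : ℝ) = N := by exact_mod_cast h1
    have h2' : ((X1 ∪ (X2 ∪ X3)).card : ℝ) ≤ X1.card + (X2.card + X3.card) := by exact_mod_cast h2
    have h3 : (0 : ℝ) ≤ (N / 2) * (Z.card : ℝ) := mul_nonneg (by linarith) (Nat.cast_nonneg _)
    linarith
  have hRpos : 0 < R.card := by
    have : (0 : ℝ) < (R.card : ℝ) := by linarith
    exact_mod_cast this
  let e : Fin R.card → Fin N := fun i => (R.equivFin.symm i : Fin N)
  have he : Function.Injective e := fun i j h => R.equivFin.symm.injective (Subtype.ext h)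
  have heR : ∀ i, e i ∈ R := fun i => (R.equivFin.symm i).2
  have hRnot : ∀ i, e i ∉ X1 ∧ e i ∉ X2 ∧ e i ∉ X3 := by
    intro i
    have := heR i
    rw [hR, mem_sdiff, mem_union, mem_union] at this
    tauto
  refine ⟨R.card, hRpos, (Gr ω).comap e, ?_, ?_, ?_⟩
  · -- degrees
    intro v
    have h1 := hRnot v
    have h2 : (univ.filter (fun u => ω (e v, u) = 0)).card < 16 * l := by
      by_contra h
      push Not at h
      exact h1.1 (mem_filter.2 ⟨mem_univ _, h⟩)
    have h3 : (univ.filter (fun u => ω (u, e v) = 0)).card < 16 * l := by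
      by_contra h
      push Not at h
      exact h1.2.1 (mem_filter.2 ⟨mem_univ _, h⟩)
    have h4 : (((Gr ω).comap e).neighborSet v).ncard ≤
        ((((univ.filter (fun u => ω (e v, u) = 0)) ∪
          (univ.filter (fun u => ω (u, e v) = 0)) : Finset (Fin N))) : Set (Fin N)).ncard := by
      apply Set.ncard_le_ncard_of_injOn e _ he.injOn (Finset.finite_toSet _)
      intro w hw
      have hw' : (Gr ω).Adj (e v) (e w) := hw
      rw [Gr_adj] at hw'
      rw [mem_coe, mem_union, mem_filter, mem_filter]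
      rcases hw'.2 with h | h
      · exact Or.inl ⟨mem_univ _, h⟩
      · exact Or.inr ⟨mem_univ _, h⟩
    rw [Set.ncard_coe_finset] at h4
    have h5 := Finset.card_union_le (univ.filter (fun u => ω (e v, u) = 0))
      (univ.filter (fun u => ω (u, e v) = 0))
    omega
  · -- odd girth
    intro v p hodd
    by_contra hlt
    push Not at hlt
    obtain ⟨m, hm3, hmg, f, hadj, hfm, hinj⟩ := exists_cyc_of_odd ⟨v, p, hodd, hlt⟩
    let f' : Fin m → Fin N := fun i => e (f i.val)
    let δ : Fin m → Bool := fun i => decide (ω (f' i, f' (nx i)) = 0)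
    have hf' : Function.Injective f' := by
      intro i j hij
      exact Fin.ext (hinj i.val j.val i.isLt j.isLt (he hij))
    have hmem : ((f', δ) : (Fin m → Fin N) × (Fin m → Bool)) ∈ cycs ω m := by
      unfold cycs
      rw [mem_filter]
      refine ⟨mem_univ _, hf', ?_⟩
      intro x hx
      rw [mem_image] at hx
      obtain ⟨i, _, rfl⟩ := hx
      have h1 : (Gr ω).Adj (f' i) (f' (nx i)) := by
        have h2 : (Gr ω).Adj (e (f i.val)) (e (f (i.val + 1))) := hadj i.val i.isLt
        have h3 : f' (nx i) = e (f (i.val + 1)) := by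
          simp only [f']
          congr 1
          unfold nx
          by_cases h4 : i.val + 1 < m
          · rw [dif_pos h4]
          · rw [dif_neg h4]
            have h5 : i.val + 1 = m := by have := i.isLt; omega
            rw [h5, hfm]
        rw [h3]
        exact h2
      rw [Gr_adj] at h1
      unfold edg
      by_cases h6 : ω (f' i, f' (nx i)) = 0
      · have : δ i = true := by simp only [δ]; exact decide_eq_true h6
        simp only [this, if_true]
        exact h6
      · have : δ i = false := by simp only [δ]; exact decide_eq_false h6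
        simp only [this, Bool.false_eq_true, if_false]
        exact h1.2.resolve_left h6
    have h7 : f' ⟨0, by omega⟩ ∈ X3 := by
      rw [hX3, mem_biUnion]
      refine ⟨⟨m, Finset.mem_Ico.2 ⟨hm3, hmg⟩⟩, mem_attach _ _, ?_⟩
      rw [mem_image]
      exact ⟨(f', δ), hmem, rfl⟩
    exact (hRnot (f 0)).2.2 h7
  · -- independence number
    intro S hS
    have h1 : S.card < s := by
      by_contra h
      push Not at h
      obtain ⟨S', hS', hc⟩ := Finset.exists_subset_card_eq h
      have h2 : S'.image e ∈ Z := by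
        rw [hZ, mem_filter, mem_powersetCard]
        refine ⟨⟨Finset.subset_univ _, ?_⟩, ?_⟩
        · rw [Finset.card_image_of_injective _ he, hc]
        · intro u hu v hv
          rw [mem_image] at hu hv
          obtain ⟨u', hu', rfl⟩ := hu
          obtain ⟨v', hv', rfl⟩ := hv
          exact hS u' (hS' hu') v' (hS' hv')
      rw [hZ0] at h2
      simp at h2
    have h2 : (S.card : ℝ) ≤ s := by exact_mod_cast h1.le
    have hbpos : (0 : ℝ) < b := by
      have : 0 < b := by omega
      exact_mod_cast this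
    have hlb' : (l : ℝ) ≤ b := by exact_mod_cast (by omega : l ≤ b)
    have hlog : Real.log l ≤ Real.log b := Real.log_le_log hlpos hlb'
    have hb64 : (b : ℝ) ≤ 64 * l := by exact_mod_cast hlb2
    have hNl : (N : ℝ) = l * M := by rw [hN]; push_cast; ring
    rw [le_div_iff₀ hbpos]
    calc (S.card : ℝ) * b ≤ (6 * M * Real.log l) * b :=
          mul_le_mul_of_nonneg_right (le_trans h2 hs2) hbpos.le
      _ ≤ (6 * M * Real.log b) * (64 * l) := by
          apply mul_le_mul _ hb64 hbpos.le (by positivity)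
          apply mul_le_mul_of_nonneg_left hlog (by positivity)
      _ = 384 * (l * M) * Real.log b := by ring
      _ = 768 * (N / 2) * Real.log b := by rw [hNl]; ring
      _ ≤ 768 * (R.card : ℝ) * Real.log b := by
          apply mul_le_mul_of_nonneg_right _ (by linarith)
          linarith

end Pool.Agent.H90.DC
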