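import Mathlib

/-! Distance-`t` colouring (MP_aff989_co, S10821): common definitions. -/

set_option autoImplicit false

namespace Pool.Agent.H90.DC

open SimpleGraph

/-- The `t`-th power of `G`. -/
def Pw {V : Type*} (G : SimpleGraph V) (t : ℕ) : SimpleGraph V :=
  SimpleGraph.fromRel (fun u v => ∃ p : G.Walk u v, p.length ≤ t)

/-- `G` has a cycle of length `ℓ`. -/
def HasCyc {V : Type*} (G : SimpleGraph V) (ℓ : ℕ) : Prop :=
  ∃ v : V, ∃ p : G.Walk v v, p.IsCycle ∧ p.length = ℓ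

/-- there is a graph of max degree `≤ d` without `C_ℓ` whose `t`-th power is not `k`-colourable
for any `k < B`. -/
def LowerGood (t ℓ d : ℕ) (B : ℝ) : Prop :=
  ∃ n : ℕ, ∃ G : SimpleGraph (Fin n), (∀ v, (G.neighborSet v).ncard ≤ d) ∧ ¬ HasCyc G ℓ ∧
    ∀ k : ℕ, (k : ℝ) < B → ¬ (Pw G t).Colorable k

/-- every graph of max degree `≤ d` without `C_ℓ` has `t`-th power `⌊B⌋`-colourable. -/
def UpperGood (t ℓ d : ℕ) (B : ℝ) : Prop :=
  ∀ n : ℕ, ∀ G : SimpleGraph (Fin n), (∀ v, (G.neighborSet v).ncard ≤ d) → ¬ HasCyc G ℓ →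
    (Pw G t).Colorable ⌊B⌋₊

theorem pw_adj {V : Type*} (G : SimpleGraph V) (t : ℕ) (u v : V) :
    (Pw G t).Adj u v ↔ u ≠ v ∧ ∃ p : G.Walk u v, p.length ≤ t := by
  unfold Pw
  rw [SimpleGraph.fromRel_adj]
  constructor
  · rintro ⟨h, h' | h'⟩
    · exact ⟨h, h'⟩
    · obtain ⟨p, hp⟩ := h'
      exact ⟨h, p.reverse, by simpa using hp⟩
  · rintro ⟨h, h'⟩
    exact ⟨h, Or.inl h'⟩

/-- transfer from an arbitrary finite vertex type to `Fin n`. -/
theorem lowerGood_of_fintype {V : Type*} [Fintype V] (G : SimpleGraph V) (t ℓ d : ℕ) (B : ℝ)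
    (h1 : ∀ v, (G.neighborSet v).ncard ≤ d) (h2 : ¬ HasCyc G ℓ)
    (h3 : ∀ k : ℕ, (k : ℝ) < B → ¬ (Pw G t).Colorable k) : LowerGood t ℓ d B := by
  classical
  let e : V ≃ Fin (Fintype.card V) := Fintype.equivFin V
  let G' : SimpleGraph (Fin (Fintype.card V)) := G.comap e.symm
  let φ : G' ≃g G := ⟨e.symm, by intro a b; rfl⟩
  refine ⟨Fintype.card V, G', ?_, ?_, ?_⟩
  · intro v
    have : G'.neighborSet v = e '' (G.neighborSet (e.symm v)) := by
      ext w
      simp only [SimpleGraph.mem_neighborSet, Set.mem_image]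
      constructor
      · intro h
        exact ⟨e.symm w, h, by simp⟩
      · rintro ⟨x, hx, rfl⟩
        show G.Adj (e.symm v) (e.symm (e x))
        simpa using hx
    rw [this, Set.ncard_image_of_injective _ e.injective]
    exact h1 _
  · rintro ⟨v, p, hp, hl⟩
    apply h2
    refine ⟨φ v, p.map φ.toHom, ?_, ?_⟩
    · exact hp.map φ.injective
    · simpa using hl
  · intro k hk hc
    apply h3 k hk
    obtain ⟨c⟩ := hc
    refine ⟨SimpleGraph.Coloring.mk (fun v => c (e v)) ?_⟩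
    intro a b hab
    rw [pw_adj] at hab
    obtain ⟨hne, p, hp⟩ := hab
    apply c.valid
    rw [pw_adj]
    refine ⟨fun h => hne (e.injective h), ?_⟩
    let q := p.map (φ.symm.toHom)
    refine ⟨q, ?_⟩
    have hq : q.length = p.length := SimpleGraph.Walk.length_map _ _
    exact le_of_eq_of_le hq hp

end Pool.Agent.H90.DC
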