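import Pool.Agent.Lib_helper90.DC.Defs

/-! Part B: balls and the greedy bound. -/

set_option autoImplicit false
set_option linter.unusedSectionVars false

namespace Pool.Agent.H90.DC

open SimpleGraph Finset
open scoped Classical

variable {V : Type*} [Fintype V] (G : SimpleGraph V)

/-- vertices reachable by a walk of length exactly `i`. -/
noncomputable def sph (i : ℕ) (v : V) : Finset V :=
  univ.filter (fun w => ∃ p : G.Walk v w, p.length = i)

/-- vertices reachable by a walk of length at most `i`. -/
noncomputable def ball (i : ℕ) (v : V) : Finset V :=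
  univ.filter (fun w => ∃ p : G.Walk v w, p.length ≤ i)

variable {G}

theorem mem_sph {i : ℕ} {v w : V} : w ∈ sph G i v ↔ ∃ p : G.Walk v w, p.length = i := by simp [sph]

theorem mem_ball {i : ℕ} {v w : V} : w ∈ ball G i v ↔ ∃ p : G.Walk v w, p.length ≤ i := by
  simp [ball]

theorem mem_ball_comm {i : ℕ} {v w : V} : w ∈ ball G i v ↔ v ∈ ball G i w := by
  rw [mem_ball, mem_ball]
  constructor
  · rintro ⟨p, hp⟩; exact ⟨p.reverse, by simpa using hp⟩
  · rintro ⟨p, hp⟩; exact ⟨p.reverse, by simpa using hp⟩

theorem ball_mono {i j : ℕ} (h : i ≤ j) (v : V) : ball G i v ⊆ ball G j v := by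
  intro w hw
  rw [mem_ball] at hw ⊢
  obtain ⟨p, hp⟩ := hw
  exact ⟨p, le_trans hp h⟩

theorem nbr_card {d : ℕ} (hd : ∀ v, (G.neighborSet v).ncard ≤ d) (v : V) :
    (univ.filter (fun w => G.Adj v w)).card ≤ d := by
  have h := hd v
  have : G.neighborSet v = ((univ.filter (fun w => G.Adj v w) : Finset V) : Set V) := by
    ext w; simp
  rw [this, Set.ncard_coe_finset] at h
  exact h

theorem sph_card {d : ℕ} (hd : ∀ v, (G.neighborSet v).ncard ≤ d) (i : ℕ) (v : V) :
    (sph G i v).card ≤ d ^ i := by
  induction i with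
  | zero =>
    have : sph G 0 v ⊆ {v} := by
      intro w hw
      rw [mem_sph] at hw
      obtain ⟨p, hp⟩ := hw
      have := Walk.eq_of_length_eq_zero hp
      simp [this]
    simpa using Finset.card_le_card this
  | succ i ih =>
    have h1 : sph G (i + 1) v ⊆ (sph G i v).biUnion (fun u => univ.filter (fun w => G.Adj u w)) := by
      intro w hw
      rw [mem_sph] at hw
      obtain ⟨p, hp⟩ := hw
      rw [mem_biUnion]
      have hnn : ¬ p.reverse.Nil := by
        intro h
        have := SimpleGraph.Walk.length_eq_zero_iff.2 h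
        rw [Walk.length_reverse] at this
        omega
      refine ⟨p.reverse.snd, ?_, ?_⟩
      · rw [mem_sph]
        refine ⟨p.reverse.tail.reverse, ?_⟩
        rw [Walk.length_reverse]
        have := Walk.length_tail_add_one hnn
        rw [Walk.length_reverse] at this
        omega
      · rw [mem_filter]
        exact ⟨mem_univ _, (Walk.adj_snd hnn).symm⟩
    calc (sph G (i + 1) v).card ≤ _ := Finset.card_le_card h1
      _ ≤ (sph G i v).card * d := Finset.card_biUnion_le_card_mul _ _ _ (fun u _ => nbr_card hd u)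
      _ ≤ d ^ i * d := Nat.mul_le_mul_right _ ih
      _ = d ^ (i + 1) := by ring

theorem ball_card {d : ℕ} (hd1 : 1 ≤ d) (hd : ∀ v, (G.neighborSet v).ncard ≤ d) (i : ℕ) (v : V) :
    (ball G i v).card ≤ (i + 1) * d ^ i := by
  have h1 : ball G i v ⊆ (Finset.range (i + 1)).biUnion (fun j => sph G j v) := by
    intro w hw
    rw [mem_ball] at hw
    obtain ⟨p, hp⟩ := hw
    rw [mem_biUnion]
    exact ⟨p.length, mem_range.2 (by omega), mem_sph.2 ⟨p, rfl⟩⟩
  calc (ball G i v).card ≤ _ := Finset.card_le_card h1
    _ ≤ (Finset.range (i + 1)).card * d ^ i := by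
      apply Finset.card_biUnion_le_card_mul
      intro j hj
      refine le_trans (sph_card hd j v) ?_
      exact Nat.pow_le_pow_right hd1 (by have := mem_range.1 hj; omega)
    _ = (i + 1) * d ^ i := by rw [card_range]

/-- greedy colouring. -/
theorem greedy (H : SimpleGraph V) (n : ℕ)
    (h : ∀ v, (univ.filter (fun w => H.Adj v w)).card < n) : H.Colorable n := by
  rcases isEmpty_or_nonempty V with hV | hV
  · exact Colorable.of_isEmpty n
  have hn : 0 < n := lt_of_le_of_lt (Nat.zero_le _) (h (Classical.arbitrary V))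
  have key : ∀ S : Finset V, ∃ c : V → Fin n, ∀ u ∈ S, ∀ v ∈ S, H.Adj u v → c u ≠ c v := by
    intro S
    induction S using Finset.induction_on with
    | empty => exact ⟨fun _ => ⟨0, hn⟩, by simp⟩
    | insert v S hv ih =>
      obtain ⟨c, hc⟩ := ih
      have h1 : ((univ.filter (fun w => H.Adj v w)).image c).card < (univ : Finset (Fin n)).card := by
        rw [Finset.card_univ, Fintype.card_fin]
        exact lt_of_le_of_lt Finset.card_image_le (h v)
      obtain ⟨x, _, hx⟩ := Finset.exists_mem_notMem_of_card_lt_card h1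
      refine ⟨Function.update c v x, ?_⟩
      intro a ha b hb hab
      by_cases hav : a = v
      · subst hav
        have hba : b ≠ a := hab.ne'
        rw [Function.update_self, Function.update_of_ne hba]
        intro hxb
        apply hx
        rw [mem_image]
        exact ⟨b, mem_filter.2 ⟨mem_univ _, hab⟩, hxb.symm⟩
      · by_cases hbv : b = v
        · subst hbv
          rw [Function.update_self, Function.update_of_ne hav]
          intro hxa
          apply hx
          rw [mem_image]
          exact ⟨a, mem_filter.2 ⟨mem_univ _, hab.symm⟩, hxa⟩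
        · rw [Function.update_of_ne hav, Function.update_of_ne hbv]
          have ha' : a ∈ S := by simpa [hav] using ha
          have hb' : b ∈ S := by simpa [hbv] using hb
          exact hc a ha' b hb' hab
  obtain ⟨c, hc⟩ := key univ
  exact ⟨SimpleGraph.Coloring.mk c (fun {a b} hab => hc a (mem_univ _) b (mem_univ _) hab)⟩

theorem pw_nbr_card_lt {d : ℕ} (hd1 : 1 ≤ d) (hd : ∀ v, (G.neighborSet v).ncard ≤ d) (t : ℕ)
    (v : V) : (univ.filter (fun w => (Pw G t).Adj v w)).card < (t + 1) * d ^ t := by
  have h1 : univ.filter (fun w => (Pw G t).Adj v w) ⊂ ball G t v := by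
    rw [Finset.ssubset_iff_of_subset]
    · refine ⟨v, ?_, ?_⟩
      · rw [mem_ball]; exact ⟨Walk.nil, by simp⟩
      · simp
    · intro w hw
      rw [mem_filter, pw_adj] at hw
      rw [mem_ball]
      exact hw.2.2
  exact lt_of_lt_of_le (Finset.card_lt_card h1) (ball_card hd1 hd t v)

/-- Part B. -/
theorem partB (t ℓ : ℕ) :
    ∃ C : ℝ, 0 < C ∧ ∃ D : ℕ, ∀ d : ℕ, D ≤ d → UpperGood t ℓ d (C * (d : ℝ) ^ t) := by
  refine ⟨(t : ℝ) + 1, by positivity, 1, ?_⟩
  intro d hd n G hG _
  have h1 : (Pw G t).Colorable ((t + 1) * d ^ t) := greedy _ _ (fun v => pw_nbr_card_lt hd hG t v)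
  have h2 : ⌊((t : ℝ) + 1) * (d : ℝ) ^ t⌋₊ = (t + 1) * d ^ t := by
    have : ((t : ℝ) + 1) * (d : ℝ) ^ t = (((t + 1) * d ^ t : ℕ) : ℝ) := by push_cast; ring
    rw [this, Nat.floor_natCast]
  rw [h2]
  exact h1

end Pool.Agent.H90.DC
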