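import Pool.Agent.Lib_helper90.DC.Greedy

/-! Part C2: path families. -/

set_option autoImplicit false
set_option linter.unusedSectionVars false

namespace Pool.Agent.H90.DC

open SimpleGraph Finset
open scoped Classical

variable {V : Type*} {G : SimpleGraph V}

/-- a cyclic list of distinct vertices gives a cycle. -/
theorem hasCyc_of_list (l : List V) (hne : l ≠ []) (hc : l.IsChain G.Adj) (hnd : l.Nodup)
    (h3 : 3 ≤ l.length) (hcl : G.Adj (l.getLast hne) (l.head hne)) : HasCyc G l.length := by
  match l, hne, hc, hnd, h3, hcl with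
  | [], hne, _, _, _, _ => exact absurd rfl hne
  | [a], _, _, _, h3, _ => simp at h3
  | [a, b], _, _, _, h3, _ => simp at h3
  | a :: b :: c :: r, hne, hc, hnd, h3, hcl =>
    refine ⟨_, Walk.cons hcl (Walk.ofSupport (a :: b :: c :: r) hne hc), ?_, ?_⟩
    · rw [Walk.cons_isCycle_iff]
      constructor
      · rw [Walk.isPath_def, Walk.support_ofSupport]; exact hnd
      · intro hmem
        have hmem : s((a :: b :: c :: r).getLast hne, a) ∈
            s(a, b) :: (Walk.ofSupport (b :: c :: r) (List.cons_ne_nil _ _) hc.of_cons).edges := hmem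
        rw [List.mem_cons] at hmem
        rw [List.nodup_cons] at hnd
        have hlast : (a :: b :: c :: r).getLast hne ∈ c :: r := by
          rw [List.getLast_cons (List.cons_ne_nil _ _), List.getLast_cons (List.cons_ne_nil _ _)]
          exact List.getLast_mem _
        rcases hmem with h | h
        · rw [Sym2.eq_iff] at h
          rcases h with ⟨h1, _⟩ | ⟨h1, _⟩
          · rw [h1] at hlast
            exact hnd.1 (List.mem_cons_of_mem _ hlast)
          · rw [h1] at hlast
            have := hnd.2
            rw [List.nodup_cons] at this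
            exact this.1 hlast
        · have := Walk.snd_mem_support_of_mem_edges _ h
          rw [Walk.support_ofSupport] at this
          exact hnd.1 (by simpa using this)
    · rw [Walk.length_cons, Walk.length_ofSupport]
      simp

variable [Fintype V]

/-- lists `r` of length `n` such that `w :: r` is a chain. -/
noncomputable def fwd (G : SimpleGraph V) : ℕ → V → Finset (List V)
  | 0, _ => {[]}
  | n + 1, w => (univ.filter (fun u => G.Adj w u)).biUnion (fun u => (fwd G n u).image (fun r => u :: r))

theorem mem_fwd {n : ℕ} {w : V} {r : List V} (hl : r.length = n) (hc : (w :: r).IsChain G.Adj) :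
    r ∈ fwd G n w := by
  induction n generalizing w r with
  | zero =>
    have : r = [] := List.eq_nil_of_length_eq_zero hl
    simp [fwd, this]
  | succ n ih =>
    match r, hl with
    | u :: r, hl =>
      rw [List.isChain_cons_cons] at hc
      rw [fwd, mem_biUnion]
      refine ⟨u, mem_filter.2 ⟨mem_univ _, hc.1⟩, ?_⟩
      rw [mem_image]
      exact ⟨r, ih (by simpa using hl) hc.2, rfl⟩

theorem card_fwd {d : ℕ} (hd : ∀ v, (G.neighborSet v).ncard ≤ d) (n : ℕ) (w : V) :
    (fwd G n w).card ≤ d ^ n := by
  induction n generalizing w with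
  | zero => simp [fwd]
  | succ n ih =>
    rw [fwd]
    calc _ ≤ (univ.filter (fun u => G.Adj w u)).card * d ^ n := by
          apply Finset.card_biUnion_le_card_mul
          intro u _
          exact le_trans Finset.card_image_le (ih u)
      _ ≤ d * d ^ n := Nat.mul_le_mul_right _ (nbr_card hd w)
      _ = d ^ (n + 1) := by ring

/-- the list of a triple. -/
def tl (f : V × V × List V) : List V := f.1 :: f.2.1 :: f.2.2

/-- pruning a dense path family. -/
theorem prune {d s : ℕ} (hd : ∀ v, (G.neighborSet v).ncard ≤ d) (C A B : ℕ) (hC : 1 ≤ C)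
    (F : Finset (V × V × List V))
    (hF : ∀ f ∈ F, f.2.2.length = s ∧ (tl f).IsChain G.Adj)
    (hA : (F.image (fun f => f.1)).card ≤ A) (hB : (F.image (fun f => f.2)).card ≤ B)
    (hbig : C * d ^ s * A + C * B < F.card) (hd1 : 1 ≤ d) :
    ∃ F' ⊆ F, F'.Nonempty ∧
      (∀ f ∈ F', C ≤ ((F'.filter (fun g => g.1 = f.1)).image (fun g => g.2.1)).card) ∧
      (∀ f ∈ F', C ≤ ((F'.filter (fun g => g.2 = f.2)).image (fun g => g.1)).card) := by
  let Φ : Finset (V × V × List V) → ℤ := fun S =>
    (S.card : ℤ) - C * d ^ s * ((S.image (fun f => f.1)).card : ℤ) - C * ((S.image (fun f => f.2)).card : ℤ)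
  obtain ⟨F', hF'mem, hmax⟩ := Finset.exists_max_image F.powerset Φ ⟨F, Finset.mem_powerset_self F⟩
  have hF'F : F' ⊆ F := mem_powerset.1 hF'mem
  have hΦF : 0 < Φ F := by
    simp only [Φ]
    have h1 : (C : ℤ) * d ^ s * A + C * B < (F.card : ℤ) := by exact_mod_cast hbig
    have h2 : ((F.image (fun f => f.1)).card : ℤ) ≤ A := by exact_mod_cast hA
    have h3 : ((F.image (fun f => f.2)).card : ℤ) ≤ B := by exact_mod_cast hB
    have h4 : (0 : ℤ) ≤ C * d ^ s := by positivity
    have h5 : (0 : ℤ) ≤ C := by positivity
    have h6 := mul_le_mul_of_nonneg_left h2 h4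
    have h7 := mul_le_mul_of_nonneg_left h3 h5
    linarith
  have hΦF' : 0 < Φ F' := lt_of_lt_of_le hΦF (hmax F (Finset.mem_powerset_self F))
  refine ⟨F', hF'F, ?_, ?_, ?_⟩
  · by_contra hne
    rw [Finset.not_nonempty_iff_eq_empty] at hne
    rw [hne] at hΦF'
    simp [Φ] at hΦF'
  · intro f hf
    by_contra hlt
    push Not at hlt
    -- remove everything with head f.1
    set F1 := F'.filter (fun g => g.1 = f.1) with hF1
    set F2 := F'.filter (fun g => ¬ g.1 = f.1) with hF2
    have hcard : F1.card + F2.card = F'.card :=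
      Finset.card_filter_add_card_filter_not (s := F') (fun g => g.1 = f.1)
    have hF1card : F1.card ≤ (F1.image (fun g => g.2.1)).card * d ^ s := by
      have hsub : F1 ⊆ (F1.image (fun g => g.2.1)).biUnion
          (fun w => (fwd G s w).image (fun r => (f.1, w, r))) := by
        intro g hg
        have hg' := mem_filter.1 hg
        rw [mem_biUnion]
        refine ⟨g.2.1, mem_image_of_mem _ hg, ?_⟩
        rw [mem_image]
        refine ⟨g.2.2, ?_, ?_⟩
        · have := hF g (hF'F hg'.1)
          apply mem_fwd this.1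
          have h2 := this.2
          unfold tl at h2
          rw [List.isChain_cons_cons] at h2
          exact h2.2
        · rw [← hg'.2]
      calc F1.card ≤ _ := Finset.card_le_card hsub
        _ ≤ _ := Finset.card_biUnion_le_card_mul _ _ _ (fun w _ =>
            le_trans Finset.card_image_le (card_fwd hd s w))
    have himg1 : (F2.image (fun g => g.1)).card + 1 ≤ (F'.image (fun g => g.1)).card := by
      have hss : F2.image (fun g => g.1) ⊂ F'.image (fun g => g.1) := by
        rw [Finset.ssubset_iff_of_subset (Finset.image_subset_image (Finset.filter_subset _ _))]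
        refine ⟨f.1, mem_image_of_mem _ hf, ?_⟩
        intro h
        rw [mem_image] at h
        obtain ⟨g, hg, hgf⟩ := h
        exact (mem_filter.1 hg).2 hgf
      exact Finset.card_lt_card hss
    have himg2 : (F2.image (fun g => g.2)).card ≤ (F'.image (fun g => g.2)).card :=
      Finset.card_le_card (Finset.image_subset_image (Finset.filter_subset _ _))
    have hm := hmax F2 (mem_powerset.2 ((Finset.filter_subset _ _).trans hF'F))
    simp only [Φ] at hm
    have e1 : (F1.card : ℤ) + F2.card = F'.card := by exact_mod_cast hcard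
    have e2 : (F1.card : ℤ) ≤ ((F1.image (fun g => g.2.1)).card : ℤ) * d ^ s := by
      exact_mod_cast hF1card
    have e3 : ((F2.image (fun g => g.1)).card : ℤ) + 1 ≤ (F'.image (fun g => g.1)).card := by
      exact_mod_cast himg1
    have e4 : ((F2.image (fun g => g.2)).card : ℤ) ≤ (F'.image (fun g => g.2)).card := by
      exact_mod_cast himg2
    have e5 : ((F1.image (fun g => g.2.1)).card : ℤ) + 1 ≤ C := by exact_mod_cast hlt
    have hdpos : (0 : ℤ) < d ^ s := by positivity
    have hC0 : (0 : ℤ) ≤ C := by positivity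
    have e6 := mul_le_mul_of_nonneg_right e5 hdpos.le
    have e7 := mul_le_mul_of_nonneg_left e3 (mul_nonneg hC0 hdpos.le)
    have e8 := mul_le_mul_of_nonneg_left e4 hC0
    nlinarith
  · intro f hf
    by_contra hlt
    push Not at hlt
    set F1 := F'.filter (fun g => g.2 = f.2) with hF1
    set F2 := F'.filter (fun g => ¬ g.2 = f.2) with hF2
    have hcard : F1.card + F2.card = F'.card :=
      Finset.card_filter_add_card_filter_not (s := F') (fun g => g.2 = f.2)
    have hF1card : F1.card ≤ (F1.image (fun g => g.1)).card := by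
      rw [Finset.card_image_of_injOn]
      intro a ha b hb hab
      simp only [coe_filter, hF1, Set.mem_ofPred_eq] at ha hb
      exact Prod.ext hab (ha.2.trans hb.2.symm)
    have himg1 : (F2.image (fun g => g.2)).card + 1 ≤ (F'.image (fun g => g.2)).card := by
      have hss : F2.image (fun g => g.2) ⊂ F'.image (fun g => g.2) := by
        rw [Finset.ssubset_iff_of_subset (Finset.image_subset_image (Finset.filter_subset _ _))]
        refine ⟨f.2, mem_image_of_mem _ hf, ?_⟩
        intro h
        rw [mem_image] at h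
        obtain ⟨g, hg, hgf⟩ := h
        exact (mem_filter.1 hg).2 hgf
      exact Finset.card_lt_card hss
    have himg2 : (F2.image (fun g => g.1)).card ≤ (F'.image (fun g => g.1)).card :=
      Finset.card_le_card (Finset.image_subset_image (Finset.filter_subset _ _))
    have hm := hmax F2 (mem_powerset.2 ((Finset.filter_subset _ _).trans hF'F))
    simp only [Φ] at hm
    have e1 : (F1.card : ℤ) + F2.card = F'.card := by exact_mod_cast hcard
    have e2 : (F1.card : ℤ) ≤ ((F1.image (fun g => g.1)).card : ℤ) := by
      exact_mod_cast hF1card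
    have e3 : ((F2.image (fun g => g.2)).card : ℤ) + 1 ≤ (F'.image (fun g => g.2)).card := by
      exact_mod_cast himg1
    have e4 : ((F2.image (fun g => g.1)).card : ℤ) ≤ (F'.image (fun g => g.1)).card := by
      exact_mod_cast himg2
    have e5 : ((F1.image (fun g => g.1)).card : ℤ) + 1 ≤ C := by exact_mod_cast hlt
    have hdpos : (0 : ℤ) < d ^ s := by positivity
    have hC0 : (0 : ℤ) ≤ C := by positivity
    have e7 := mul_le_mul_of_nonneg_left e4 (mul_nonneg hC0 hdpos.le)
    have e8 := mul_le_mul_of_nonneg_left e3 hC0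
    nlinarith

/-- a finset of size `> l.length` has an element outside the list `l`. -/
theorem exists_notMem_list (S : Finset V) (l : List V) (h : l.length < S.card) :
    ∃ w ∈ S, w ∉ l := by
  by_contra hcon
  push Not at hcon
  have h1 : S ⊆ l.toFinset := fun w hw => List.mem_toFinset.2 (hcon w hw)
  have := (Finset.card_le_card h1).trans (List.toFinset_card_le l)
  omega

/-- zigzag extension. -/
theorem build {s : ℕ} (C : ℕ) (F' : Finset (V × V × List V))
    (hF : ∀ f ∈ F', f.2.2.length = s ∧ (tl f).IsChain G.Adj ∧ (tl f).Nodup)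
    (hA : ∀ f ∈ F', C ≤ ((F'.filter (fun g => g.1 = f.1)).image (fun g => g.2.1)).card)
    (hB : ∀ f ∈ F', C ≤ ((F'.filter (fun g => g.2 = f.2)).image (fun g => g.1)).card)
    (f0 : V × V × List V) (hf0 : f0 ∈ F') :
    ∀ h : ℕ, s + 2 + 2 * h ≤ C → ∃ l : List V, ∃ hne : l ≠ [],
      l.length = s + 2 + 2 * h ∧ l.IsChain G.Adj ∧ l.Nodup ∧
      l.getLast hne = (tl f0).getLast (List.cons_ne_nil _ _) ∧
      (∀ v ∈ l, ∃ f ∈ F', v ∈ tl f) ∧ (∃ f ∈ F', f.1 = l.head hne) := by
  intro h
  induction h with
  | zero =>
    intro _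
    have := hF f0 hf0
    refine ⟨tl f0, List.cons_ne_nil _ _, ?_, this.2.1, this.2.2, rfl, ?_, ?_⟩
    · simp only [tl, List.length_cons]; omega
    · intro v hv; exact ⟨f0, hf0, hv⟩
    · exact ⟨f0, hf0, rfl⟩
  | succ h ih =>
    intro hC
    obtain ⟨l, hne, hlen, hch, hnd, hlast, hU, f, hf, hfl⟩ := ih (by omega)
    obtain ⟨w, hw, hwl⟩ := exists_notMem_list _ l (lt_of_lt_of_le (by omega) (hA f hf))
    rw [mem_image] at hw
    obtain ⟨g, hg, rfl⟩ := hw
    rw [mem_filter] at hg
    obtain ⟨z, hz, hzl⟩ := exists_notMem_list _ (g.2.1 :: l)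
      (lt_of_lt_of_le (by rw [List.length_cons]; omega) (hB g hg.1))
    rw [mem_image] at hz
    obtain ⟨g', hg', rfl⟩ := hz
    rw [mem_filter] at hg'
    match l, hne with
    | b :: rest, hne =>
      simp only [List.head_cons] at hfl
      refine ⟨g'.1 :: g.2.1 :: b :: rest, List.cons_ne_nil _ _, ?_, ?_, ?_, ?_, ?_, ?_⟩
      · simp only [List.length_cons] at hlen ⊢; omega
      · have h1 := (hF g' hg'.1).2.1
        unfold tl at h1
        rw [List.isChain_cons_cons, hg'.2] at h1
        have h2 := (hF g hg.1).2.1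
        unfold tl at h2
        rw [List.isChain_cons_cons, hg.2, hfl] at h2
        rw [List.isChain_cons_cons, List.isChain_cons_cons]
        exact ⟨h1.1, h2.1.symm, hch⟩
      · rw [List.nodup_cons, List.nodup_cons]
        exact ⟨hzl, hwl, hnd⟩
      · rw [List.getLast_cons (List.cons_ne_nil _ _), List.getLast_cons (List.cons_ne_nil _ _)]
        exact hlast
      · intro v hv
        rw [List.mem_cons, List.mem_cons] at hv
        rcases hv with rfl | rfl | hv
        · exact ⟨g', hg'.1, by simp [tl]⟩
        · exact ⟨g, hg.1, by simp [tl]⟩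
        · exact hU v hv
      · exact ⟨g', hg'.1, rfl⟩

/-- colour averaging. -/
theorem exists_colouring {ι : Type*} (I : Finset ι) (P : ι → Fin 3 → Finset V) (s : ℕ)
    (hcard : ∀ i ∈ I, ∀ k, (P i k).card ≤ s)
    (hdis : ∀ i ∈ I, ∀ k k', k ≠ k' → Disjoint (P i k) (P i k')) :
    ∃ κ : V → Fin 3, I.card ≤ 3 ^ (3 * s) * (I.filter (fun i => ∀ k, ∀ v ∈ P i k, κ v = k)).card := by
  by_contra hcon
  push Not at hcon
  -- number of good colourings for i
  have hgood : ∀ i ∈ I, 3 ^ (Fintype.card V) ≤
      3 ^ (3 * s) * (univ.filter (fun κ : V → Fin 3 => ∀ k, ∀ v ∈ P i k, κ v = k)).card := by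
    intro i hi
    set T : Finset V := univ.biUnion (P i) with hT
    have hTcard : T.card ≤ 3 * s := by
      calc T.card ≤ (univ : Finset (Fin 3)).card * s :=
            Finset.card_biUnion_le_card_mul _ _ _ (fun k _ => hcard i hi k)
        _ = 3 * s := by rw [Finset.card_univ, Fintype.card_fin]
    set g : V → Fin 3 := fun v => if v ∈ P i 0 then 0 else if v ∈ P i 1 then 1 else 2 with hg
    have hgk : ∀ k, ∀ v ∈ P i k, g v = k := by
      intro k v hv
      have h01 : v ∈ P i 0 → v ∈ P i 1 → False := fun h0 h1 =>
        (Finset.disjoint_left.1 (hdis i hi 0 1 (by decide))) h0 h1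
      have h02 : v ∈ P i 0 → v ∈ P i 2 → False := fun h0 h1 =>
        (Finset.disjoint_left.1 (hdis i hi 0 2 (by decide))) h0 h1
      have h12 : v ∈ P i 1 → v ∈ P i 2 → False := fun h0 h1 =>
        (Finset.disjoint_left.1 (hdis i hi 1 2 (by decide))) h0 h1
      obtain rfl | rfl | rfl : k = 0 ∨ k = 1 ∨ k = 2 := by fin_cases k <;> simp
      · simp only [hg]
        rw [if_pos hv]
      · simp only [hg]
        have : v ∉ P i 0 := fun h0 => h01 h0 hv
        rw [if_neg this, if_pos hv]
      · simp only [hg]
        have h1 : v ∉ P i 0 := fun h0 => h02 h0 hv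
        have h2 : v ∉ P i 1 := fun h0 => h12 h0 hv
        rw [if_neg h1, if_neg h2]
    have heq : Fintype.piFinset (fun v => if v ∈ T then ({g v} : Finset (Fin 3)) else univ) ⊆
        univ.filter (fun κ : V → Fin 3 => ∀ k, ∀ v ∈ P i k, κ v = k) := by
      intro κ hκ
      rw [Fintype.mem_piFinset] at hκ
      rw [mem_filter]
      refine ⟨mem_univ _, ?_⟩
      intro k v hv
      have hvT : v ∈ T := mem_biUnion.2 ⟨k, mem_univ _, hv⟩
      have := hκ v
      rw [if_pos hvT, mem_singleton] at this
      rw [this]; exact hgk k v hv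
    have hcount : (Fintype.piFinset (fun v => if v ∈ T then ({g v} : Finset (Fin 3)) else univ)).card =
        3 ^ (univ.filter (fun v => v ∉ T)).card := by
      rw [Fintype.card_piFinset]
      have : ∀ v, (if v ∈ T then ({g v} : Finset (Fin 3)) else univ).card = if v ∈ T then 1 else 3 := by
        intro v; split_ifs <;> simp
      simp only [this]
      rw [Finset.prod_ite]
      simp
    have h1 := Finset.card_le_card heq
    rw [hcount] at h1
    have h2 : (univ.filter (fun v => v ∉ T)).card + T.card = Fintype.card V := by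
      have := Finset.card_filter_add_card_filter_not (s := (univ : Finset V)) (fun v => v ∈ T)
      rw [Finset.card_univ] at this
      have h3 : univ.filter (fun v => v ∈ T) = T := by ext; simp
      rw [h3] at this
      omega
    calc 3 ^ (Fintype.card V) = 3 ^ T.card * 3 ^ (univ.filter (fun v => v ∉ T)).card := by
          rw [← pow_add]; congr 1; omega
      _ ≤ 3 ^ (3 * s) * 3 ^ (univ.filter (fun v => v ∉ T)).card :=
          Nat.mul_le_mul_right _ (Nat.pow_le_pow_right (by norm_num) hTcard)
      _ ≤ _ := Nat.mul_le_mul_left _ h1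
  -- double counting
  have hdc : ∑ κ : V → Fin 3, (I.filter (fun i => ∀ k, ∀ v ∈ P i k, κ v = k)).card =
      ∑ i ∈ I, (univ.filter (fun κ : V → Fin 3 => ∀ k, ∀ v ∈ P i k, κ v = k)).card := by
    simp only [Finset.card_filter]
    exact Finset.sum_comm
  have h1 : I.card * 3 ^ (Fintype.card V) ≤ 3 ^ (3 * s) *
      ∑ κ : V → Fin 3, (I.filter (fun i => ∀ k, ∀ v ∈ P i k, κ v = k)).card := by
    rw [hdc, Finset.mul_sum, ← smul_eq_mul]
    exact Finset.card_nsmul_le_sum I _ _ hgood
  have h2 : 3 ^ (3 * s) * ∑ κ : V → Fin 3, (I.filter (fun i => ∀ k, ∀ v ∈ P i k, κ v = k)).card <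
      I.card * 3 ^ (Fintype.card V) := by
    rw [Finset.mul_sum]
    calc _ < ∑ κ : V → Fin 3, I.card := by
          apply Finset.sum_lt_sum_of_nonempty
          · exact ⟨fun _ => 0, mem_univ _⟩
          · intro κ _; exact hcon κ
      _ = _ := by
          rw [Finset.sum_const, Finset.card_univ, Fintype.card_pi]
          simp [mul_comm]
  omega

end Pool.Agent.H90.DC
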