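import Pool.Agent.Lib_helper90.DC.Local1

/-! Part C2: neighbourhoods in `G^t` are sparse if `G` has no `C_ℓ`, `ℓ = 3t + 2h`. -/

set_option autoImplicit false
set_option linter.unusedSectionVars false

namespace Pool.Agent.H90.DC

open SimpleGraph Finset
open scoped Classical

variable {V : Type*} [Fintype V] {G : SimpleGraph V}

/-- exact distance `s + 1`. -/
def Ex (G : SimpleGraph V) (s : ℕ) (a b : V) : Prop := b ∈ ball G (s + 1) a ∧ b ∉ ball G s a

theorem geo {s : ℕ} {a b : V} (h : Ex G s a b) :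
    ∃ m : List V, m.length = s ∧ (a :: (m ++ [b])).IsChain G.Adj ∧ (a :: (m ++ [b])).Nodup ∧
      ∀ v ∈ m, v ∈ ball G s a ∧ b ∈ ball G s v := by
  obtain ⟨h1, h2⟩ := h
  rw [mem_ball] at h1 h2
  obtain ⟨p, hp⟩ := h1
  set q := p.bypass with hq
  have hqp : q.IsPath := Walk.bypass_isPath p
  have hql : q.length ≤ s + 1 := le_trans (Walk.length_bypass_le_length p) hp
  have hql2 : q.length = s + 1 := by
    by_contra hne
    exact h2 ⟨q, by omega⟩
  have hsup : q.support.length = s + 2 := by rw [Walk.length_support, hql2]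
  -- decompose
  have hdec : ∃ m : List V, q.support = a :: (m ++ [b]) := by
    have h3 : q.support = a :: q.support.tail := (Walk.cons_tail_support q).symm
    have h4 : q.support.tail ≠ [] := by
      intro h
      rw [h] at h3
      rw [h3] at hsup
      simp at hsup
    refine ⟨q.support.tail.dropLast, ?_⟩
    have h5 : q.support.tail.getLast h4 = b := by
      rw [List.getLast_tail]
      exact Walk.getLast_support q
    have h6 := List.dropLast_append_getLast h4
    rw [h5] at h6
    rw [h6]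
    exact h3
  obtain ⟨m, hm⟩ := hdec
  have hnd : (a :: (m ++ [b])).Nodup := by rw [← hm]; exact hqp.support_nodup
  refine ⟨m, ?_, ?_, hnd, ?_⟩
  · rw [hm] at hsup
    simp only [List.length_cons, List.length_append, List.length_nil] at hsup
    omega
  · rw [← hm]; exact Walk.isChain_adj_support q
  · intro v hv
    have hvs : v ∈ q.support := by rw [hm]; simp [hv]
    have hva : v ≠ a := by
      rintro rfl
      rw [List.nodup_cons] at hnd
      exact hnd.1 (by simp [hv])
    have hvb : v ≠ b := by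
      rintro rfl
      rw [List.nodup_cons, List.nodup_append] at hnd
      exact hnd.2.2.2 v hv v (by simp) rfl
    have hlen : (q.takeUntil v hvs).length + (q.dropUntil v hvs).length = q.length := by
      rw [← Walk.length_append, Walk.take_spec]
    have h1 : 0 < (q.takeUntil v hvs).length := by
      rcases Nat.eq_zero_or_pos (q.takeUntil v hvs).length with h0 | h0
      · exact absurd (Walk.eq_of_length_eq_zero h0).symm hva
      · exact h0
    have h2 : 0 < (q.dropUntil v hvs).length := by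
      rcases Nat.eq_zero_or_pos (q.dropUntil v hvs).length with h0 | h0
      · exact absurd (Walk.eq_of_length_eq_zero h0) hvb
      · exact h0
    rw [mem_ball, mem_ball]
    exact ⟨⟨q.takeUntil v hvs, by omega⟩, ⟨q.dropUntil v hvs, by omega⟩⟩

theorem card_pairs_le {A B : ℕ} (X : Finset V) (Y : V → Finset V) (hX : X.card ≤ A)
    (hY : ∀ u ∈ X, (Y u).card ≤ B) (S : Finset (V × V)) (hS : ∀ p ∈ S, p.1 ∈ X ∧ p.2 ∈ Y p.1) :
    S.card ≤ A * B := by
  have h1 : S ⊆ X.biUnion (fun u => (Y u).image (fun w => (u, w))) := by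
    intro p hp
    rw [mem_biUnion]
    refine ⟨p.1, (hS p hp).1, ?_⟩
    rw [mem_image]
    exact ⟨p.2, (hS p hp).2, rfl⟩
  calc S.card ≤ _ := Finset.card_le_card h1
    _ ≤ X.card * B := Finset.card_biUnion_le_card_mul _ _ _ (fun u hu =>
        le_trans Finset.card_image_le (hY u hu))
    _ ≤ A * B := Nat.mul_le_mul_right _ hX

theorem card_pairs_le' {A B : ℕ} (X : Finset V) (Y : V → Finset V) (hX : X.card ≤ A)
    (hY : ∀ u ∈ X, (Y u).card ≤ B) (S : Finset (V × V)) (hS : ∀ p ∈ S, p.2 ∈ X ∧ p.1 ∈ Y p.2) :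
    S.card ≤ A * B := by
  have h1 : S.card = (S.image Prod.swap).card := by
    rw [Finset.card_image_of_injective _ Prod.swap_injective]
  rw [h1]
  apply card_pairs_le X Y hX hY
  intro p hp
  rw [mem_image] at hp
  obtain ⟨q, hq, rfl⟩ := hp
  exact hS q hq

theorem chain_symm {l : List V} (h : l.IsChain G.Adj) : l.reverse.IsChain G.Adj := by
  rw [List.isChain_reverse]
  exact h.imp (fun _ _ hab => hab.symm)

/-- the family is small, otherwise there is a cycle of length `3 (s + 1) + 2 h`. -/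
theorem family_small {s d h : ℕ} (hd1 : 1 ≤ d) (hd : ∀ v, (G.neighborSet v).ncard ≤ d)
    (hcyc : ¬ HasCyc G (3 * (s + 1) + 2 * h)) (x : V) (gm : V → V → List V)
    (hgm : ∀ a b, Ex G s a b → (gm a b).length = s ∧ (a :: (gm a b ++ [b])).IsChain G.Adj ∧
      (a :: (gm a b ++ [b])).Nodup ∧ ∀ v ∈ gm a b, v ∈ ball G s a ∧ b ∈ ball G s v)
    (κ : V → Fin 3) (I : Finset (V × V))
    (hI : ∀ p ∈ I, Ex G s x p.1 ∧ Ex G s x p.2 ∧ Ex G s p.2 p.1 ∧
      (∀ v ∈ gm x p.1, κ v = 0) ∧ (∀ v ∈ gm x p.2, κ v = 1) ∧ (∀ v ∈ gm p.2 p.1, κ v = 2)) :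
    I.card ≤ 2 * ((s + 2 + 2 * h) * ((s + 2) * d ^ (s + 1) * d ^ s)) := by
  by_contra hbig
  push Not at hbig
  have hne0 : ∀ p : V × V, gm p.2 p.1 ++ [p.1] ≠ [] := by intro p; simp
  let φ : V × V → V × V × List V := fun p =>
    (p.2, (gm p.2 p.1 ++ [p.1]).head (hne0 p), (gm p.2 p.1 ++ [p.1]).tail)
  have htl : ∀ p, tl (φ p) = p.2 :: (gm p.2 p.1 ++ [p.1]) := by
    intro p
    show p.2 :: (gm p.2 p.1 ++ [p.1]).head (hne0 p) :: (gm p.2 p.1 ++ [p.1]).tail = _
    rw [List.cons_head_tail]
  have htl2 : ∀ p, (φ p).2.1 :: (φ p).2.2 = gm p.2 p.1 ++ [p.1] := by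
    intro p
    show (gm p.2 p.1 ++ [p.1]).head (hne0 p) :: (gm p.2 p.1 ++ [p.1]).tail = _
    rw [List.cons_head_tail]
  have hinj : Function.Injective φ := by
    intro p p' hpp
    have h1 := htl p
    rw [hpp, htl p'] at h1
    rw [List.cons.injEq] at h1
    have h2 : p'.1 = p.1 := by
      have := congrArg List.getLast? h1.2
      simpa using this
    exact Prod.ext h2.symm h1.1.symm
  set F := I.image φ with hF
  have hFcard : F.card = I.card := Finset.card_image_of_injective _ hinj
  have hball := ball_card hd1 hd (s + 1) x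
  have hFprop : ∀ f ∈ F, f.2.2.length = s ∧ (tl f).IsChain G.Adj ∧ (tl f).Nodup := by
    intro f hf
    rw [hF, mem_image] at hf
    obtain ⟨p, hp, rfl⟩ := hf
    have h1 := hgm p.2 p.1 (hI p hp).2.2.1
    refine ⟨?_, ?_, ?_⟩
    · simp only [φ, List.length_tail, List.length_append, List.length_cons, List.length_nil]
      omega
    · rw [htl]; exact h1.2.1
    · rw [htl]; exact h1.2.2.1
  have hA : (F.image (fun f => f.1)).card ≤ (s + 2) * d ^ (s + 1) := by
    refine le_trans (Finset.card_le_card ?_) hball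
    intro z hz
    rw [mem_image] at hz
    obtain ⟨f, hf, rfl⟩ := hz
    rw [hF, mem_image] at hf
    obtain ⟨p, hp, rfl⟩ := hf
    exact (hI p hp).2.1.1
  have hB : (F.image (fun f => f.2)).card ≤ (s + 2) * d ^ (s + 1) * d ^ s := by
    have h1 : (F.image (fun f => f.2)).card ≤
        ((ball G (s + 1) x).biUnion (fun y => (fwd G s y).image (fun r => y :: r))).card := by
      apply Finset.card_le_card_of_injOn (fun g : V × List V => (g.1 :: g.2).reverse)
      · intro g hg
        rw [mem_coe, mem_image] at hg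
        obtain ⟨f, hf, rfl⟩ := hg
        rw [hF, mem_image] at hf
        obtain ⟨p, hp, rfl⟩ := hf
        rw [mem_coe, mem_biUnion]
        refine ⟨p.1, (hI p hp).1.1, ?_⟩
        rw [mem_image]
        have h2 := hgm p.2 p.1 (hI p hp).2.2.1
        refine ⟨(gm p.2 p.1).reverse, ?_, ?_⟩
        · apply mem_fwd
          · rw [List.length_reverse]; exact h2.1
          · have h3 := chain_symm h2.2.1
            rw [List.reverse_cons, List.reverse_append, List.reverse_singleton] at h3
            simp only [List.cons_append] at h3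
            have h4 := (List.isChain_append (l₁ := p.1 :: (gm p.2 p.1).reverse) (l₂ := [p.2])).1 h3
            exact h4.1
        · show p.1 :: (gm p.2 p.1).reverse = ((φ p).2.1 :: (φ p).2.2).reverse
          rw [htl2]
          simp
      · intro g _ g' _ hgg
        have := List.reverse_injective hgg
        rw [List.cons.injEq] at this
        exact Prod.ext this.1 this.2
    refine le_trans h1 ?_
    calc _ ≤ (ball G (s + 1) x).card * d ^ s := Finset.card_biUnion_le_card_mul _ _ _ (fun y _ =>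
          le_trans Finset.card_image_le (card_fwd hd s y))
      _ ≤ _ := Nat.mul_le_mul_right _ hball
  obtain ⟨F', hF'F, ⟨f0, hf0⟩, hrA, hrB⟩ := prune (G := G) (s := s) hd (s + 2 + 2 * h)
    ((s + 2) * d ^ (s + 1)) ((s + 2) * d ^ (s + 1) * d ^ s) (by omega) F
    (fun f hf => ⟨(hFprop f hf).1, (hFprop f hf).2.1⟩) hA hB (by
      rw [hFcard]
      calc _ = 2 * ((s + 2 + 2 * h) * ((s + 2) * d ^ (s + 1) * d ^ s)) := by ring
        _ < _ := hbig) hd1
  obtain ⟨l, hne, hlen, hch, hnd, hlast, hU, f1, hf1, hf1l⟩ :=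
    build (s + 2 + 2 * h) F' (fun f hf => hFprop f (hF'F hf)) hrA hrB f0 hf0 h le_rfl
  -- unpack
  have hf0' := hF'F hf0
  rw [hF, mem_image] at hf0'
  obtain ⟨p0, hp0, hφ0⟩ := hf0'
  have hf1' := hF'F hf1
  rw [hF, mem_image] at hf1'
  obtain ⟨p1, hp1, hφ1⟩ := hf1'
  have hI0 := hI p0 hp0
  have hI1 := hI p1 hp1
  have hhead : l.head hne = p1.2 := by rw [← hf1l, ← hφ1]
  have hlast' : l.getLast hne = p0.1 := by
    rw [hlast]
    subst hφ0
    have h1 : (tl (φ p0)).getLast? = some p0.1 := by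
      rw [htl p0]; simp [List.getLast?_cons]
    have h2 := List.getLast?_eq_some_getLast (l := tl (φ p0)) (List.cons_ne_nil _ _)
    rw [h2] at h1
    exact Option.some.inj h1
  have g1 := hgm x p1.2 hI1.2.1
  have g0 := hgm x p0.1 hI0.1
  have hlmem : ∀ v ∈ l, v ≠ x ∧ (κ v = 2 ∨ v ∉ ball G s x) := by
    intro v hv
    obtain ⟨f, hf, hvf⟩ := hU v hv
    have hf' := hF'F hf
    rw [hF, mem_image] at hf'
    obtain ⟨p, hp, rfl⟩ := hf'
    have hIp := hI p hp
    rw [htl, List.mem_cons, List.mem_append, List.mem_singleton] at hvf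
    have hxb : x ∈ ball G s x := by rw [mem_ball]; exact ⟨Walk.nil, by simp⟩
    rcases hvf with rfl | hvf | rfl
    · refine ⟨?_, Or.inr hIp.2.1.2⟩
      intro h
      apply hIp.2.1.2
      rw [h]; exact hxb
    · refine ⟨?_, Or.inl (hIp.2.2.2.2.2 v hvf)⟩
      intro hvx
      have := ((hgm p.2 p.1 hIp.2.2.1).2.2.2 v hvf).1
      rw [hvx, mem_ball_comm] at this
      exact hIp.2.1.2 this
    · refine ⟨?_, Or.inr hIp.1.2⟩
      intro h
      apply hIp.1.2
      rw [h]; exact hxb
  -- the cycle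
  set X3 := (gm x p0.1).reverse with hX3
  have hX3chain : (p0.1 :: (X3 ++ [x])).IsChain G.Adj := by
    have h3 := chain_symm g0.2.1
    rw [List.reverse_cons, List.reverse_append, List.reverse_singleton] at h3
    simpa using h3
  rw [List.isChain_cons] at hX3chain
  have hch1 : (x :: gm x p1.2 ++ [p1.2]).IsChain G.Adj := g1.2.1
  rw [List.isChain_append] at hch1
  have hbigchain : ((x :: gm x p1.2) ++ (l ++ (X3 ++ [x]))).IsChain G.Adj := by
    rw [List.isChain_append]
    refine ⟨hch1.1, ?_, ?_⟩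
    · rw [List.isChain_append]
      refine ⟨hch, hX3chain.2, ?_⟩
      intro a ha b hb
      rw [List.getLast?_eq_some_getLast hne, Option.mem_some_iff, hlast'] at ha
      subst ha
      exact hX3chain.1 b hb
    · intro a ha b hb
      have hb' : b = p1.2 := by
        rw [List.head?_append_of_ne_nil _ hne, List.head?_eq_some_head hne, Option.mem_some_iff, hhead] at hb
        exact hb.symm
      subst hb'
      exact hch1.2.2 a ha _ (by simp)
  set Cyc : List V := (x :: gm x p1.2) ++ (l ++ X3) with hCyc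
  have hCx : (Cyc ++ [x]).IsChain G.Adj := by
    have : Cyc ++ [x] = (x :: gm x p1.2) ++ (l ++ (X3 ++ [x])) := by
      rw [hCyc]; simp
    rw [this]; exact hbigchain
  rw [List.isChain_append] at hCx
  have hCne : Cyc ≠ [] := by rw [hCyc]; simp
  have hhd : Cyc.head hCne = x := by simp [hCyc]
  have hclose : G.Adj (Cyc.getLast hCne) (Cyc.head hCne) := by
    rw [hhd]
    exact hCx.2.2 _ (by rw [List.getLast?_eq_some_getLast hCne]; rfl) x (by simp)
  have hg1nd := g1.2.2.1
  have hg0nd := g0.2.2.1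
  have hnodup : Cyc.Nodup := by
    rw [hCyc, List.nodup_append, List.nodup_append]
    rw [List.nodup_cons] at hg1nd hg0nd
    refine ⟨?_, ⟨hnd, ?_, ?_⟩, ?_⟩
    · rw [List.nodup_cons]
      exact ⟨fun h => hg1nd.1 (by simp [h]), (List.nodup_append.1 hg1nd.2).1⟩
    · rw [hX3, List.nodup_reverse]
      exact (List.nodup_append.1 hg0nd.2).1
    · intro a ha b hb hab
      subst hab
      rw [hX3, List.mem_reverse] at hb
      have h1 := hI0.2.2.2.1 a hb
      have h2 := (g0.2.2.2 a hb).1
      rcases (hlmem a ha).2 with h3 | h3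
      · rw [h1] at h3; exact absurd h3 (by decide)
      · exact h3 h2
    · intro a ha b hb hab
      subst hab
      rw [List.mem_cons] at ha
      rw [List.mem_append, hX3, List.mem_reverse] at hb
      rcases ha with rfl | ha
      · rcases hb with hb | hb
        · exact (hlmem _ hb).1 rfl
        · exact hg0nd.1 (by simp [hb])
      · have h1 := hI1.2.2.2.2.1 a ha
        have h2 := (g1.2.2.2 a ha).1
        rcases hb with hb | hb
        · rcases (hlmem a hb).2 with h3 | h3
          · rw [h1] at h3; exact absurd h3 (by decide)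
          · exact h3 h2
        · have h3 := hI0.2.2.2.1 a hb
          rw [h1] at h3; exact absurd h3 (by decide)
  have hlenC : Cyc.length = 3 * (s + 1) + 2 * h := by
    rw [hCyc, hX3]
    simp only [List.length_append, List.length_cons, List.length_reverse]
    have := g1.1
    have := g0.1
    omega
  apply hcyc
  rw [← hlenC]
  exact hasCyc_of_list Cyc hCne hCx.1 hnodup (by omega) hclose

/-- **Neighbourhoods of `G^t` are sparse.** -/
theorem local_sparse {s d h : ℕ} (hd1 : 1 ≤ d) (hd : ∀ v, (G.neighborSet v).ncard ≤ d)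
    (hcyc : ¬ HasCyc G (3 * (s + 1) + 2 * h)) (x : V) :
    ∑ u ∈ univ.filter (fun u => (Pw G (s + 1)).Adj x u),
      (univ.filter (fun w => (Pw G (s + 1)).Adj x w ∧ (Pw G (s + 1)).Adj u w)).card ≤
    ((3 + 2 * s) * ((s + 1) * (s + 2)) + 3 ^ (3 * s) * (2 * ((s + 2 + 2 * h) * (s + 2)))) *
      d ^ (2 * s + 1) := by
  have hex : ∀ a b : V, ∃ m : List V, Ex G s a b → (m.length = s ∧ (a :: (m ++ [b])).IsChain G.Adj ∧
      (a :: (m ++ [b])).Nodup ∧ ∀ v ∈ m, v ∈ ball G s a ∧ b ∈ ball G s v) := by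
    intro a b
    by_cases hab : Ex G s a b
    · obtain ⟨m, hm⟩ := geo hab
      exact ⟨m, fun _ => hm⟩
    · exact ⟨[], fun h => absurd h hab⟩
  choose gm hgm using hex
  have hballT := ball_card hd1 hd (s + 1) x
  have hballS : ∀ v, (ball G s v).card ≤ (s + 1) * d ^ s := fun v => ball_card hd1 hd s v
  set P : Finset (V × V) := univ.filter (fun p => (Pw G (s + 1)).Adj x p.1 ∧
    (Pw G (s + 1)).Adj x p.2 ∧ (Pw G (s + 1)).Adj p.1 p.2) with hP
  have hsum : ∑ u ∈ univ.filter (fun u => (Pw G (s + 1)).Adj x u),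
      (univ.filter (fun w => (Pw G (s + 1)).Adj x w ∧ (Pw G (s + 1)).Adj u w)).card = P.card := by
    rw [← Finset.card_sigma]
    apply Finset.card_nbij' (fun p => (p.1, p.2)) (fun p => (⟨p.1, p.2⟩ : Σ _ : V, V))
    · rintro ⟨u, w⟩ hp
      simp only [mem_coe, mem_sigma, mem_filter, mem_univ, true_and, hP] at hp ⊢
      exact ⟨hp.1, hp.2.1, hp.2.2⟩
    · rintro ⟨u, w⟩ hp
      simp only [mem_coe, mem_sigma, mem_filter, mem_univ, true_and, hP] at hp ⊢
      exact ⟨hp.1, hp.2.1, hp.2.2⟩
    · intro _ _; rfl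
    · intro _ _; rfl
  rw [hsum]
  have hPball : ∀ p ∈ P, p.1 ∈ ball G (s + 1) x ∧ p.2 ∈ ball G (s + 1) x ∧ p.2 ∈ ball G (s + 1) p.1 := by
    intro p hp
    simp only [hP, mem_filter, mem_univ, true_and, pw_adj] at hp
    rw [mem_ball, mem_ball, mem_ball]
    exact ⟨hp.1.2, hp.2.1.2, hp.2.2.2⟩
  set Z := (s + 2) * d ^ (s + 1) * ((s + 1) * d ^ s) with hZ
  -- degenerate pairs
  set P1 := P.filter (fun p => p.1 ∈ ball G s x) with hP1
  set P2 := P.filter (fun p => p.2 ∈ ball G s x) with hP2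
  set P3 := P.filter (fun p => p.2 ∈ ball G s p.1) with hP3
  have c1 : P1.card ≤ Z := by
    apply card_pairs_le' (ball G (s + 1) x) (fun _ => ball G s x) hballT (fun _ _ => hballS x)
    intro p hp
    rw [hP1, mem_filter] at hp
    exact ⟨(hPball p hp.1).2.1, hp.2⟩
  have c2 : P2.card ≤ Z := by
    apply card_pairs_le (ball G (s + 1) x) (fun _ => ball G s x) hballT (fun _ _ => hballS x)
    intro p hp
    rw [hP2, mem_filter] at hp
    exact ⟨(hPball p hp.1).1, hp.2⟩
  have c3 : P3.card ≤ Z := by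
    apply card_pairs_le (ball G (s + 1) x) (fun u => ball G s u) hballT (fun u _ => hballS u)
    intro p hp
    rw [hP3, mem_filter] at hp
    exact ⟨(hPball p hp.1).1, hp.2⟩
  -- exact pairs
  set A := P.filter (fun p => Ex G s x p.1 ∧ Ex G s x p.2 ∧ Ex G s p.2 p.1) with hA
  have hcover : P ⊆ P1 ∪ (P2 ∪ (P3 ∪ A)) := by
    intro p hp
    have hb := hPball p hp
    simp only [mem_union, hP1, hP2, hP3, hA, mem_filter]
    by_cases h1 : p.1 ∈ ball G s x
    · exact Or.inl ⟨hp, h1⟩
    · by_cases h2 : p.2 ∈ ball G s x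
      · exact Or.inr (Or.inl ⟨hp, h2⟩)
      · by_cases h3 : p.2 ∈ ball G s p.1
        · exact Or.inr (Or.inr (Or.inl ⟨hp, h3⟩))
        · refine Or.inr (Or.inr (Or.inr ⟨hp, ⟨hb.1, h1⟩, ⟨hb.2.1, h2⟩, ?_⟩))
          exact ⟨mem_ball_comm.1 hb.2.2, fun h => h3 (mem_ball_comm.1 h)⟩
  -- non generic pairs
  set N1 := A.filter (fun p => ∃ v ∈ gm x p.1, v ∈ gm x p.2 ∨ v ∈ gm p.2 p.1) with hN1
  set N2 := A.filter (fun p => ∃ v ∈ gm x p.2, v ∈ gm p.2 p.1) with hN2
  have hAprop : ∀ p ∈ A, p.1 ∈ ball G (s + 1) x ∧ p.2 ∈ ball G (s + 1) x ∧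
      Ex G s x p.1 ∧ Ex G s x p.2 ∧ Ex G s p.2 p.1 := by
    intro p hp
    rw [hA, mem_filter] at hp
    exact ⟨(hPball p hp.1).1, (hPball p hp.1).2.1, hp.2⟩
  set X' := (ball G (s + 1) x).filter (fun y => Ex G s x y) with hX'
  have hX'card : X'.card ≤ (s + 2) * d ^ (s + 1) :=
    le_trans (Finset.card_le_card (Finset.filter_subset _ _)) hballT
  have hYcard : ∀ u ∈ X', (((gm x u).toFinset).biUnion (fun v => ball G s v)).card ≤
      s * ((s + 1) * d ^ s) := by
    intro u hu
    rw [hX', mem_filter] at hu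
    calc _ ≤ ((gm x u).toFinset).card * ((s + 1) * d ^ s) :=
          Finset.card_biUnion_le_card_mul _ _ _ (fun v _ => hballS v)
      _ ≤ s * ((s + 1) * d ^ s) := by
          apply Nat.mul_le_mul_right
          exact le_trans (List.toFinset_card_le _) (le_of_eq (hgm x u hu.2).1)
  have n1 : N1.card ≤ s * Z := by
    have := card_pairs_le X' (fun u => ((gm x u).toFinset).biUnion (fun v => ball G s v)) hX'card
      hYcard N1 (by
        intro p hp
        rw [hN1, mem_filter] at hp
        obtain ⟨hpA, v, hv, hv2⟩ := hp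
        have hap := hAprop p hpA
        refine ⟨mem_filter.2 ⟨hap.1, hap.2.2.1⟩, ?_⟩
        rw [mem_biUnion]
        refine ⟨v, List.mem_toFinset.2 hv, ?_⟩
        rcases hv2 with hv2 | hv2
        · exact ((hgm x p.2 hap.2.2.2.1).2.2.2 v hv2).2
        · exact mem_ball_comm.1 ((hgm p.2 p.1 hap.2.2.2.2).2.2.2 v hv2).1)
    calc N1.card ≤ _ := this
      _ = s * Z := by rw [hZ]; ring
  have n2 : N2.card ≤ s * Z := by
    have := card_pairs_le' X' (fun u => ((gm x u).toFinset).biUnion (fun v => ball G s v)) hX'card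
      hYcard N2 (by
        intro p hp
        rw [hN2, mem_filter] at hp
        obtain ⟨hpA, v, hv, hv2⟩ := hp
        have hap := hAprop p hpA
        refine ⟨mem_filter.2 ⟨hap.2.1, hap.2.2.2.1⟩, ?_⟩
        rw [mem_biUnion]
        refine ⟨v, List.mem_toFinset.2 hv, ?_⟩
        exact ((hgm p.2 p.1 hap.2.2.2.2).2.2.2 v hv2).2)
    calc N2.card ≤ _ := this
      _ = s * Z := by rw [hZ]; ring
  set I := A.filter (fun p => (¬ ∃ v ∈ gm x p.1, v ∈ gm x p.2 ∨ v ∈ gm p.2 p.1) ∧
    ¬ ∃ v ∈ gm x p.2, v ∈ gm p.2 p.1) with hI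
  have hAcover : A ⊆ N1 ∪ (N2 ∪ I) := by
    intro p hp
    simp only [mem_union, hN1, hN2, hI, mem_filter]
    by_cases h1 : ∃ v ∈ gm x p.1, v ∈ gm x p.2 ∨ v ∈ gm p.2 p.1
    · exact Or.inl ⟨hp, h1⟩
    · by_cases h2 : ∃ v ∈ gm x p.2, v ∈ gm p.2 p.1
      · exact Or.inr (Or.inl ⟨hp, h2⟩)
      · exact Or.inr (Or.inr ⟨hp, h1, h2⟩)
  -- colouring
  let Pf : V × V → Fin 3 → Finset V := fun p k => if k = 0 then (gm x p.1).toFinset else
    if k = 1 then (gm x p.2).toFinset else (gm p.2 p.1).toFinset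
  have Pf0 : ∀ p, Pf p 0 = (gm x p.1).toFinset := fun p => by simp [Pf]
  have Pf1 : ∀ p, Pf p 1 = (gm x p.2).toFinset := fun p => by simp [Pf]
  have Pf2 : ∀ p, Pf p 2 = (gm p.2 p.1).toFinset := fun p => by simp [Pf]
  obtain ⟨κ, hκ⟩ := exists_colouring I Pf s (by
      intro p hp k
      rw [hI, mem_filter] at hp
      have hap := hAprop p hp.1
      simp only [Pf]
      split_ifs
      · exact le_trans (List.toFinset_card_le _) (le_of_eq (hgm _ _ hap.2.2.1).1)
      · exact le_trans (List.toFinset_card_le _) (le_of_eq (hgm _ _ hap.2.2.2.1).1)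
      · exact le_trans (List.toFinset_card_le _) (le_of_eq (hgm _ _ hap.2.2.2.2).1)) (by
      intro p hp k k' hkk
      rw [hI, mem_filter] at hp
      obtain ⟨_, h1, h2⟩ := hp
      push Not at h1 h2
      have d01 : Disjoint (gm x p.1).toFinset (gm x p.2).toFinset := by
        rw [Finset.disjoint_left]
        intro v hv hv'
        exact (h1 v (List.mem_toFinset.1 hv)).1 (List.mem_toFinset.1 hv')
      have d02 : Disjoint (gm x p.1).toFinset (gm p.2 p.1).toFinset := by
        rw [Finset.disjoint_left]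
        intro v hv hv'
        exact (h1 v (List.mem_toFinset.1 hv)).2 (List.mem_toFinset.1 hv')
      have d12 : Disjoint (gm x p.2).toFinset (gm p.2 p.1).toFinset := by
        rw [Finset.disjoint_left]
        intro v hv hv'
        exact h2 v (List.mem_toFinset.1 hv) (List.mem_toFinset.1 hv')
      obtain rfl | rfl | rfl : k = 0 ∨ k = 1 ∨ k = 2 := by fin_cases k <;> simp
      · obtain rfl | rfl | rfl : k' = 0 ∨ k' = 1 ∨ k' = 2 := by fin_cases k' <;> simp
        · exact absurd rfl hkk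
        · rw [Pf0, Pf1]; exact d01
        · rw [Pf0, Pf2]; exact d02
      · obtain rfl | rfl | rfl : k' = 0 ∨ k' = 1 ∨ k' = 2 := by fin_cases k' <;> simp
        · rw [Pf0, Pf1]; exact d01.symm
        · exact absurd rfl hkk
        · rw [Pf1, Pf2]; exact d12
      · obtain rfl | rfl | rfl : k' = 0 ∨ k' = 1 ∨ k' = 2 := by fin_cases k' <;> simp
        · rw [Pf0, Pf2]; exact d02.symm
        · rw [Pf1, Pf2]; exact d12.symm
        · exact absurd rfl hkk)
  have hfam := family_small hd1 hd hcyc x gm hgm κ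
      (I.filter (fun i => ∀ k, ∀ v ∈ Pf i k, κ v = k)) (fun p hp => by
    rw [mem_filter] at hp
    obtain ⟨hp1, hp2⟩ := hp
    rw [hI, mem_filter] at hp1
    have hap := hAprop p hp1.1
    refine ⟨hap.2.2.1, hap.2.2.2.1, hap.2.2.2.2, ?_, ?_, ?_⟩
    · intro v hv
      exact hp2 0 v (by rw [Pf0]; exact List.mem_toFinset.2 hv)
    · intro v hv
      exact hp2 1 v (by rw [Pf1]; exact List.mem_toFinset.2 hv)
    · intro v hv
      exact hp2 2 v (by rw [Pf2]; exact List.mem_toFinset.2 hv))
  have hIcard : I.card ≤ 3 ^ (3 * s) * (2 * ((s + 2 + 2 * h) * ((s + 2) * d ^ (s + 1) * d ^ s))) :=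
    le_trans hκ (Nat.mul_le_mul_left _ hfam)
  have hAc : A.card ≤ s * Z + (s * Z + I.card) := by
    calc A.card ≤ _ := Finset.card_le_card hAcover
      _ ≤ N1.card + (N2 ∪ I).card := Finset.card_union_le _ _
      _ ≤ N1.card + (N2.card + I.card) := by
          have := Finset.card_union_le N2 I
          omega
      _ ≤ _ := by omega
  have hPc : P.card ≤ Z + (Z + (Z + A.card)) := by
    calc P.card ≤ _ := Finset.card_le_card hcover
      _ ≤ P1.card + (P2 ∪ (P3 ∪ A)).card := Finset.card_union_le _ _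
      _ ≤ P1.card + (P2.card + (P3 ∪ A).card) := by
          have := Finset.card_union_le P2 (P3 ∪ A)
          omega
      _ ≤ P1.card + (P2.card + (P3.card + A.card)) := by
          have := Finset.card_union_le P3 A
          omega
      _ ≤ _ := by omega
  have hpow : d ^ (2 * s + 1) = d ^ (s + 1) * d ^ s := by rw [← pow_add]; congr 1; ring
  calc P.card ≤ Z + (Z + (Z + (s * Z + (s * Z + 3 ^ (3 * s) *
        (2 * ((s + 2 + 2 * h) * ((s + 2) * d ^ (s + 1) * d ^ s))))))) := by omega
    _ = _ := by rw [hpow, hZ]; ring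

end Pool.Agent.H90.DC
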