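import Mathlib

/-! Rosenfeld counting: locally sparse graphs have chromatic number `O(Δ / log)`. -/

set_option autoImplicit false
set_option linter.unusedSectionVars false

namespace Pool.Agent.H90.DC.Sparse

open SimpleGraph Finset
open scoped Classical

variable {V : Type*} [Fintype V] (H : SimpleGraph V) (q : ℕ) [NeZero q]

/-- proper colourings of `H[S]`, extended by `0` outside `S`. -/
noncomputable def Col (S : Finset V) : Finset (V → Fin q) :=
  univ.filter (fun c => (∀ v, v ∉ S → c v = 0) ∧ ∀ u ∈ S, ∀ v ∈ S, H.Adj u v → c u ≠ c v)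

/-- colours available at `v` given the colours on `S`. -/
noncomputable def av (c : V → Fin q) (S : Finset V) (v : V) : Finset (Fin q) :=
  univ.filter (fun x => ∀ u ∈ S, H.Adj v u → c u ≠ x)

variable {q}

theorem mem_Col {S : Finset V} {c : V → Fin q} :
    c ∈ Col H q S ↔ (∀ v, v ∉ S → c v = 0) ∧ ∀ u ∈ S, ∀ v ∈ S, H.Adj u v → c u ≠ c v := by
  simp [Col]

theorem mem_av {c : V → Fin q} {S : Finset V} {v : V} {x : Fin q} :
    x ∈ av H q c S v ↔ ∀ u ∈ S, H.Adj v u → c u ≠ x := by
  simp [av]

theorem av_congr {c c' : V → Fin q} {S : Finset V} {v : V} (h : ∀ u ∈ S, c u = c' u) :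
    av H q c S v = av H q c' S v := by
  ext x
  rw [mem_av, mem_av]
  constructor
  · intro h1 u hu hv
    rw [← h u hu]; exact h1 u hu hv
  · intro h1 u hu hv
    rw [h u hu]; exact h1 u hu hv

theorem av_anti {c : V → Fin q} {S T : Finset V} {v : V} (h : S ⊆ T) :
    av H q c T v ⊆ av H q c S v := by
  intro x hx
  rw [mem_av] at hx ⊢
  exact fun u hu hv => hx u (h hu) hv

theorem update_mem_Col {S : Finset V} {v : V} (hv : v ∉ S) {c : V → Fin q} (hc : c ∈ Col H q S)
    {x : Fin q} (hx : x ∈ av H q c S v) : Function.update c v x ∈ Col H q (insert v S) := by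
  rw [mem_Col] at hc ⊢
  rw [mem_av] at hx
  refine ⟨?_, ?_⟩
  · intro w hw
    simp only [mem_insert, not_or] at hw
    rw [Function.update_of_ne hw.1]
    exact hc.1 w hw.2
  · intro a ha b hb hab
    by_cases hav : a = v
    · subst hav
      have hba : b ≠ a := hab.ne'
      rw [Function.update_self, Function.update_of_ne hba]
      have hb' : b ∈ S := by simpa [hba] using hb
      exact (hx b hb' hab).symm
    · by_cases hbv : b = v
      · subst hbv
        rw [Function.update_self, Function.update_of_ne hav]
        have ha' : a ∈ S := by simpa [hav] using ha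
        exact hx a ha' hab.symm
      · rw [Function.update_of_ne hav, Function.update_of_ne hbv]
        have ha' : a ∈ S := by simpa [hav] using ha
        have hb' : b ∈ S := by simpa [hbv] using hb
        exact hc.2 a ha' b hb' hab

theorem erase_mem_Col {S : Finset V} {v : V} (hv : v ∈ S) {c : V → Fin q} (hc : c ∈ Col H q S) :
    Function.update c v 0 ∈ Col H q (S.erase v) ∧
      c v ∈ av H q (Function.update c v 0) (S.erase v) v := by
  rw [mem_Col] at hc ⊢
  rw [mem_av]
  refine ⟨⟨?_, ?_⟩, ?_⟩
  · intro w hw
    by_cases hwv : w = v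
    · subst hwv; simp
    · rw [Function.update_of_ne hwv]
      exact hc.1 w (fun h => hw (mem_erase.2 ⟨hwv, h⟩))
  · intro a ha b hb hab
    rw [mem_erase] at ha hb
    rw [Function.update_of_ne ha.1, Function.update_of_ne hb.1]
    exact hc.2 a ha.2 b hb.2 hab
  · intro u hu huv
    rw [mem_erase] at hu
    rw [Function.update_of_ne hu.1]
    exact (hc.2 v hv u hu.2 huv).symm

theorem card_Col_insert {S : Finset V} {v : V} (hv : v ∉ S) :
    (Col H q (insert v S)).card = ∑ c ∈ Col H q S, (av H q c S v).card := by
  rw [← Finset.card_sigma]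
  symm
  apply Finset.card_nbij' (fun p => Function.update p.1 v p.2)
    (fun c => (⟨Function.update c v 0, c v⟩ : Σ _ : V → Fin q, Fin q))
  · rintro ⟨c, x⟩ hcx
    simp only [mem_coe, mem_sigma] at hcx ⊢
    exact update_mem_Col H hv hcx.1 hcx.2
  · intro c hc
    simp only [mem_coe, mem_sigma] at hc ⊢
    have := erase_mem_Col H (mem_insert_self v S) hc
    rw [erase_insert hv] at this
    exact this
  · rintro ⟨c, x⟩ hcx
    simp only [mem_coe, mem_sigma] at hcx
    have h0 : c v = 0 := ((mem_Col H).1 hcx.1).1 v hv
    simp only [Function.update_idem, Function.update_self, Sigma.mk.injEq, heq_eq_eq, and_true]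
    rw [← h0]
    exact Function.update_eq_self v c
  · intro c hc
    simp

/-- number of colourings with few available colours at `u`. -/
theorem card_small_av {S : Finset V} {u : V} (hu : u ∈ S) (L : ℝ) (hL : 0 ≤ L) :
    (((Col H q S).filter (fun c => ((av H q c (S.erase u) u).card : ℝ) ≤ L)).card : ℝ) ≤
      L * (Col H q (S.erase u)).card := by
  have h1 : ((Col H q S).filter (fun c => ((av H q c (S.erase u) u).card : ℝ) ≤ L)).card ≤
      (((Col H q (S.erase u)).filter (fun c => ((av H q c (S.erase u) u).card : ℝ) ≤ L)).sigma
        (fun c => av H q c (S.erase u) u)).card := by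
    apply Finset.card_le_card_of_injOn
      (fun c => (⟨Function.update c u 0, c u⟩ : Σ _ : V → Fin q, Fin q))
    · intro c hc
      simp only [mem_coe, mem_filter, mem_sigma] at hc ⊢
      have h2 := erase_mem_Col H hu hc.1
      have h3 : av H q (Function.update c u 0) (S.erase u) u = av H q c (S.erase u) u := by
        apply av_congr
        intro w hw
        rw [Function.update_of_ne (mem_erase.1 hw).1]
      exact ⟨⟨h2.1, by rw [h3]; exact hc.2⟩, h2.2⟩
    · intro c _ c' _ h
      simp only [Sigma.mk.injEq, heq_eq_eq] at h
      have : Function.update (Function.update c u 0) u (c u) =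
          Function.update (Function.update c' u 0) u (c' u) := by rw [h.1, h.2]
      simpa using this
  rw [Finset.card_sigma] at h1
  have h2 : ((∑ c ∈ (Col H q (S.erase u)).filter
      (fun c => ((av H q c (S.erase u) u).card : ℝ) ≤ L), (av H q c (S.erase u) u).card : ℕ) : ℝ) ≤
      ∑ c ∈ (Col H q (S.erase u)).filter
      (fun c => ((av H q c (S.erase u) u).card : ℝ) ≤ L), L := by
    push_cast
    apply Finset.sum_le_sum
    intro c hc
    exact (mem_filter.1 hc).2
  calc (((Col H q S).filter (fun c => ((av H q c (S.erase u) u).card : ℝ) ≤ L)).card : ℝ)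
        ≤ _ := by exact_mod_cast h1
      _ ≤ _ := h2
      _ = (((Col H q (S.erase u)).filter
            (fun c => ((av H q c (S.erase u) u).card : ℝ) ≤ L)).card : ℝ) * L := by
          rw [Finset.sum_const, nsmul_eq_mul]
      _ ≤ ((Col H q (S.erase u)).card : ℝ) * L := by
          apply mul_le_mul_of_nonneg_right _ hL
          exact_mod_cast Finset.card_filter_le _ _
      _ = _ := mul_comm _ _

/-- sequential resampling: the proportion of a class avoiding the colour `x` on `M`. -/
theorem class_bound (S : Finset V) (K : Finset (V → Fin q)) (M : Finset V) (R : V → Finset (Fin q))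
    (m : V → ℝ) (hm : ∀ u ∈ M, 1 ≤ m u)
    (hR : ∀ c ∈ K, ∀ u ∈ M, c u ∈ R u)
    (hcl : ∀ c ∈ K, ∀ u ∈ M, ∀ y ∈ av H q c (S.erase u) u, Function.update c u y ∈ K)
    (hav : ∀ c ∈ K, ∀ u ∈ M, m u ≤ ((av H q c (S.erase u) u).card : ℝ)) (x : Fin q) :
    (K.card : ℝ) * ∏ u ∈ M, (if x ∈ R u then (1 - 1 / m u) else 1) ≤
      ((K.filter (fun c => ∀ u ∈ M, c u ≠ x)).card : ℝ) := by
  have key : ∀ T : Finset V, T ⊆ M →
      (K.card : ℝ) * ∏ u ∈ T, (if x ∈ R u then (1 - 1 / m u) else 1) ≤
      ((K.filter (fun c => ∀ u ∈ T, c u ≠ x)).card : ℝ) := by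
    intro T
    induction T using Finset.induction_on with
    | empty => intro _; simp
    | insert u T huT ih =>
      intro hT
      have hu : u ∈ M := hT (mem_insert_self u T)
      have hTM : T ⊆ M := fun w hw => hT (mem_insert_of_mem hw)
      have ih := ih hTM
      rw [Finset.prod_insert huT]
      -- split
      have hsplit : ((K.filter (fun c => ∀ w ∈ T, c w ≠ x)).card : ℝ) =
          ((K.filter (fun c => ∀ w ∈ insert u T, c w ≠ x)).card : ℝ) +
          (((K.filter (fun c => ∀ w ∈ T, c w ≠ x)).filter (fun c => c u = x)).card : ℝ) := by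
        rw [← Nat.cast_add]
        congr 1
        rw [← Finset.card_filter_add_card_filter_not (s := K.filter (fun c => ∀ w ∈ T, c w ≠ x))
          (fun c => c u ≠ x)]
        congr 1
        · rw [Finset.filter_filter]
          congr 1
          apply Finset.filter_congr
          intro c _
          simp only [mem_insert, forall_eq_or_imp]
          tauto
        · congr 1
          apply Finset.filter_congr
          intro c _
          simp
      by_cases hx : x ∈ R u
      · rw [if_pos hx]
        have hcount : m u * (((K.filter (fun c => ∀ w ∈ T, c w ≠ x)).filter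
            (fun c => c u = x)).card : ℝ) ≤ ((K.filter (fun c => ∀ w ∈ T, c w ≠ x)).card : ℝ) := by
          set K1 := (K.filter (fun c => ∀ w ∈ T, c w ≠ x)).filter (fun c => c u = x) with hK1
          have h1 : (K1.sigma (fun c => av H q c (S.erase u) u)).card ≤
              (K.filter (fun c => ∀ w ∈ T, c w ≠ x)).card := by
            apply Finset.card_le_card_of_injOn (fun p => Function.update p.1 u p.2)
            · rintro ⟨c, y⟩ hcy
              simp only [mem_coe, mem_sigma, hK1, mem_filter] at hcy ⊢
              refine ⟨hcl c hcy.1.1.1 u hu y hcy.2, ?_⟩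
              intro w hw
              have hwu : w ≠ u := fun h => huT (h ▸ hw)
              rw [Function.update_of_ne hwu]
              exact hcy.1.1.2 w hw
            · rintro ⟨c, y⟩ hcy ⟨c', y'⟩ hcy' h
              simp only [mem_coe, mem_sigma, hK1, mem_filter] at hcy hcy' h
              have hy : y = y' := by
                have := congrFun h u
                simpa using this
              subst hy
              have hc : c = c' := by
                have : Function.update (Function.update c u y) u x =
                  Function.update (Function.update c' u y) u x := by rw [h]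
                rw [Function.update_idem, Function.update_idem] at this
                have e1 : Function.update c u x = c := by
                  rw [← hcy.1.2]; exact Function.update_eq_self u c
                have e2 : Function.update c' u x = c' := by
                  rw [← hcy'.1.2]; exact Function.update_eq_self u c'
                rw [e1, e2] at this
                exact this
              subst hc
              rfl
          rw [Finset.card_sigma] at h1
          have h2 : m u * (K1.card : ℝ) ≤ ((∑ c ∈ K1, (av H q c (S.erase u) u).card : ℕ) : ℝ) := by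
            push_cast
            rw [mul_comm, ← nsmul_eq_mul]
            apply Finset.card_nsmul_le_sum
            intro c hc
            apply hav c _ u hu
            simp only [hK1, mem_filter] at hc
            exact hc.1.1
          exact le_trans h2 (by exact_mod_cast h1)
        have hm1 := hm u hu
        have hmpos : 0 < m u := by linarith
        have hle : (((K.filter (fun c => ∀ w ∈ T, c w ≠ x)).filter
            (fun c => c u = x)).card : ℝ) ≤
            ((K.filter (fun c => ∀ w ∈ T, c w ≠ x)).card : ℝ) * (1 / m u) := by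
          rw [mul_one_div, le_div_iff₀ hmpos, mul_comm]
          exact hcount
        have hnn : 0 ≤ 1 - 1 / m u := by
          rw [sub_nonneg, div_le_one hmpos]; exact hm1
        calc (K.card : ℝ) * ((1 - 1 / m u) * ∏ w ∈ T, (if x ∈ R w then (1 - 1 / m w) else 1))
            = (1 - 1 / m u) * ((K.card : ℝ) * ∏ w ∈ T, (if x ∈ R w then (1 - 1 / m w) else 1)) := by
              ring
          _ ≤ (1 - 1 / m u) * ((K.filter (fun c => ∀ w ∈ T, c w ≠ x)).card : ℝ) :=
              mul_le_mul_of_nonneg_left ih hnn
          _ ≤ ((K.filter (fun c => ∀ w ∈ insert u T, c w ≠ x)).card : ℝ) := by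
              linarith
      · rw [if_neg hx, one_mul]
        have h0 : ((K.filter (fun c => ∀ w ∈ T, c w ≠ x)).filter (fun c => c u = x)) = ∅ := by
          apply Finset.filter_eq_empty_iff.2
          intro c hc hcu
          apply hx
          rw [← hcu]
          exact hR c (mem_filter.1 hc).1 u hu
        rw [h0] at hsplit
        simp only [card_empty, Nat.cast_zero, add_zero] at hsplit
        rw [← hsplit]
        exact ih
  exact key M (Finset.Subset.refl M)

/-- `Σ_{x ∈ X} exp(-w x) ≥ |X| exp(-a)` if `Σ w ≤ a |X|`. -/
theorem sum_exp_ge {ι : Type*} (X : Finset ι) (w : ι → ℝ) (a : ℝ)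
    (h : ∑ x ∈ X, w x ≤ a * X.card) :
    (X.card : ℝ) * Real.exp (-a) ≤ ∑ x ∈ X, Real.exp (-(w x)) := by
  have h1 : ∀ x ∈ X, Real.exp (-a) * (1 - (w x - a)) ≤ Real.exp (-(w x)) := by
    intro x _
    have h2 : Real.exp (-(w x)) = Real.exp (-a) * Real.exp (-(w x - a)) := by
      rw [← Real.exp_add]; congr 1; ring
    rw [h2]
    apply mul_le_mul_of_nonneg_left _ (Real.exp_pos _).le
    have := Real.add_one_le_exp (-(w x - a))
    linarith
  calc (X.card : ℝ) * Real.exp (-a)
      ≤ Real.exp (-a) * (X.card - (∑ x ∈ X, w x - a * X.card)) := by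
        have := (Real.exp_pos (-a)).le
        nlinarith
    _ = ∑ x ∈ X, Real.exp (-a) * (1 - (w x - a)) := by
        rw [← Finset.mul_sum]
        congr 1
        simp only [Finset.sum_sub_distrib, Finset.sum_const, nsmul_eq_mul, mul_one]
        ring
    _ ≤ _ := Finset.sum_le_sum h1

theorem one_sub_ge_exp (y : ℝ) (h0 : 0 ≤ y) (h1 : y ≤ 1 / 2) : Real.exp (-(2 * y)) ≤ 1 - y := by
  have h2 : Real.exp (-(2 * y)) * Real.exp (2 * y) = 1 := by
    rw [← Real.exp_add]; simp
  have h3 : 1 + 2 * y ≤ Real.exp (2 * y) := by
    have := Real.add_one_le_exp (2 * y); linarith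
  have h4 : 0 < Real.exp (-(2 * y)) := Real.exp_pos _
  have h5 : Real.exp (-(2 * y)) * (1 + 2 * y) ≤ 1 := by
    calc Real.exp (-(2 * y)) * (1 + 2 * y) ≤ Real.exp (-(2 * y)) * Real.exp (2 * y) :=
        mul_le_mul_of_nonneg_left h3 h4.le
      _ = 1 := h2
  have h6 : 1 ≤ (1 - y) * (1 + 2 * y) := by nlinarith
  have h7 : 0 < 1 + 2 * y := by linarith
  by_contra hcon
  push Not at hcon
  nlinarith

end Pool.Agent.H90.DC.Sparse
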