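import Pool.Agent.Lib_helper90.DC.Sparse

/-! Rosenfeld counting: locally sparse graphs have chromatic number `O(Δ / log)`. -/

set_option autoImplicit false
set_option linter.unusedSectionVars false

namespace Pool.Agent.H90.DC.Sparse

open SimpleGraph Finset
open scoped Classical

variable {V : Type*} [Fintype V] (H : SimpleGraph V) {q : ℕ} [NeZero q]

/-- neighbours of `v` in `S`. -/
noncomputable def Nb (S : Finset V) (v : V) : Finset V := S.filter (fun u => H.Adj v u)

/-- the good neighbours (long outside list, small inside degree). -/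
noncomputable def Gd (S : Finset V) (v : V) (L : ℝ) (c : V → Fin q) : Finset V :=
  (Nb H S v).filter (fun u => L < ((av H q c (S \ Nb H S v) u).card : ℝ) ∧
    (((Nb H S v).filter (fun w => H.Adj u w)).card : ℝ) ≤ L / 2)

/-- the bad neighbours. -/
noncomputable def Bd (S : Finset V) (v : V) (L : ℝ) (c : V → Fin q) : Finset V :=
  (Nb H S v) \ Gd H S v L c

noncomputable def kap (S : Finset V) (v : V) (L : ℝ) (c : V → Fin q) : V → Fin q :=
  fun w => if w ∈ Gd H S v L c then 0 else c w

theorem Gd_congr {S : Finset V} {v : V} {L : ℝ} {c c' : V → Fin q}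
    (h : ∀ u ∈ S \ Nb H S v, c u = c' u) : Gd H S v L c = Gd H S v L c' := by
  unfold Gd
  apply Finset.filter_congr
  intro u _
  rw [av_congr H h]

theorem Gd_subset {S : Finset V} {v : V} {L : ℝ} {c : V → Fin q} :
    Gd H S v L c ⊆ Nb H S v := Finset.filter_subset _ _

theorem kap_eq_iff {S : Finset V} {v : V} {L : ℝ} {c c' : V → Fin q} :
    kap H S v L c = kap H S v L c' ↔
      Gd H S v L c = Gd H S v L c' ∧ ∀ w, w ∉ Gd H S v L c' → c w = c' w := by
  constructor
  · intro h
    have h1 : ∀ u ∈ S \ Nb H S v, c u = c' u := by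
      intro u hu
      have hu' : u ∉ Nb H S v := (mem_sdiff.1 hu).2
      have := congrFun h u
      unfold kap at this
      rw [if_neg (fun h => hu' (Gd_subset H h)), if_neg (fun h => hu' (Gd_subset H h))] at this
      exact this
    have h2 := Gd_congr H (L := L) h1
    refine ⟨h2, ?_⟩
    intro w hw
    have := congrFun h w
    unfold kap at this
    rw [h2, if_neg hw, if_neg hw] at this
    exact this
  · rintro ⟨h1, h2⟩
    funext w
    unfold kap
    rw [h1]
    split_ifs with hw
    · rfl
    · exact h2 w hw

theorem class_sum {S : Finset V} {v : V} {L : ℝ} (hL : 4 ≤ L) (Δ : ℝ)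
    (hΔ : ((Nb H S v).card : ℝ) ≤ Δ) {c0 : V → Fin q}
    (hB : ((Bd H S v L c0).card : ℝ) ≤ q / 2) :
    (q / 2 * Real.exp (-(8 * Δ / q))) *
      (((Col H q S).filter (fun c => kap H S v L c = kap H S v L c0)).card : ℝ) ≤
    ∑ c ∈ (Col H q S).filter (fun c => kap H S v L c = kap H S v L c0),
      ((av H q c S v).card : ℝ) := by
  set K := (Col H q S).filter (fun c => kap H S v L c = kap H S v L c0) with hK
  set M := Gd H S v L c0 with hM
  set N := Nb H S v with hN
  set R : V → Finset (Fin q) := fun u => av H q c0 (S \ N) u with hR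
  set m : V → ℝ := fun u => ((R u).card : ℝ) / 2 with hm
  have hqpos : (0 : ℝ) < q := by
    have : 0 < q := Nat.pos_of_ne_zero (NeZero.ne q)
    exact_mod_cast this
  have hMN : M ⊆ N := Gd_subset H
  have hNS : N ⊆ S := Finset.filter_subset _ _
  have hMprop : ∀ u ∈ M, L < ((R u).card : ℝ) ∧ ((N.filter (fun w => H.Adj u w)).card : ℝ) ≤ L / 2 := by
    intro u hu
    exact (mem_filter.1 hu).2
  -- members of K agree with c0 off M
  have hKc : ∀ c ∈ K, c ∈ Col H q S ∧ Gd H S v L c = M ∧ ∀ w, w ∉ M → c w = c0 w := by
    intro c hc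
    rw [hK, mem_filter, kap_eq_iff] at hc
    exact ⟨hc.1, hc.2.1, hc.2.2⟩
  have hKav : ∀ c ∈ K, ∀ u, av H q c (S \ N) u = R u := by
    intro c hc u
    apply av_congr
    intro w hw
    exact (hKc c hc).2.2 w (fun h => (mem_sdiff.1 hw).2 (hMN h))
  -- apply class_bound
  have hcb : ∀ x : Fin q, (K.card : ℝ) * ∏ u ∈ M, (if x ∈ R u then (1 - 1 / m u) else 1) ≤
      ((K.filter (fun c => ∀ u ∈ M, c u ≠ x)).card : ℝ) := by
    intro x
    apply class_bound H S K M R m
    · intro u hu
      have := (hMprop u hu).1
      simp only [hm]; linarith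
    · intro c hc u hu
      rw [← hKav c hc u, mem_av]
      intro w hw huw
      have hcc := ((mem_Col H).1 (hKc c hc).1).2
      exact (hcc u (hNS (hMN hu)) w (mem_sdiff.1 hw).1 huw).symm
    · intro c hc u hu y hy
      have huS : u ∈ S := hNS (hMN hu)
      have h1 := (hKc c hc)
      rw [hK, mem_filter]
      constructor
      · have h2 := (erase_mem_Col H huS h1.1).1
        have h3 : y ∈ av H q (Function.update c u 0) (S.erase u) u := by
          have : av H q (Function.update c u 0) (S.erase u) u = av H q c (S.erase u) u := by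
            apply av_congr
            intro w hw
            rw [Function.update_of_ne (mem_erase.1 hw).1]
          rw [this]; exact hy
        have h4 := update_mem_Col H (Finset.notMem_erase u S) h2 h3
        rw [Function.update_idem, Finset.insert_erase huS] at h4
        exact h4
      · rw [kap_eq_iff]
        have h5 : Gd H S v L (Function.update c u y) = Gd H S v L c := by
          apply Gd_congr
          intro w hw
          have : w ≠ u := by
            rintro rfl
            exact (mem_sdiff.1 hw).2 (hMN hu)
          rw [Function.update_of_ne this]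
        refine ⟨h5.trans h1.2.1, ?_⟩
        intro w hw
        have : w ≠ u := by
          rintro rfl
          exact hw hu
        rw [Function.update_of_ne this]
        exact h1.2.2 w hw
    · intro c hc u hu
      -- |av c (S.erase u) u| ≥ |R u| - deg
      have h1 : (R u).card ≤ (av H q c (S.erase u) u).card + (N.filter (fun w => H.Adj u w)).card := by
        have h2 : R u ⊆ (av H q c (S.erase u) u) ∪ (N.filter (fun w => H.Adj u w)).image c := by
          intro x hx
          rw [mem_union]
          by_cases h : x ∈ av H q c (S.erase u) u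
          · exact Or.inl h
          · right
            rw [mem_av] at h
            push Not at h
            obtain ⟨w, hw, huw, hcw⟩ := h
            rw [mem_image]
            refine ⟨w, ?_, hcw⟩
            rw [mem_filter]
            refine ⟨?_, huw⟩
            by_contra hwN
            rw [← hKav c hc u, mem_av] at hx
            exact hx w (mem_sdiff.2 ⟨(mem_erase.1 hw).2, hwN⟩) huw hcw
        calc (R u).card ≤ _ := Finset.card_le_card h2
          _ ≤ _ := Finset.card_union_le _ _
          _ ≤ _ := by
            gcongr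
            exact Finset.card_image_le
      have h3 := hMprop u hu
      have h4 : ((R u).card : ℝ) ≤ ((av H q c (S.erase u) u).card : ℝ) +
          ((N.filter (fun w => H.Adj u w)).card : ℝ) := by exact_mod_cast h1
      simp only [hm]
      linarith
  -- the available colours
  set X : Finset (Fin q) := univ \ (Bd H S v L c0).image c0 with hX
  have hXcard : (q : ℝ) / 2 ≤ (X.card : ℝ) := by
    have h1 : q ≤ X.card + ((Bd H S v L c0).image c0).card := by
      rw [hX]
      have := Finset.card_sdiff_add_card_eq_card (Finset.subset_univ ((Bd H S v L c0).image c0))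
      rw [Finset.card_univ, Fintype.card_fin] at this
      exact this.ge
    have h2 : ((Bd H S v L c0).image c0).card ≤ (Bd H S v L c0).card := Finset.card_image_le
    have h3 : (q : ℝ) ≤ (X.card : ℝ) + (((Bd H S v L c0).image c0).card : ℝ) := by exact_mod_cast h1
    have h4 : (((Bd H S v L c0).image c0).card : ℝ) ≤ ((Bd H S v L c0).card : ℝ) := by
      exact_mod_cast h2
    linarith
  have hstep1 : ∑ x ∈ X, ((K.filter (fun c => ∀ u ∈ M, c u ≠ x)).card : ℝ) ≤
      ∑ c ∈ K, ((av H q c S v).card : ℝ) := by
    have h1 : ∀ x ∈ X, ((K.filter (fun c => ∀ u ∈ M, c u ≠ x)).card : ℝ) =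
        ∑ c ∈ K, (if ∀ u ∈ M, c u ≠ x then (1 : ℝ) else 0) := by
      intro x _
      rw [Finset.card_filter]
      push_cast
      rfl
    rw [Finset.sum_congr rfl h1, Finset.sum_comm]
    apply Finset.sum_le_sum
    intro c hc
    have h2 : ∑ x ∈ X, (if ∀ u ∈ M, c u ≠ x then (1 : ℝ) else 0) =
        ((X.filter (fun x => ∀ u ∈ M, c u ≠ x)).card : ℝ) := by
      rw [Finset.card_filter]
      push_cast
      rfl
    rw [h2]
    have h3 : X.filter (fun x => ∀ u ∈ M, c u ≠ x) ⊆ av H q c S v := by
      intro x hx
      rw [mem_filter, hX, mem_sdiff] at hx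
      rw [mem_av]
      intro u hu hvu
      by_cases huM : u ∈ M
      · exact hx.2 u huM
      · rw [(hKc c hc).2.2 u huM]
        intro hcu
        apply hx.1.2
        rw [mem_image]
        refine ⟨u, ?_, hcu⟩
        unfold Bd
        rw [mem_sdiff]
        exact ⟨mem_filter.2 ⟨hu, hvu⟩, huM⟩
    exact_mod_cast Finset.card_le_card h3
  -- weights
  set w : Fin q → ℝ := fun x => ∑ u ∈ M, (if x ∈ R u then 4 / ((R u).card : ℝ) else 0) with hw
  have hprod : ∀ x : Fin q, Real.exp (-(w x)) ≤ ∏ u ∈ M, (if x ∈ R u then (1 - 1 / m u) else 1) := by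
    intro x
    rw [hw]
    simp only
    rw [← Finset.sum_neg_distrib, Real.exp_sum]
    apply Finset.prod_le_prod
    · intro u _; exact (Real.exp_pos _).le
    · intro u hu
      split_ifs with hx
      · have hRu : L < ((R u).card : ℝ) := (hMprop u hu).1
        have hRpos : (0 : ℝ) < ((R u).card : ℝ) := by linarith
        have h1 : 1 / m u = 2 / ((R u).card : ℝ) := by
          simp only [hm]; field_simp
        rw [h1]
        have h2 : -(4 / ((R u).card : ℝ)) = -(2 * (2 / ((R u).card : ℝ))) := by ring
        rw [h2]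
        apply one_sub_ge_exp
        · positivity
        · rw [div_le_iff₀ hRpos]; linarith
      · simp
  have hwsum : ∑ x ∈ X, w x ≤ 4 * Δ := by
    have hnn : ∀ x, 0 ≤ w x := by
      intro x
      apply Finset.sum_nonneg
      intro u _
      split_ifs <;> positivity
    calc ∑ x ∈ X, w x ≤ ∑ x : Fin q, w x :=
          Finset.sum_le_sum_of_subset_of_nonneg (Finset.subset_univ _) (fun x _ _ => hnn x)
      _ = ∑ u ∈ M, ∑ x : Fin q, (if x ∈ R u then 4 / ((R u).card : ℝ) else 0) := by
          rw [hw]; exact Finset.sum_comm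
      _ ≤ ∑ u ∈ M, (4 : ℝ) := by
          apply Finset.sum_le_sum
          intro u hu
          rw [← Finset.sum_filter]
          rw [Finset.filter_mem_eq_inter, Finset.univ_inter, Finset.sum_const, nsmul_eq_mul]
          have hRpos : (0 : ℝ) < ((R u).card : ℝ) := by
            have := (hMprop u hu).1; linarith
          have : ((R u).card : ℝ) * (4 / ((R u).card : ℝ)) = 4 := by field_simp
          exact this.le
      _ = 4 * (M.card : ℝ) := by rw [Finset.sum_const, nsmul_eq_mul, mul_comm]
      _ ≤ 4 * Δ := by
          have : (M.card : ℝ) ≤ (N.card : ℝ) := by exact_mod_cast Finset.card_le_card hMN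
          linarith
  have hXpos : (0 : ℝ) < (X.card : ℝ) := by linarith
  have hjen := sum_exp_ge X w (8 * Δ / q) (by
    refine le_trans hwsum ?_
    have hΔ0 : 0 ≤ Δ := le_trans (by positivity) hΔ
    rw [div_mul_eq_mul_div, le_div_iff₀ hqpos]
    nlinarith)
  calc (q / 2 * Real.exp (-(8 * Δ / q))) * (K.card : ℝ)
      ≤ ((X.card : ℝ) * Real.exp (-(8 * Δ / q))) * (K.card : ℝ) := by
        have := (Real.exp_pos (-(8 * Δ / q))).le
        gcongr
    _ ≤ (∑ x ∈ X, Real.exp (-(w x))) * (K.card : ℝ) := by gcongr
    _ = ∑ x ∈ X, (K.card : ℝ) * Real.exp (-(w x)) := by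
        rw [Finset.sum_mul]
        exact Finset.sum_congr rfl (fun _ _ => mul_comm _ _)
    _ ≤ ∑ x ∈ X, ((K.filter (fun c => ∀ u ∈ M, c u ≠ x)).card : ℝ) := by
        apply Finset.sum_le_sum
        intro x _
        refine le_trans ?_ (hcb x)
        gcongr
        exact hprod x
    _ ≤ _ := hstep1

end Pool.Agent.H90.DC.Sparse
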